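import Pool.Agent.Lib.MP_570bef_ntG.Bas

/-! JOB AbP.  Divisor sums at `1` and at prime powers.

`DV_one`: a monic divisor of `1` is `1` (`Polynomial.Monic.eq_one_of_isUnit`).
`DV_pow`: `v` monic irreducible, `e ≥ 1`: `DV (v^e) = insert (v^e) (DV (v^(e-1)))` and `v^e ∉ DV (v^(e-1))`: a monic divisor of `v^e` is `v^i` with `i ≤ e` (`(dvd_prime_pow hv.prime e).1`: `d` associated to `v^i`; both monic: equal, `Polynomial.eq_of_monic_of_associated`).
So `∑_{d ∈ DV (v^e)} f d = f (v^e) + ∑_{d ∈ DV (v^(e-1))} f d`.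
`dv_one`, `dv_pow`: from `hs`. -/

open Polynomial MP_570bef_ntF MP_1ad228_ntD

namespace MP_570bef_ntG

variable {K : Type} [Field K] [Fintype K]

theorem dv_one (f : K[X] → ℂ) : ∑ d ∈ DV (1 : K[X]), f d = f 1 := by
  classical
  have h : DV (1 : K[X]) = {1} := by
    ext d
    rw [mem_DV one_ne_zero, Finset.mem_singleton]
    constructor
    · rintro ⟨h1, h2⟩
      exact h1.eq_one_of_isUnit (isUnit_of_dvd_one h2)
    · rintro rfl
      exact ⟨monic_one, dvd_rfl⟩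
  rw [h, Finset.sum_singleton]

private theorem AbP_mem {v : K[X]} (hv : Irreducible v) (hm : v.Monic) (e : ℕ) {d : K[X]} :
    d ∈ DV (v ^ e) ↔ ∃ i, i ≤ e ∧ d = v ^ i := by
  rw [mem_DV (pow_ne_zero e hm.ne_zero)]
  constructor
  · rintro ⟨h1, h2⟩
    obtain ⟨i, hi, ha⟩ := (dvd_prime_pow hv.prime e).1 h2
    exact ⟨i, hi, Polynomial.eq_of_monic_of_associated h1 (hm.pow i) ha⟩
  · rintro ⟨i, hi, rfl⟩
    exact ⟨hm.pow i, pow_dvd_pow v hi⟩

theorem dv_pow (v : K[X]) (hv : Irreducible v) (hm : v.Monic) (e : ℕ) (he : 1 ≤ e) (f : K[X] → ℂ) :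
    ∑ d ∈ DV (v ^ e), f d = f (v ^ e) + ∑ d ∈ DV (v ^ (e - 1)), f d := by
  classical
  have hnot : v ^ e ∉ DV (v ^ (e - 1)) := by
    rw [AbP_mem hv hm]
    rintro ⟨i, hi, h⟩
    have h1 := congrArg natDegree h
    rw [hm.natDegree_pow, hm.natDegree_pow] at h1
    have h2 := hv.natDegree_pos
    have h3 : e = i := Nat.eq_of_mul_eq_mul_right h2 h1
    omega
  have h : DV (v ^ e) = insert (v ^ e) (DV (v ^ (e - 1))) := by
    ext d
    rw [Finset.mem_insert, AbP_mem hv hm, AbP_mem hv hm]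
    constructor
    · rintro ⟨i, hi, rfl⟩
      by_cases hie : i = e
      · left
        rw [hie]
      · right
        exact ⟨i, by omega, rfl⟩
    · rintro (rfl | ⟨i, hi, rfl⟩)
      · exact ⟨e, le_rfl, rfl⟩
      · exact ⟨i, by omega, rfl⟩
  rw [h, Finset.sum_insert hnot]

end MP_570bef_ntG
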