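import Pool.Agent.Lib.MP_570bef_ntG.Defs

/-! JOB Asy.  Numerics of the high rank part.  `k = j + 1 ≥ 2`, `η := eta k = k 2^(k+3)`, `W := C2 k ≥ 1`, `x := σ^(2^j)`, `B := W^(n+1) q^((2k-1)μ + k² + k)`.

`hσ : x q^(n/2) ≤ k 2^(j²n) q^(j(1+μ))`.  `T := k σ² B`; `T^(2^k) = k^(2^k) (σ^(2^j))^4 B^(2^k)` (`2^k = 2 * 2^j`, `(σ²)^(2^k) = (σ^(2^j))^4`).  `4 (n/2) ≥ 2n - 2`, so `x^4 q^(2n) ≤ x^4 q^(4(n/2)) q² ≤ k^4 2^(4j²n) q^(4j(1+μ)) q²`.  Hence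
`T^(2^k) q^(2n) ≤ k^(2^k) k^4 W^(2^k) * (2^(4j²) W^(2^k))^n * q^(2 + 4j + 2^k (k²+k)) * q^(μ (4j + 2^k (2k-1)))`.
* `4j + 2^k(2k-1) ≤ 2k 2^k` (`4j ≤ 2^(j+1)`: `2j ≤ 2^j`), and `2k 2^k = η/4`, `η μ ≤ n`: `q^(μ(…)) ` to the fourth power is `≤ q^n`.
* `(2^(4j²) W^(2^k))^4 ≤ q` (part of `Q1 k ≤ q`), so `((2^(4j²) W^(2^k))^n)^4 ≤ q^n`.
* `k^(2^k) k^4 W^(2^k) ≤ q` (part of `Q1`), so `k^(2^k) k^4 W^(2^k) q^(2+4j+2^k(k²+k)) ≤ q^c`, `c := 3 + 4j + 2^k(k²+k)`; `N0 := 4 c`: its fourth power is `≤ q^n` for `n ≥ N0`.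
So `(T^(2^k) q^(2n))^4 ≤ q^(3n) ≤ q^(4n)`, i.e. `T^(2^k) q^(2n) ≤ q^n` (`pow_le_pow_left` backwards), so `T^(2^k) q^n ≤ 1`. -/

open MP_570bef_ntF

namespace MP_570bef_ntG

private theorem Asy_two (j : ℕ) (hj : 1 ≤ j) : 2 * j ≤ 2 ^ j := by
  induction j with
  | zero => omega
  | succ j ih =>
    by_cases h : j = 0
    · subst h
      norm_num
    · have h1 := ih (by omega)
      have h2 : 1 ≤ j := by omega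
      rw [pow_succ]
      have h3 : 2 ≤ 2 ^ j := le_trans (by omega) h1
      omega

private theorem Asy_Q1 (j q : ℕ) (h : Q1 (j + 1) ≤ q) :
    (2 ^ (4 * j ^ 2) * C2 (j + 1) ^ (2 ^ (j + 1))) ^ 4 ≤ q ∧
    (j + 1) ^ (2 ^ (j + 1)) * (j + 1) ^ 4 * C2 (j + 1) ^ (2 ^ (j + 1)) ≤ q ∧ 1 ≤ q := by
  unfold Q1 at h
  rw [Nat.add_sub_cancel] at h
  have h1 : 1 ≤ 16 * (j + 1) ^ 6 := Nat.one_le_iff_ne_zero.2 (by positivity)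
  generalize (2 ^ (4 * j ^ 2) * C2 (j + 1) ^ (2 ^ (j + 1))) ^ 4 = a at *
  generalize (j + 1) ^ (2 ^ (j + 1)) * (j + 1) ^ 4 * C2 (j + 1) ^ (2 ^ (j + 1)) = b at *
  generalize 16 * (j + 1) ^ 6 = c at *
  generalize 4 ^ e0 (j + 1) = d at *
  generalize (64 * D3 (j + 1)) ^ 2 = e at *
  generalize 64 * D4 (j + 1) * (j + 1) * eta (j + 1) = f at *
  omega

private theorem Asy_B (W q : ℝ) (n P m : ℕ) : (W ^ (n + 1) * q ^ m) ^ P = W ^ P * (W ^ P) ^ n * q ^ (m * P) := by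
  rw [mul_pow, ← pow_mul, ← pow_mul, ← pow_mul, ← pow_add]
  congr 2
  ring

theorem asy_high (j : ℕ) (hj : 1 ≤ j) : ∃ N0 : ℕ, ∀ (q n μ : ℕ) (σ : ℝ), Q1 (j + 1) ≤ q → N0 ≤ n →
    eta (j + 1) * μ ≤ n → 0 ≤ σ →
    σ ^ (2 ^ j) * (q : ℝ) ^ (n / 2) ≤ ((j : ℝ) + 1) * 2 ^ (j ^ 2 * n) * (q : ℝ) ^ (j * (1 + μ)) →
    (((j : ℝ) + 1) * σ ^ 2 * ((C2 (j + 1) : ℝ) ^ (n + 1) *
        (q : ℝ) ^ ((2 * (j + 1) - 1) * μ + (j + 1) ^ 2 + (j + 1)))) ^ (2 ^ (j + 1)) * (q : ℝ) ^ n ≤ 1 := by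
  refine ⟨4 * (3 + 4 * j + 2 ^ (j + 1) * ((j + 1) ^ 2 + (j + 1))), ?_⟩
  intro q n μ σ hQ hn hμ hσ0 hσ
  obtain ⟨hq1, hq2, hq3⟩ := Asy_Q1 j q hQ
  have r1 : (2 ^ (4 * j ^ 2) * (C2 (j + 1) : ℝ) ^ (2 ^ (j + 1))) ^ 4 ≤ (q : ℝ) := by exact_mod_cast hq1
  have r2 : ((j : ℝ) + 1) ^ (2 ^ (j + 1)) * ((j : ℝ) + 1) ^ 4 * (C2 (j + 1) : ℝ) ^ (2 ^ (j + 1)) ≤ (q : ℝ) := by
    exact_mod_cast hq2
  have r3 : (1 : ℝ) ≤ (q : ℝ) := by exact_mod_cast hq3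
  have hW : (0 : ℝ) ≤ (C2 (j + 1) : ℝ) := Nat.cast_nonneg _
  have h2j := Asy_two j hj
  have hP2 : (2 : ℕ) ^ (j + 1) = 2 * 2 ^ j := by rw [pow_succ, mul_comm]
  -- the exponent of mu
  have hexp : 4 * (μ * (4 * j + (2 * (j + 1) - 1) * 2 ^ (j + 1))) ≤ n := by
    refine le_trans ?_ hμ
    unfold eta
    have h1 : 4 * j + (2 * (j + 1) - 1) * 2 ^ (j + 1) ≤ 2 * (j + 1) * 2 ^ (j + 1) := by
      have h2 : 2 * (j + 1) - 1 = 2 * j + 1 := by omega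
      have h3 : 4 * j ≤ 2 ^ (j + 1) := by omega
      rw [h2]
      nlinarith
    have h4 : (j + 1) * 2 ^ (j + 1 + 3) = 4 * (2 * (j + 1) * 2 ^ (j + 1)) := by
      rw [pow_add 2 (j + 1) 3]
      ring
    rw [h4]
    calc 4 * (μ * (4 * j + (2 * (j + 1) - 1) * 2 ^ (j + 1))) ≤ 4 * (μ * (2 * (j + 1) * 2 ^ (j + 1))) :=
          Nat.mul_le_mul_left _ (Nat.mul_le_mul_left _ h1)
      _ = 4 * (2 * (j + 1) * 2 ^ (j + 1)) * μ := by ring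
  generalize hWd : (C2 (j + 1) : ℝ) = W at *
  generalize hqd : (q : ℝ) = Q at *
  generalize hkd : (j : ℝ) + 1 = kk at *
  have hkk : 0 ≤ kk := by
    rw [← hkd]
    positivity
  have hQ0 : (0 : ℝ) < Q := by linarith
  -- fourth power of the hypothesis
  have s1 : (σ ^ (2 ^ j)) ^ 4 * Q ^ (2 * n) ≤ kk ^ 4 * 2 ^ (4 * (j ^ 2 * n)) * Q ^ (4 * (j * (1 + μ))) * Q ^ 2 := by
    have h1 : (σ ^ (2 ^ j) * Q ^ (n / 2)) ^ 4 ≤ (kk * 2 ^ (j ^ 2 * n) * Q ^ (j * (1 + μ))) ^ 4 :=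
      pow_le_pow_left₀ (by positivity) hσ 4
    have h2 : Q ^ (2 * n) ≤ (Q ^ (n / 2)) ^ 4 * Q ^ 2 := by
      rw [← pow_mul, ← pow_add]
      exact pow_le_pow_right₀ r3 (by omega)
    calc (σ ^ (2 ^ j)) ^ 4 * Q ^ (2 * n) ≤ (σ ^ (2 ^ j)) ^ 4 * ((Q ^ (n / 2)) ^ 4 * Q ^ 2) :=
          mul_le_mul_of_nonneg_left h2 (by positivity)
      _ = (σ ^ (2 ^ j) * Q ^ (n / 2)) ^ 4 * Q ^ 2 := by ring
      _ ≤ (kk * 2 ^ (j ^ 2 * n) * Q ^ (j * (1 + μ))) ^ 4 * Q ^ 2 :=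
          mul_le_mul_of_nonneg_right h1 (by positivity)
      _ = kk ^ 4 * 2 ^ (4 * (j ^ 2 * n)) * Q ^ (4 * (j * (1 + μ))) * Q ^ 2 := by
          rw [mul_pow, mul_pow, ← pow_mul, ← pow_mul, mul_comm (j ^ 2 * n) 4, mul_comm (j * (1 + μ)) 4]
  -- T ^ P
  have s2 : (kk * σ ^ 2 * (W ^ (n + 1) * Q ^ ((2 * (j + 1) - 1) * μ + (j + 1) ^ 2 + (j + 1)))) ^ (2 ^ (j + 1)) =
      kk ^ (2 ^ (j + 1)) * (σ ^ (2 ^ j)) ^ 4 * (W ^ (2 ^ (j + 1)) * (W ^ (2 ^ (j + 1))) ^ n *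
        Q ^ (((2 * (j + 1) - 1) * μ + (j + 1) ^ 2 + (j + 1)) * 2 ^ (j + 1))) := by
    rw [mul_pow, mul_pow, Asy_B]
    congr 2
    rw [← pow_mul, ← pow_mul]
    congr 1
    rw [hP2]
    ring
  rw [s2]
  have hPn : (0 : ℝ) ≤ W ^ (2 ^ (j + 1)) := by positivity
  have s3 : kk ^ (2 ^ (j + 1)) * (σ ^ (2 ^ j)) ^ 4 * (W ^ (2 ^ (j + 1)) * (W ^ (2 ^ (j + 1))) ^ n *
        Q ^ (((2 * (j + 1) - 1) * μ + (j + 1) ^ 2 + (j + 1)) * 2 ^ (j + 1))) * Q ^ (2 * n) ≤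
      (kk ^ (2 ^ (j + 1)) * kk ^ 4 * W ^ (2 ^ (j + 1))) * (2 ^ (4 * j ^ 2) * W ^ (2 ^ (j + 1))) ^ n *
        Q ^ (2 + 4 * j + 2 ^ (j + 1) * ((j + 1) ^ 2 + (j + 1))) *
        Q ^ (μ * (4 * j + (2 * (j + 1) - 1) * 2 ^ (j + 1))) := by
    have e1 : kk ^ (2 ^ (j + 1)) * (σ ^ (2 ^ j)) ^ 4 * (W ^ (2 ^ (j + 1)) * (W ^ (2 ^ (j + 1))) ^ n *
        Q ^ (((2 * (j + 1) - 1) * μ + (j + 1) ^ 2 + (j + 1)) * 2 ^ (j + 1))) * Q ^ (2 * n) =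
        (kk ^ (2 ^ (j + 1)) * (W ^ (2 ^ (j + 1)) * (W ^ (2 ^ (j + 1))) ^ n *
        Q ^ (((2 * (j + 1) - 1) * μ + (j + 1) ^ 2 + (j + 1)) * 2 ^ (j + 1)))) * ((σ ^ (2 ^ j)) ^ 4 * Q ^ (2 * n)) := by
      ring
    rw [e1]
    refine le_trans (mul_le_mul_of_nonneg_left s1 (by positivity)) (le_of_eq ?_)
    have e2 : ((2 : ℝ) ^ (4 * j ^ 2) * W ^ (2 ^ (j + 1))) ^ n = 2 ^ (4 * (j ^ 2 * n)) * (W ^ (2 ^ (j + 1))) ^ n := by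
      rw [mul_pow, ← pow_mul, mul_assoc]
    have e3 : Q ^ (2 + 4 * j + 2 ^ (j + 1) * ((j + 1) ^ 2 + (j + 1))) *
        Q ^ (μ * (4 * j + (2 * (j + 1) - 1) * 2 ^ (j + 1))) =
        Q ^ (((2 * (j + 1) - 1) * μ + (j + 1) ^ 2 + (j + 1)) * 2 ^ (j + 1)) * Q ^ (4 * (j * (1 + μ))) * Q ^ 2 := by
      rw [← pow_add, ← pow_add, ← pow_add]
      congr 1
      ring
    rw [e2, mul_assoc _ (Q ^ (2 + 4 * j + 2 ^ (j + 1) * ((j + 1) ^ 2 + (j + 1)))), e3]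
    ring
  -- the right hand side is at most Q ^ n
  have s4 : (kk ^ (2 ^ (j + 1)) * kk ^ 4 * W ^ (2 ^ (j + 1))) * (2 ^ (4 * j ^ 2) * W ^ (2 ^ (j + 1))) ^ n *
        Q ^ (2 + 4 * j + 2 ^ (j + 1) * ((j + 1) ^ 2 + (j + 1))) *
        Q ^ (μ * (4 * j + (2 * (j + 1) - 1) * 2 ^ (j + 1))) ≤ Q ^ n := by
    rw [← pow_le_pow_iff_left₀ (by positivity) (by positivity) (by norm_num : (4 : ℕ) ≠ 0)]
    have t1 : (kk ^ (2 ^ (j + 1)) * kk ^ 4 * W ^ (2 ^ (j + 1))) *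
        Q ^ (2 + 4 * j + 2 ^ (j + 1) * ((j + 1) ^ 2 + (j + 1))) ≤
        Q ^ (3 + 4 * j + 2 ^ (j + 1) * ((j + 1) ^ 2 + (j + 1))) := by
      refine le_trans (mul_le_mul_of_nonneg_right r2 (by positivity)) (le_of_eq ?_)
      rw [← pow_succ']
      congr 1
      ring
    have t2 : ((kk ^ (2 ^ (j + 1)) * kk ^ 4 * W ^ (2 ^ (j + 1))) *
        Q ^ (2 + 4 * j + 2 ^ (j + 1) * ((j + 1) ^ 2 + (j + 1)))) ^ 4 ≤ Q ^ n := by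
      refine le_trans (pow_le_pow_left₀ (by positivity) t1 4) ?_
      rw [← pow_mul]
      exact pow_le_pow_right₀ r3 (by omega)
    have t3 : ((2 ^ (4 * j ^ 2) * W ^ (2 ^ (j + 1))) ^ n) ^ 4 ≤ Q ^ n := by
      rw [← pow_mul, mul_comm n 4, pow_mul]
      exact pow_le_pow_left₀ (by positivity) r1 n
    have t4 : (Q ^ (μ * (4 * j + (2 * (j + 1) - 1) * 2 ^ (j + 1)))) ^ 4 ≤ Q ^ n := by
      rw [← pow_mul, mul_comm _ 4]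
      exact pow_le_pow_right₀ r3 hexp
    have t5 : (Q ^ n) ^ 4 = Q ^ n * Q ^ n * Q ^ n * Q ^ n := by ring
    calc (kk ^ (2 ^ (j + 1)) * kk ^ 4 * W ^ (2 ^ (j + 1)) * (2 ^ (4 * j ^ 2) * W ^ (2 ^ (j + 1))) ^ n *
        Q ^ (2 + 4 * j + 2 ^ (j + 1) * ((j + 1) ^ 2 + (j + 1))) *
        Q ^ (μ * (4 * j + (2 * (j + 1) - 1) * 2 ^ (j + 1)))) ^ 4
        = ((kk ^ (2 ^ (j + 1)) * kk ^ 4 * W ^ (2 ^ (j + 1))) *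
        Q ^ (2 + 4 * j + 2 ^ (j + 1) * ((j + 1) ^ 2 + (j + 1)))) ^ 4 *
          ((2 ^ (4 * j ^ 2) * W ^ (2 ^ (j + 1))) ^ n) ^ 4 *
          (Q ^ (μ * (4 * j + (2 * (j + 1) - 1) * 2 ^ (j + 1)))) ^ 4 := by
          rw [← mul_pow, ← mul_pow]
          congr 1
          ring
      _ ≤ Q ^ n * Q ^ n * Q ^ n := by
          refine mul_le_mul (mul_le_mul t2 t3 (by positivity) (by positivity)) t4 (by positivity) (by positivity)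
      _ ≤ Q ^ n * Q ^ n * Q ^ n * Q ^ n := le_mul_of_one_le_right (by positivity) (one_le_pow₀ r3)
      _ = (Q ^ n) ^ 4 := t5.symm
  have s5 := le_trans s3 s4
  generalize kk ^ (2 ^ (j + 1)) * (σ ^ (2 ^ j)) ^ 4 * (W ^ (2 ^ (j + 1)) * (W ^ (2 ^ (j + 1))) ^ n *
        Q ^ (((2 * (j + 1) - 1) * μ + (j + 1) ^ 2 + (j + 1)) * 2 ^ (j + 1))) = X at s5 ⊢
  have hQn : 0 < Q ^ n := by positivity
  have s6 : (X * Q ^ n) * Q ^ n ≤ 1 * Q ^ n := by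
    rw [one_mul, mul_assoc, ← pow_add, ← two_mul]
    exact s5
  exact le_of_mul_le_mul_right s6 hQn

end MP_570bef_ntG
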