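import Pool.Agent.Lib.MP_570bef_ntG.PrM
import Pool.Agent.Lib.MP_570bef_ntF.CK

/-! JOB BadC.  Few nonzero polynomials of degree `≤ k n` have many prime divisors of degree `R + 1`.  `q := card K`, `N := q^(R+1)`, `e := e0 k ≥ 1`, `Y := k n`, `Bad` the set in the statement.

Let `J := N / e + 1` (natural division), so `N < e J`, and `e * om F > N` implies `om F ≥ J`.  `V := {v ∈ PR K (R+1) : natDegree v = R+1}`, `card V ≤ N` (`card_irr_le`).  For `F ∈ Bad` the set `{v ∈ V : v ∣ F}` has at least `J` elements, choose a subset `S` with exactly `J` elements (`Finset.exists_subset_card_eq`):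
`∏_{v∈S} v ∣ F` (pairwise coprime), `natDegree (∏) = J (R+1)` and, as `F ≠ 0`, `J (R+1) ≤ Y`.  So `Bad ⊆ ⋃_{S ∈ V.powersetCard J} {F ∈ SS K Y : ∏ S ∣ F}` and if `Bad` is not empty `J (R+1) ≤ Y`; each set has at most `q^(Y + 1 - J(R+1))` elements (`card_mult_le`, MP_570bef_ntF/CK), the number of `S` is
`≤ 2^N` (`powersetCard ⊆ powerset`).  So `card Bad * q^(J(R+1)) ≤ 2^N q^(Y+1)` (also if `Bad` is empty).
Take the power `2 e`: `(2^N)^(2e) = (4^e)^N ≤ q^N ≤ q^(N(R+1))` (`hq : 4^e ≤ q`), and `2 e J (R+1) ≥ 2 N (R+1)`: `card Bad^(2e) * q^(2N(R+1)) ≤ q^(N(R+1)) (q^(Y+1))^(2e)`, so `card Bad^(2e) q^(N(R+1)) ≤ (q^(Y+1))^(2e)`.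
Take the power `2 eta`: `card Bad^(4 e eta) q^(2 eta N (R+1)) ≤ (q^(Y+1))^(4 e eta)` and `q^n ≤ q^(2 eta N (R+1))` by `hR` (`q ≥ 1`).  `D1 k = 4 * e0 k * eta k`. -/

open Polynomial MP_570bef_ntF MP_1ad228_ntD

namespace MP_570bef_ntG

variable {K : Type} [Field K] [Fintype K]

open Classical in
private theorem BadC_sub (k n R J : ℕ)
    (hJ2 : ∀ m : ℕ, Fintype.card K ^ (R + 1) < e0 k * m → J ≤ m) :
    (SS K (k * n)).filter (fun F => F ≠ 0 ∧ Fintype.card K ^ (R + 1) < e0 k * om (R + 1) F) ⊆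
      (((PR K (R + 1)).filter (fun v => v.natDegree = R + 1)).powersetCard J).biUnion
        (fun S => (SS K (k * n)).filter (fun F => F ≠ 0 ∧ (∏ v ∈ S, v) ∣ F)) := by
  intro F hF
  rw [Finset.mem_filter] at hF
  obtain ⟨hF1, hF0, hF2⟩ := hF
  have h1 : J ≤ om (R + 1) F := hJ2 _ hF2
  unfold om at h1
  obtain ⟨S, hS1, hS2⟩ := Finset.exists_subset_card_eq h1
  rw [Finset.mem_biUnion]
  refine ⟨S, ?_, ?_⟩
  · rw [Finset.mem_powersetCard]
    refine ⟨?_, hS2⟩
    intro v hv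
    have h2 := hS1 hv
    rw [Finset.mem_filter] at h2 ⊢
    exact ⟨h2.1, h2.2.1⟩
  · rw [Finset.mem_filter]
    refine ⟨hF1, hF0, ?_⟩
    apply Finset.prod_dvd_of_coprime
    · intro a ha b hb hab
      have h2 := hS1 ha
      have h3 := hS1 hb
      rw [Finset.mem_filter, mem_PR] at h2 h3
      show IsCoprime a b
      rw [(h2.1.2.1).coprime_iff_not_dvd]
      intro hd
      apply hab
      exact eq_of_monic_of_associated h2.1.2.2 h3.1.2.2 (h2.1.2.1.associated_of_dvd h3.1.2.1 hd)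
    · intro v hv
      have h2 := hS1 hv
      rw [Finset.mem_filter] at h2
      exact h2.2.2

open Classical in
private theorem BadC_one (k n R J : ℕ) (S : Finset K[X])
    (hS : S ∈ ((PR K (R + 1)).filter (fun v => v.natDegree = R + 1)).powersetCard J) :
    ((SS K (k * n)).filter (fun F => F ≠ 0 ∧ (∏ v ∈ S, v) ∣ F)).card * Fintype.card K ^ (J * (R + 1)) ≤
      Fintype.card K ^ (k * n + 1) := by
  rw [Finset.mem_powersetCard] at hS
  obtain ⟨hS1, hS2⟩ := hS
  have hm : ∀ v ∈ S, v.Monic := by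
    intro v hv
    have h2 := hS1 hv
    rw [Finset.mem_filter, mem_PR] at h2
    exact h2.1.2.2
  have hd : (∏ v ∈ S, v).natDegree = J * (R + 1) := by
    rw [natDegree_prod_of_monic _ _ hm, ← hS2, ← smul_eq_mul, ← Finset.sum_const]
    apply Finset.sum_congr rfl
    intro v hv
    have h2 := hS1 hv
    rw [Finset.mem_filter] at h2
    exact h2.2
  have hne : (∏ v ∈ S, v) ≠ 0 := (monic_prod_of_monic _ _ hm).ne_zero
  by_cases hle : (∏ v ∈ S, v).natDegree ≤ k * n
  · have h3 := card_mult_le (K := K) (k * n) (∏ v ∈ S, v) hne hle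
    have h4 : ((SS K (k * n)).filter (fun F => F ≠ 0 ∧ (∏ v ∈ S, v) ∣ F)).card ≤
        ((SS K (k * n)).filter (fun F => (∏ v ∈ S, v) ∣ F)).card := by
      apply Finset.card_le_card
      intro F hF
      rw [Finset.mem_filter] at hF ⊢
      exact ⟨hF.1, hF.2.2⟩
    refine (Nat.mul_le_mul_right _ (h4.trans h3)).trans ?_
    rw [hd] at hle ⊢
    rw [← pow_add]
    apply le_of_eq
    have h5 : k * n + 1 - J * (R + 1) + J * (R + 1) = k * n + 1 := by omega
    rw [h5]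
  · have h6 : ((SS K (k * n)).filter (fun F => F ≠ 0 ∧ (∏ v ∈ S, v) ∣ F)) = ∅ := by
      rw [Finset.filter_eq_empty_iff]
      intro F hF h7
      rw [mem_SS] at hF
      exact hle ((natDegree_le_of_dvd h7.2 h7.1).trans hF)
    rw [h6, Finset.card_empty, Nat.zero_mul]
    exact Nat.zero_le _

private theorem BadC_num (c e et q N J n r Y : ℕ) (hq1 : 1 ≤ q) (hq : 4 ^ e ≤ q)
    (hJ : N < e * J) (hr : 1 ≤ r) (hn : n < et * (2 * r * N))
    (h : c * q ^ (J * r) ≤ 2 ^ N * q ^ Y) :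
    c ^ (4 * e * et) * q ^ n ≤ (q ^ Y) ^ (4 * e * et) := by
  have h1 : c ^ (2 * e) * q ^ (2 * e * (J * r)) ≤ (2 ^ N) ^ (2 * e) * (q ^ Y) ^ (2 * e) := by
    have h2 := Nat.pow_le_pow_left h (2 * e)
    rw [mul_pow, mul_pow, ← pow_mul q (J * r), mul_comm (J * r) (2 * e)] at h2
    exact h2
  have h3 : (2 ^ N) ^ (2 * e) ≤ q ^ (N * r) := by
    calc (2 ^ N) ^ (2 * e) = (4 ^ e) ^ N := by
          rw [← pow_mul, ← pow_mul, show (4 : ℕ) = 2 ^ 2 by norm_num, ← pow_mul]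
          ring_nf
      _ ≤ q ^ N := Nat.pow_le_pow_left hq N
      _ ≤ q ^ (N * r) := Nat.pow_le_pow_right hq1 (Nat.le_mul_of_pos_right N hr)
  have h4 : q ^ (N * r) * q ^ (N * r) ≤ q ^ (2 * e * (J * r)) := by
    rw [← pow_add]
    apply Nat.pow_le_pow_right hq1
    have h5 : N * r ≤ e * J * r := Nat.mul_le_mul_right r hJ.le
    have h6 : 2 * e * (J * r) = 2 * (e * J * r) := by ring
    omega
  have h7 : c ^ (2 * e) * q ^ (N * r) ≤ (q ^ Y) ^ (2 * e) := by
    have h8 : c ^ (2 * e) * q ^ (N * r) * q ^ (N * r) ≤ (q ^ Y) ^ (2 * e) * q ^ (N * r) := by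
      calc c ^ (2 * e) * q ^ (N * r) * q ^ (N * r) = c ^ (2 * e) * (q ^ (N * r) * q ^ (N * r)) := by ring
        _ ≤ c ^ (2 * e) * q ^ (2 * e * (J * r)) := Nat.mul_le_mul_left _ h4
        _ ≤ (2 ^ N) ^ (2 * e) * (q ^ Y) ^ (2 * e) := h1
        _ ≤ q ^ (N * r) * (q ^ Y) ^ (2 * e) := Nat.mul_le_mul_right _ h3
        _ = (q ^ Y) ^ (2 * e) * q ^ (N * r) := by ring
    exact Nat.le_of_mul_le_mul_right h8 (Nat.pow_pos hq1)
  have h9 := Nat.pow_le_pow_left h7 (2 * et)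
  rw [mul_pow, ← pow_mul, ← pow_mul, ← pow_mul (q ^ Y)] at h9
  have h10 : 2 * e * (2 * et) = 4 * e * et := by ring
  rw [h10] at h9
  refine le_trans (Nat.mul_le_mul_left _ ?_) h9
  apply Nat.pow_le_pow_right hq1
  have h11 : N * r * (2 * et) = et * (2 * r * N) := by ring
  rw [h11]
  exact hn.le

open Classical in
theorem bad_count (k n R : ℕ) (hq : 4 ^ e0 k ≤ Fintype.card K)
    (hR : n < eta k * (2 * (R + 1) * Fintype.card K ^ (R + 1))) :
    ((SS K (k * n)).filter (fun F => F ≠ 0 ∧ Fintype.card K ^ (R + 1) < e0 k * om (R + 1) F)).card ^ (D1 k) *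
        Fintype.card K ^ n ≤ (Fintype.card K ^ (k * n + 1)) ^ (D1 k) := by
  have he : 1 ≤ e0 k := by
    unfold e0 D4
    omega
  have hq1 : 1 ≤ Fintype.card K := Fintype.card_pos
  have hJ : Fintype.card K ^ (R + 1) < e0 k * (Fintype.card K ^ (R + 1) / e0 k + 1) :=
    Nat.lt_mul_div_succ _ he
  have hJ2 : ∀ m : ℕ, Fintype.card K ^ (R + 1) < e0 k * m → Fintype.card K ^ (R + 1) / e0 k + 1 ≤ m := by
    intro m hm
    have := (Nat.div_lt_iff_lt_mul he).2 (by rw [mul_comm]; exact hm)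
    exact this
  generalize Fintype.card K ^ (R + 1) / e0 k + 1 = J at hJ hJ2
  have hV : ((PR K (R + 1)).filter (fun v => v.natDegree = R + 1)).card ≤ Fintype.card K ^ (R + 1) := by
    apply card_irr_le
    intro v hv
    rw [Finset.mem_filter, mem_PR] at hv
    exact ⟨hv.1.2.2, hv.2⟩
  have h1 := (Finset.card_le_card (BadC_sub (K := K) k n R J hJ2)).trans Finset.card_biUnion_le
  have h2 : (∑ S ∈ ((PR K (R + 1)).filter (fun v => v.natDegree = R + 1)).powersetCard J,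
      ((SS K (k * n)).filter (fun F => F ≠ 0 ∧ (∏ v ∈ S, v) ∣ F)).card) * Fintype.card K ^ (J * (R + 1)) ≤
      2 ^ (Fintype.card K ^ (R + 1)) * Fintype.card K ^ (k * n + 1) := by
    rw [Finset.sum_mul]
    refine (Finset.sum_le_card_nsmul _ _ _ (fun S hS => BadC_one k n R J S hS)).trans ?_
    rw [smul_eq_mul]
    apply Nat.mul_le_mul_right
    calc (((PR K (R + 1)).filter (fun v => v.natDegree = R + 1)).powersetCard J).card
        ≤ (((PR K (R + 1)).filter (fun v => v.natDegree = R + 1)).powerset).card :=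
          Finset.card_le_card (fun S hS => Finset.mem_powerset.2 (Finset.mem_powersetCard.1 hS).1)
      _ = 2 ^ ((PR K (R + 1)).filter (fun v => v.natDegree = R + 1)).card := Finset.card_powerset _
      _ ≤ 2 ^ (Fintype.card K ^ (R + 1)) := Nat.pow_le_pow_right (by norm_num) hV
  unfold D1
  exact BadC_num _ (e0 k) (eta k) (Fintype.card K) (Fintype.card K ^ (R + 1)) J n (R + 1) (k * n + 1) hq1 hq hJ
    (by omega) hR ((Nat.mul_le_mul_right _ h1).trans h2)

end MP_570bef_ntG
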