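import Pool.Agent.Lib.MP_570bef_ntG.Defs

/-! Basic API of stream G. -/

open Polynomial MP_570bef_ntF MP_1ad228_ntD

namespace MP_570bef_ntG

variable {K : Type} [Field K] [Fintype K]

theorem mem_RR {d : ℕ} {x : K[X]} : x ∈ RR K d ↔ x.degree < (d : WithBot ℕ) := by
  cases d with
  | zero =>
    show x ∈ ({0} : Finset K[X]) ↔ _
    rw [Finset.mem_singleton, Nat.cast_zero]
    constructor
    · rintro rfl
      rw [degree_zero]
      exact WithBot.bot_lt_coe 0
    · intro h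
      by_contra hx
      rw [degree_eq_natDegree hx] at h
      exact absurd h (by exact_mod_cast Nat.not_lt_zero _)
  | succ d =>
    show x ∈ SS K d ↔ _
    rw [mem_SS, natDegree_le_iff_degree_le]
    rw [← Order.lt_succ_iff]
    rfl

theorem card_RR (d : ℕ) : (RR K d).card = Fintype.card K ^ d := by
  cases d with
  | zero => rfl
  | succ d => exact card_SS d

theorem zero_mem_RR (d : ℕ) : (0 : K[X]) ∈ RR K d := by
  rw [mem_RR, degree_zero]
  exact WithBot.bot_lt_coe d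

theorem mem_RR_monic {b : K[X]} (hb : b.Monic) {x : K[X]} : x ∈ RR K b.natDegree ↔ x.degree < b.degree := by
  rw [mem_RR, degree_eq_natDegree hb.ne_zero]

theorem mod_mem_RR {b : K[X]} (hb : b.Monic) (x : K[X]) : x %ₘ b ∈ RR K b.natDegree := by
  rw [mem_RR_monic hb]
  exact degree_modByMonic_lt x hb

theorem mod_eq_self {b : K[X]} (hb : b.Monic) {x : K[X]} (hx : x ∈ RR K b.natDegree) : x %ₘ b = x := by
  rw [mem_RR_monic hb] at hx
  exact (modByMonic_eq_self_iff hb).2 hx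

theorem RR_add {d : ℕ} {x y : K[X]} (hx : x ∈ RR K d) (hy : y ∈ RR K d) : x + y ∈ RR K d := by
  rw [mem_RR] at *
  exact lt_of_le_of_lt (degree_add_le x y) (max_lt hx hy)

theorem RR_sub {d : ℕ} {x y : K[X]} (hx : x ∈ RR K d) (hy : y ∈ RR K d) : x - y ∈ RR K d := by
  rw [mem_RR] at *
  exact lt_of_le_of_lt (degree_sub_le x y) (max_lt hx hy)

theorem RR_eq {b : K[X]} (hb : b.Monic) {x y : K[X]} (hx : x ∈ RR K b.natDegree) (hy : y ∈ RR K b.natDegree)
    (h : b ∣ x - y) : x = y := by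
  have h1 := RR_sub hx hy
  rw [mem_RR_monic hb] at h1
  exact sub_eq_zero.1 (eq_zero_of_dvd_of_degree_lt h h1)

/-- every polynomial is congruent to exactly one representative -/
theorem RR_mod {b : K[X]} (hb : b.Monic) (x : K[X]) : b ∣ x - x %ₘ b := by
  refine ⟨x /ₘ b, ?_⟩
  have h := modByMonic_add_div x b
  linear_combination -h

theorem mem_PR {R : ℕ} {x : K[X]} : x ∈ PR K R ↔ x.natDegree ≤ R ∧ Irreducible x ∧ x.Monic := by
  classical
  unfold PR
  rw [Finset.mem_filter, mem_SS]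

theorem mem_VR {R g : ℕ} {x : K[X]} :
    x ∈ VR K R g ↔ x.natDegree ≤ g ∧ Irreducible x ∧ x.Monic ∧ R < x.natDegree := by
  classical
  unfold VR
  rw [Finset.mem_filter, mem_SS]

theorem mem_CB {E : ℕ} {b : K[X]} {c : Fin (E + 1) → K} : c ∈ CB E b ↔ Kill (lin c) E b b.natDegree := by
  classical
  unfold CB
  rw [Finset.mem_filter]
  exact ⟨fun h => h.2, fun h => ⟨Finset.mem_univ _, h⟩⟩

theorem mem_CS {E : ℕ} {b : K[X]} {c : Fin (E + 1) → K} :
    c ∈ CS E b ↔ Kill (lin c) E b b.natDegree ∧ IsRho (lin c) E b.natDegree := by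
  classical
  unfold CS
  rw [Finset.mem_filter]
  exact ⟨fun h => h.2, fun h => ⟨Finset.mem_univ _, h⟩⟩

theorem mem_LW {E g : ℕ} {c : Fin (E + 1) → K} :
    c ∈ LW K E g ↔ c ≠ 0 ∧ ∃ r ≤ g, IsRho (lin c) E r := by
  classical
  unfold LW
  rw [Finset.mem_filter]
  exact ⟨fun h => h.2, fun h => ⟨Finset.mem_univ _, h⟩⟩

theorem mem_HW {E g : ℕ} {c : Fin (E + 1) → K} :
    c ∈ HW K E g ↔ ∃ r, g < r ∧ IsRho (lin c) E r := by
  classical
  unfold HW
  rw [Finset.mem_filter]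
  exact ⟨fun h => h.2, fun h => ⟨Finset.mem_univ _, h⟩⟩

theorem mem_GB {R g : ℕ} {b : K[X]} :
    b ∈ GB K R g ↔ b.natDegree ≤ g ∧ b.Monic ∧ 1 ≤ b.natDegree ∧ IsCoprime b (MR K R) := by
  classical
  unfold GB
  rw [Finset.mem_filter, mem_SS]

theorem mem_DV {b d : K[X]} (hb : b ≠ 0) : d ∈ DV b ↔ d.Monic ∧ d ∣ b := by
  classical
  unfold DV
  rw [Finset.mem_filter, mem_SS]
  exact ⟨fun h => h.2, fun h => ⟨natDegree_le_of_dvd h.2 hb, h⟩⟩

theorem one_le_q : (1 : ℝ) ≤ (Fintype.card K : ℝ) := by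
  have := two_le_q (K := K)
  exact_mod_cast (by omega : 1 ≤ Fintype.card K)

end MP_570bef_ntG
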