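import Pool.Agent.Lib.MP_570bef_ntG.Bas
import Pool.Agent.Lib.MP_570bef_ntF.CFc

/-! JOB CbS.  Functionals killed by `b` are sorted by their minimal killing form.

`kill_dvd`: `c ∈ CB E b` (`b` monic, `2 natDegree b ≤ E + 1`): let `r` be the rank (`exists_rho`), `hρ.1` gives a witness `b0 ≠ 0`, `natDegree b0 ≤ r`, `Kill (lin c) E b0 r`; `r ≤ natDegree b` (`rho_le`).
`rho_dvd` with `y := b`, `Y := natDegree b`: `b = b0 * y'`, `natDegree y' + r ≤ natDegree b`; `natDegree b = natDegree b0 + natDegree y'` (`natDegree_mul`, both `≠ 0`), so `r ≤ natDegree b0`, `natDegree b0 = r`.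
`d := C (leadingCoeff b0)⁻¹ * b0` is monic, of degree `r`, `Kill (lin c) E d r` (scalar multiple; as in the proof of `card_rho_le`, MP_570bef_ntF/Cnt.lean), `d ∣ b`.  So `d ∈ DV b`, `c ∈ CS E d`.
`CS_sub`: `d ∣ b`, `b = d * y`: `Kill (lin c) E b (natDegree b)` from `Kill (lin c) E d (natDegree d)`: `lin c (d * y * z) = lin c (d * (y * z))`, `natDegree (y*z) + natDegree d ≤ natDegree z + natDegree b ≤ E` (or `Kill.mul`).
`CS_unique`: `c ∈ CS E d ∩ CS E d'`: ranks are equal (`rho_unique`): `natDegree d = natDegree d' = r`; `rho_dvd` (`b := d`, `y := d'`, `Y := r`; needs `2 r ≤ E + 1`): `d' = d * y'`, `natDegree y' + r ≤ r`, `y'` constant; both monic, so `d' = d` (`Polynomial.eq_of_monic_of_associated`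
or compare leading coefficients).
`CB_split`: `CB E b` is the disjoint union of `CS E d`, `d ∈ DV b`: `Finset.sum_biUnion` (after `CB E b = (DV b).biUnion (CS E)`; pairwise disjoint by `CS_unique`; for `d ∈ DV b`: `natDegree d ≤ natDegree b`). -/

open Polynomial MP_570bef_ntF MP_1ad228_ntD

namespace MP_570bef_ntG

variable {K : Type} [Field K] [Fintype K]

theorem kill_dvd (E : ℕ) (b : K[X]) (hb : b.Monic) (h2 : 2 * b.natDegree ≤ E + 1) (c : Fin (E + 1) → K)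
    (hc : c ∈ CB E b) : ∃ d ∈ DV b, c ∈ CS E d := by
  have hk : Kill (lin c) E b b.natDegree := mem_CB.1 hc
  obtain ⟨r, -, hρ⟩ := exists_rho (lin c) E
  have hr : r ≤ b.natDegree := rho_le hρ hb.ne_zero le_rfl hk
  obtain ⟨b0, hb0, hb0r, hk0⟩ := hρ.1
  obtain ⟨y', hy1, hy2⟩ := rho_dvd hρ hb0 hb0r hk0 hb.ne_zero le_rfl hk (by omega)
  have hy0 : y' ≠ 0 := by
    rintro rfl
    rw [mul_zero] at hy1
    exact hb.ne_zero hy1
  have hdeg : b.natDegree = b0.natDegree + y'.natDegree := by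
    rw [hy1]
    exact natDegree_mul hb0 hy0
  have hb0e : b0.natDegree = r := by omega
  have hl : b0.leadingCoeff ≠ 0 := leadingCoeff_ne_zero.mpr hb0
  have hdd : (C b0.leadingCoeff⁻¹ * b0).natDegree = b0.natDegree :=
    natDegree_C_mul (inv_ne_zero hl)
  have hdm : (C b0.leadingCoeff⁻¹ * b0).Monic := by
    rw [Monic, leadingCoeff_mul, leadingCoeff_C]
    exact inv_mul_cancel₀ hl
  refine ⟨C b0.leadingCoeff⁻¹ * b0, (mem_DV hb.ne_zero).2 ⟨hdm, ?_⟩, mem_CS.2 ⟨?_, ?_⟩⟩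
  · refine ⟨C b0.leadingCoeff * y', ?_⟩
    have hCa : C b0.leadingCoeff⁻¹ * C b0.leadingCoeff = (1 : K[X]) := by
      rw [← C_mul, inv_mul_cancel₀ hl, C_1]
    calc b = b0 * y' := hy1
      _ = (C b0.leadingCoeff⁻¹ * C b0.leadingCoeff) * (b0 * y') := by rw [hCa, one_mul]
      _ = C b0.leadingCoeff⁻¹ * b0 * (C b0.leadingCoeff * y') := by ring
  · rw [hdd, hb0e]
    intro z hz
    rw [mul_assoc, ← smul_eq_C_mul, map_smul, hk0 z hz, smul_zero]
  · rw [hdd, hb0e]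
    exact hρ

theorem CS_sub (E : ℕ) (b d : K[X]) (hb : b.Monic) (hd : d.Monic) (hdb : d ∣ b) (c : Fin (E + 1) → K)
    (hc : c ∈ CS E d) : c ∈ CB E b := by
  obtain ⟨y, hy⟩ := hdb
  have hy0 : y ≠ 0 := by
    rintro rfl
    rw [mul_zero] at hy
    exact hb.ne_zero hy
  have h1 := (mem_CS.1 hc).1.mul y y.natDegree le_rfl
  rw [mem_CB]
  have h2 : b.natDegree = d.natDegree + y.natDegree := by
    rw [hy]
    exact natDegree_mul hd.ne_zero hy0
  rw [h2, hy]
  exact h1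

theorem CS_unique (E : ℕ) (d d' : K[X]) (hd : d.Monic) (hd' : d'.Monic) (h2 : 2 * d.natDegree ≤ E + 1)
    (c : Fin (E + 1) → K) (hc : c ∈ CS E d) (hc' : c ∈ CS E d') : d = d' := by
  obtain ⟨k1, r1⟩ := mem_CS.1 hc
  obtain ⟨k2, r2⟩ := mem_CS.1 hc'
  have h3 : d.natDegree = d'.natDegree := rho_unique r1 r2
  obtain ⟨y', hy1, -⟩ := rho_dvd r1 hd.ne_zero le_rfl k1 hd'.ne_zero le_rfl k2 (by omega)
  exact (eq_of_monic_of_dvd_of_natDegree_le hd hd' ⟨y', hy1⟩ h3.ge).symm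

theorem CB_split (E : ℕ) (b : K[X]) (hb : b.Monic) (h2 : 2 * b.natDegree ≤ E + 1) (f : (Fin (E + 1) → K) → ℂ) :
    ∑ c ∈ CB E b, f c = ∑ d ∈ DV b, ∑ c ∈ CS E d, f c := by
  classical
  have h1 : CB E b = (DV b).biUnion (fun d => CS E d) := by
    ext c
    rw [Finset.mem_biUnion]
    constructor
    · intro hc
      exact kill_dvd E b hb h2 c hc
    · rintro ⟨d, hd, hc⟩
      obtain ⟨hd1, hd2⟩ := (mem_DV hb.ne_zero).1 hd
      exact CS_sub E b d hb hd1 hd2 c hc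
  rw [h1, Finset.sum_biUnion]
  intro d hd d' hd' hne
  obtain ⟨hd1, hd2⟩ := (mem_DV hb.ne_zero).1 (Finset.mem_coe.1 hd)
  obtain ⟨hd3, hd4⟩ := (mem_DV hb.ne_zero).1 (Finset.mem_coe.1 hd')
  refine Finset.disjoint_left.2 fun c hc hc' => hne ?_
  have h3 : d.natDegree ≤ b.natDegree := natDegree_le_of_dvd hd2 hb.ne_zero
  exact CS_unique E d d' hd1 hd3 (by omega) c hc hc'

end MP_570bef_ntG
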