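import Pool.Agent.Lib.MP_570bef_ntG.Bas
import Pool.Agent.Lib.MP_1ad228_ntD.Tay

/-! JOB LamA.  The coefficients `lam k M w j = C(k,j) w^(k-j) M^(j-1)`.

`lam_eq`: binomial theorem: `(w + M y)^k = ∑_{j ≤ k} C(k,j) w^(k-j) (M y)^j` (`add_pow`, `Finset.sum_range_succ'`), the term `j = 0` is `w^k`, and `M * lam_j y^j = C(k,j) w^(k-j) M^j y^j` for `j ≥ 1` (`Finset.range_eq_Ico`, `Finset.sum_Ico..`, or `Finset.sum_bij`; also true for `k = 0`).
`lam_deg`: `natDegree (lam j) ≤ (k-j) n + (j-1) μ` (`natDegree_mul_le`, `natDegree_pow_le`, `natDegree_natCast`), `μ = natDegree M`, and `(k-j) n + (j-1) μ + j m + j = (k-j) n + (j-1) μ + j (n - μ) = k n - μ = E + 1` (write `k = j + t`, `j = i + 1`, `n = μ + m + 1`; `nlinarith`/`ring_nf`).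
`lam_gg_deg`: `gg_deg` (MP_1ad228_ntD/Tay) with `lam_deg`.
`lam_pi`: `lam 1 = k * w^(k-1) * 1` (`Nat.choose_one_right`); `π` prime, `(k : K[X]) = C (k : K)` is a unit, so `π ∣ lam 1` gives `π ∣ w`; for `j ≥ 2` the factor `M^(j-1)` is divisible by `π`.
`lam_inf`: `natDegree w = n` (`le_antisymm`, `le_natDegree_of_ne_zero`), so `lam 1 = C k * w^(k-1)` has degree `(k-1) n` and is not `0`; `(k-1) n + m = E`: `E + 1 + μ = k n`, `n = μ + m + 1`.  (If `n = 0` impossible: `n = μ + m + 1`.)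
`lam_top`: `choose_self`, `w^0 = 1`, `M^(k-1) ≠ 0`. -/

open Polynomial MP_570bef_ntF MP_1ad228_ntD

namespace MP_570bef_ntG

variable {K : Type} [Field K]

theorem lam_eq (k : ℕ) (M w y : K[X]) : M * gg k (lam k M w) y = (w + M * y) ^ k - w ^ k := by
  have h0 : Finset.Icc 1 k = Finset.Ico 1 (k + 1) := by
    ext x
    simp only [Finset.mem_Icc, Finset.mem_Ico]
    omega
  unfold gg lam
  rw [h0, Finset.sum_Ico_eq_sum_range, Nat.add_sub_cancel, add_comm w (M * y), add_pow,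
    Finset.sum_range_succ', Finset.mul_sum]
  simp only [pow_zero, Nat.sub_zero, Nat.choose_zero_right, Nat.cast_one, one_mul, mul_one,
    add_sub_cancel_right]
  refine Finset.sum_congr rfl fun i _ => ?_
  rw [add_comm 1 i, Nat.add_sub_cancel, mul_pow, pow_succ M i]
  ring

theorem lam_deg (k n m E j : ℕ) (M w : K[X]) (hw : w.natDegree ≤ n) (hm : M.natDegree + m + 1 = n)
    (hE : M.natDegree + E + 1 = k * n) (h1 : 1 ≤ j) (hj : j ≤ k) :
    (lam k M w j).natDegree + j * m + j ≤ E + 1 := by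
  obtain ⟨i, rfl⟩ : ∃ i, j = i + 1 := ⟨j - 1, by omega⟩
  obtain ⟨t, rfl⟩ : ∃ t, k = i + 1 + t := ⟨k - (i + 1), by omega⟩
  have h2 : (lam (i + 1 + t) M w (i + 1)).natDegree ≤ t * n + i * M.natDegree := by
    unfold lam
    rw [Nat.add_sub_cancel_left, Nat.add_sub_cancel]
    refine natDegree_mul_le.trans (Nat.add_le_add ?_ natDegree_pow_le)
    refine natDegree_mul_le.trans ?_
    rw [natDegree_natCast, zero_add]
    exact natDegree_pow_le.trans (Nat.mul_le_mul_left t hw)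
  have h3 : (i + 1 + t) * n = t * n + i * n + n := by ring
  have h4 : i * n = i * M.natDegree + i * m + i := by rw [← hm]; ring
  have h5 : (i + 1) * m = i * m + m := by ring
  rw [h5]
  omega

theorem lam_gg_deg (k n m E : ℕ) (M w : K[X]) (hw : w.natDegree ≤ n) (hm : M.natDegree + m + 1 = n)
    (hE : M.natDegree + E + 1 = k * n) (y : K[X]) (hy : y.natDegree ≤ m) :
    (gg k (lam k M w) y).natDegree ≤ E := by
  refine gg_deg k m E (lam k M w) (fun j h1 hj => ?_) y hy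
  have h2 := lam_deg k n m E j M w hw hm hE h1 hj
  omega

theorem lam_pi {π : K[X]} (hπ : Irreducible π) (k : ℕ) (hk : 1 ≤ k) (hkK : (k : K) ≠ 0) (M w : K[X]) (hM : π ∣ M)
    (hw : ¬ π ∣ w) : ¬ π ∣ lam k M w 1 ∧ ∀ j, 2 ≤ j → j ≤ k → π ∣ lam k M w j := by
  have hp : Prime π := hπ.prime
  constructor
  · intro h
    unfold lam at h
    rw [Nat.choose_one_right, Nat.sub_self, pow_zero, mul_one] at h
    rcases hp.dvd_or_dvd h with h1 | h1
    · have h2 : IsUnit ((k : ℕ) : K[X]) := by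
        rw [← Polynomial.C_eq_natCast]
        exact Polynomial.isUnit_C.2 (IsUnit.mk0 _ hkK)
      exact hp.not_isUnit (isUnit_of_dvd_unit h1 h2)
    · exact hw (hp.dvd_of_dvd_pow h1)
  · intro j h2 _
    unfold lam
    exact Dvd.dvd.mul_left (dvd_pow hM (by omega)) _

theorem lam_inf (k n m E : ℕ) (hk : 1 ≤ k) (hkK : (k : K) ≠ 0) (M w : K[X]) (hw : w.natDegree ≤ n)
    (hc : w.coeff n ≠ 0) (hm : M.natDegree + m + 1 = n) (hE : M.natDegree + E + 1 = k * n) :
    lam k M w 1 ≠ 0 ∧ (lam k M w 1).natDegree + m = E := by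
  have hw0 : w ≠ 0 := by
    rintro rfl
    exact hc (Polynomial.coeff_zero n)
  have hwn : w.natDegree = n := le_antisymm hw (le_natDegree_of_ne_zero hc)
  have e : lam k M w 1 = C (k : K) * w ^ (k - 1) := by
    unfold lam
    rw [Nat.choose_one_right, Nat.sub_self, pow_zero, mul_one, Polynomial.C_eq_natCast]
  rw [e]
  refine ⟨mul_ne_zero (Polynomial.C_ne_zero.2 hkK) (pow_ne_zero _ hw0), ?_⟩
  rw [Polynomial.natDegree_C_mul hkK, natDegree_pow, hwn]
  obtain ⟨t, rfl⟩ : ∃ t, k = t + 1 := ⟨k - 1, by omega⟩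
  rw [Nat.add_sub_cancel]
  have h3 : (t + 1) * n = t * n + n := by ring
  omega

theorem lam_top (k : ℕ) (M w : K[X]) (hM : M ≠ 0) : lam k M w k ≠ 0 := by
  unfold lam
  rw [Nat.choose_self, Nat.sub_self, pow_zero, Nat.cast_one, one_mul, one_mul]
  exact pow_ne_zero _ hM

end MP_570bef_ntG
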