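import Pool.Agent.Lib.MP_570bef_ntG.Bas
import Pool.Agent.Lib.MP_570bef_ntF.SqD

/-! JOB PrM.  The product `MR K R` of all monic irreducible polynomials of degree at most `R`.  `q = card K ≥ 2`.

`MR_monic`: `Polynomial.monic_prod_of_monic`.
`MR_dvd`: `ρ` irreducible of degree `≤ R`; `ρ' := C (leadingCoeff ρ)⁻¹ * ρ` is monic irreducible of the same degree (`Polynomial.normalize`/`Polynomial.monic_mul_leadingCoeff_inv`, associated), so `ρ' ∈ PR K R`, `ρ ∣ ρ' ∣ MR` (`Finset.dvd_prod_of_mem`).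
`MR_irr`: `ρ` irreducible so prime, `Prime.dvd_finset_prod_iff` : `ρ ∣ π` for some `π ∈ PR K R`; `natDegree ρ ≤ natDegree π ≤ R`.
`card_PR_le`: `PR K R ⊆ ⋃_{d ≤ R} MM K d` (`mem_MM`, `card_MM : (MM K j).card = q^j`), `∑_{d ≤ R} q^d ≤ 2 q^R` (geometric sum, `q ≥ 2`, induction).
`MR_deg`: `natDegree_prod_of_monic`: `= ∑_{π ∈ PR} natDegree π ≤ card (PR) * R ≤ 2 q^R R`.
`dvd_of_PR`: distinct monic irreducible polynomials are coprime (as `Crt_cop` in MP_1ad228_ntD/Crt.lean); `Finset.prod_dvd_of_coprime`. -/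

open Polynomial MP_570bef_ntF MP_1ad228_ntD

namespace MP_570bef_ntG

variable {K : Type} [Field K] [Fintype K]

theorem MR_monic (R : ℕ) : (MR K R).Monic :=
  monic_prod_of_monic _ _ (fun _ hπ => (mem_PR.1 hπ).2.2)

theorem MR_dvd {R : ℕ} {ρ : K[X]} (hρ : Irreducible ρ) (h : ρ.natDegree ≤ R) : ρ ∣ MR K R := by
  have hu : IsUnit (C (ρ.leadingCoeff)⁻¹ : K[X]) := by
    rw [isUnit_C]
    exact isUnit_iff_ne_zero.2 (inv_ne_zero (leadingCoeff_ne_zero.2 hρ.ne_zero))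
  have ha : Associated (ρ * C (ρ.leadingCoeff)⁻¹) ρ := associated_mul_unit_left _ _ hu
  have hmem : ρ * C (ρ.leadingCoeff)⁻¹ ∈ PR K R := by
    rw [mem_PR]
    refine ⟨?_, ha.symm.irreducible hρ, monic_mul_leadingCoeff_inv hρ.ne_zero⟩
    refine (natDegree_mul_C_le _ _).trans h
  exact ha.symm.dvd.trans (Finset.dvd_prod_of_mem (fun π => π) hmem)

theorem MR_irr {R : ℕ} {ρ : K[X]} (hρ : Irreducible ρ) (h : ρ ∣ MR K R) : ρ.natDegree ≤ R := by
  obtain ⟨π, hπ, hd⟩ := (Prime.dvd_finsetProd_iff hρ.prime _).1 h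
  have h1 := mem_PR.1 hπ
  exact (natDegree_le_of_dvd hd h1.2.1.ne_zero).trans h1.1

private theorem PrM_sum (q : ℕ) (hq : 2 ≤ q) (R : ℕ) : ∑ d ∈ Finset.range (R + 1), q ^ d ≤ 2 * q ^ R := by
  induction R with
  | zero => simp
  | succ R ih =>
    rw [Finset.sum_range_succ]
    have h1 : 2 * q ^ R ≤ q ^ (R + 1) := by
      rw [pow_succ, mul_comm]
      exact Nat.mul_le_mul_left _ hq
    omega

theorem card_PR_le (R : ℕ) : (PR K R).card ≤ 2 * Fintype.card K ^ R := by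
  classical
  have h1 : PR K R ⊆ (Finset.range (R + 1)).biUnion (fun d => MM K d) := by
    intro π hπ
    have h2 := mem_PR.1 hπ
    rw [Finset.mem_biUnion]
    exact ⟨π.natDegree, Finset.mem_range.2 (by omega), mem_MM.2 ⟨h2.2.2, rfl⟩⟩
  refine (Finset.card_le_card h1).trans (Finset.card_biUnion_le.trans ?_)
  have h2 : ∑ d ∈ Finset.range (R + 1), (MM K d).card = ∑ d ∈ Finset.range (R + 1), Fintype.card K ^ d :=
    Finset.sum_congr rfl fun d _ => card_MM d
  rw [h2]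
  exact PrM_sum _ two_le_q R

theorem MR_deg (R : ℕ) : (MR K R).natDegree ≤ 2 * R * Fintype.card K ^ R := by
  unfold MR
  rw [natDegree_prod_of_monic _ _ (fun π hπ => (mem_PR.1 hπ).2.2)]
  refine (Finset.sum_le_card_nsmul _ _ R (fun π hπ => (mem_PR.1 hπ).1)).trans ?_
  rw [smul_eq_mul]
  calc (PR K R).card * R ≤ (2 * Fintype.card K ^ R) * R := Nat.mul_le_mul_right _ (card_PR_le R)
    _ = 2 * R * Fintype.card K ^ R := by ring

theorem dvd_of_PR (R : ℕ) (H : K[X]) (h : ∀ π ∈ PR K R, π ∣ H) : MR K R ∣ H := by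
  refine Finset.prod_dvd_of_coprime ?_ h
  intro π hπ π' hπ' hne
  have h1 := mem_PR.1 (Finset.mem_coe.1 hπ)
  have h2 := mem_PR.1 (Finset.mem_coe.1 hπ')
  rcases EuclideanDomain.dvd_or_coprime π π' h1.2.1 with hd | hc
  · exact absurd (eq_of_monic_of_associated h1.2.2 h2.2.2 (h1.2.1.associated_of_dvd h2.2.1 hd)) hne
  · exact hc

/-- number of monic irreducible polynomials of degree exactly `d` -/
theorem card_irr_le (d : ℕ) (S : Finset K[X]) (hS : ∀ v ∈ S, v.Monic ∧ v.natDegree = d) :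
    S.card ≤ Fintype.card K ^ d := by
  rw [← card_MM]
  exact Finset.card_le_card fun v hv => mem_MM.2 (hS v hv)

end MP_570bef_ntG
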