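import Pool.Agent.Lib.MP_570bef_ntG.Var
import Pool.Agent.Lib.MP_570bef_ntG.LamA
import Pool.Agent.Lib.MP_570bef_ntG.PrM
import Pool.Agent.Lib.MP_1ad228_ntD.Ct
import Pool.Agent.Lib.MP_570bef_ntF.CFc

/-! JOB ClsB.  Number of exceptions in the class of `F0`.  `M := MR K R` (monic, `MR_monic`), `μ := natDegree M`, `S(F) := ∑_i w_i^k - F`.

For `F ∈ X`: `M ∣ S(F)` (`L.hF : M ∣ S(F0)` and `M ∣ F - F0`); let `G F` be a polynomial with `M * G F = S(F)` (choose it: a function on `K[X]`, e.g. `G F := S(F) /ₘ M`).  `natDegree S(F) ≤ k n` and its coefficient of index `k n` is `0` (`L.hF'`, `F.coeff = F0.coeff`), so `natDegree (G F) ≤ k n - 1 - μ = E`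
(if `G F ≠ 0`: `natDegree S(F) = μ + natDegree (G F) < k n`; `natDegree_lt_iff..`/`natDegree S(F) ≠ k n` because the leading coefficient is not `0`).  `F ↦ G F` is injective on `X` (`F = ∑ w_i^k - M * G F`).
`c = 0`: `ψ (lin 0 G) * pro (lin 0) = 1` (`lin_zero`; every `fs ψ k _ m (lin 0) = q^(m+1)`: `card_SS`).  All `c`: `univ = {0} ∪ LW K E g ∪ HW K E g`, disjoint (`exists_rho`; rank of `lin 0` is `0`: `rho_zero`, `rho_unique`; a nonzero `c` of rank `≤ g` is in `LW`).
`∑_{all c} ψ(lin c (G F)) pro (lin c) = (q^(m+1))^(-(k+1)) q^(E+1) * #{y ∈ (SS K m)^(k+1) : G F + ∑ gg_i (y_i) = 0}` by `count_sys` (`l i := lam k M (w i)`, `m i := m`, `hdeg` from `lam_deg`; `pro = ∏ fs / (q^(m+1))^(k+1)`: `Finset.prod_div_distrib`).  This number is `0`: for such a `y` put `x_i := w_i + M y_i`,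
`natDegree x_i ≤ n` (`μ + m + 1 = n`) and `∑ x_i^k = ∑ w_i^k + M ∑ gg_i (y_i) = ∑ w_i^k - M (G F) = F` (`lam_eq`), contradicting that `F` is not a sum.
So `1 + LowSum + HighSum = 0`, `‖HighSum(G F)‖ ≥ 1 - 1/4 = 3/4` (`hlow`).  `few_large` with `Z := X.image G`, `S := HW K E g`, `a c := pro (lin c)`; `card Z = card X`. -/

open Polynomial MP_570bef_ntF MP_1ad228_ntD

namespace MP_570bef_ntG

variable {K : Type} [Field K] [Fintype K]

omit [Fintype K] in
private theorem ClsB_natDegree {k n : ℕ} {w : Fin (k + 1) → K[X]} (hw : ∀ i, (w i).natDegree ≤ n) {F : K[X]}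
    (hF : F.natDegree ≤ k * n) : ((∑ i, w i ^ k) - F).natDegree ≤ k * n := by
  refine (natDegree_sub_le _ _).trans (max_le ?_ hF)
  refine natDegree_sum_le_of_forall_le _ _ fun i _ => ?_
  exact natDegree_pow_le.trans (Nat.mul_le_mul_left k (hw i))

omit [Fintype K] in
private theorem ClsB_deg {M G S : K[X]} (hM : M.Monic) (h : M * G = S) {N E : ℕ} (hS : S.natDegree ≤ N)
    (hc : S.coeff N = 0) (hE : M.natDegree + E + 1 = N) : G.natDegree ≤ E := by
  by_cases hG : G = 0
  · rw [hG, natDegree_zero]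
    exact Nat.zero_le _
  have h1 : (M * G).natDegree = M.natDegree + G.natDegree := natDegree_mul hM.ne_zero hG
  rw [h] at h1
  have hS0 : S ≠ 0 := by
    rw [← h]
    exact mul_ne_zero hM.ne_zero hG
  have h2 : S.natDegree ≠ N := by
    intro hN
    apply hS0
    rw [← leadingCoeff_eq_zero]
    show S.coeff S.natDegree = 0
    rw [hN]
    exact hc
  omega

private theorem ClsB_fs0 (ψ : AddChar K ℂ) (k : ℕ) (l : ℕ → K[X]) (m E : ℕ) :
    fs ψ k l m (lin (0 : Fin (E + 1) → K)) = (Fintype.card K : ℂ) ^ (m + 1) := by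
  unfold fs
  have h1 : ∀ y ∈ SS K m, ψ (lin (0 : Fin (E + 1) → K) (gg k l y)) = 1 := by
    intro y _
    rw [lin_zero, AddChar.map_zero_eq_one]
  rw [Finset.sum_congr rfl h1, Finset.sum_const, card_SS, nsmul_eq_mul, mul_one]
  push_cast
  rfl

private theorem ClsB_q : (Fintype.card K : ℂ) ≠ 0 := by
  have := two_le_q (K := K)
  exact_mod_cast (by omega : Fintype.card K ≠ 0)

private theorem ClsB_pro0 (ψ : AddChar K ℂ) (k m E : ℕ) (M : K[X]) (w : Fin (k + 1) → K[X]) :
    pro ψ k m M w (lin (0 : Fin (E + 1) → K)) = 1 := by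
  unfold pro
  refine Finset.prod_eq_one fun i _ => ?_
  rw [ClsB_fs0]
  exact div_self (pow_ne_zero _ ClsB_q)

private theorem ClsB_split {E g : ℕ} (f : (Fin (E + 1) → K) → ℂ) :
    ∑ c : Fin (E + 1) → K, f c = f 0 + ∑ c ∈ LW K E g, f c + ∑ c ∈ HW K E g, f c := by
  classical
  have h0 : (0 : Fin (E + 1) → K) ∉ LW K E g := by
    intro h
    exact (mem_LW.1 h).1 rfl
  have hz : IsRho (lin (0 : Fin (E + 1) → K)) E 0 := by
    refine rho_zero.2 fun F _ => ?_
    exact lin_zero F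
  have hc : (HW K E g)ᶜ = insert 0 (LW K E g) := by
    ext c
    rw [Finset.mem_compl, Finset.mem_insert]
    obtain ⟨r, -, hr⟩ := exists_rho (lin c) E
    constructor
    · intro h
      by_cases h1 : c = 0
      · exact Or.inl h1
      · refine Or.inr (mem_LW.2 ⟨h1, r, ?_, hr⟩)
        by_contra h2
        exact h (mem_HW.2 ⟨r, by omega, hr⟩)
    · intro h h1
      obtain ⟨r', hr', hr2⟩ := mem_HW.1 h1
      rcases h with h | h
      · subst h
        have := rho_unique hz hr2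
        omega
      · obtain ⟨_, r'', hr'', hr3⟩ := mem_LW.1 h
        have := rho_unique hr3 hr2
        omega
  rw [← Finset.sum_compl_add_sum (HW K E g) f, hc, Finset.sum_insert h0]

private theorem ClsB_zero {ψ : AddChar K ℂ} (hψ : ψ ≠ 1) (k n m E : ℕ) (M : K[X])
    (w : Fin (k + 1) → K[X]) (hw : ∀ i, (w i).natDegree ≤ n) (hm : M.natDegree + m + 1 = n)
    (hE : M.natDegree + E + 1 = k * n) (F G : K[X]) (hG : G.natDegree ≤ E) (hMG : M * G = (∑ i, w i ^ k) - F)
    (hF : ¬ ∃ x : Fin (k + 1) → K[X], (∀ i, (x i).natDegree ≤ n) ∧ ∑ i, x i ^ k = F) :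
    ∑ c : Fin (E + 1) → K, ψ (lin c G) * pro ψ k m M w (lin c) = 0 := by
  classical
  have h1 := count_sys hψ (k + 1) k E (fun i => lam k M (w i)) (fun _ => m)
    (fun i j h1 hj => by
      have := lam_deg k n m E j M (w i) (hw i) hm hE h1 hj
      show (lam k M (w i) j).natDegree + j * m ≤ E
      omega) G hG
  have h2 : ((Fintype.piFinset (fun _ : Fin (k + 1) => SS K m)).filter
      (fun y => G + ∑ i, gg k (lam k M (w i)) (y i) = 0)) = ∅ := by
    rw [Finset.filter_eq_empty_iff]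
    intro y hy h3
    rw [Fintype.mem_piFinset] at hy
    apply hF
    refine ⟨fun i => w i + M * y i, fun i => ?_, ?_⟩
    · refine (natDegree_add_le _ _).trans (max_le (hw i) ?_)
      have h4 := natDegree_mul_le (p := M) (q := y i)
      have h5 := mem_SS.1 (hy i)
      omega
    · have h4 : ∀ i, (w i + M * y i) ^ k = w i ^ k + M * gg k (lam k M (w i)) (y i) := by
        intro i
        rw [lam_eq]
        ring
      rw [Finset.sum_congr rfl fun i _ => h4 i, Finset.sum_add_distrib, ← Finset.mul_sum]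
      have h5 : ∑ i, gg k (lam k M (w i)) (y i) = -G := by
        linear_combination h3
      rw [h5]
      linear_combination (-1 : K[X]) * hMG
  rw [h2, Finset.card_empty, Nat.cast_zero, mul_zero] at h1
  have h3 : ∀ c : Fin (E + 1) → K, ψ (lin c G) * pro ψ k m M w (lin c) =
      (((Fintype.card K : ℂ) ^ (m + 1)) ^ (k + 1))⁻¹ * (ψ (lin c G) * ∏ i, fs ψ k (lam k M (w i)) m (lin c)) := by
    intro c
    unfold pro
    rw [Finset.prod_div_distrib, Finset.prod_const, Finset.card_univ, Fintype.card_fin]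
    rw [div_eq_mul_inv]
    ring
  rw [Finset.sum_congr rfl fun c _ => h3 c, ← Finset.mul_sum, h1, mul_zero]

theorem class_bound {ψ : AddChar K ℂ} (hψ : ψ ≠ 1) (k n m E R g : ℕ) (F0 : K[X])
    (L : Loc k n (MR K R) F0) (hm : (MR K R).natDegree + m + 1 = n) (hE : (MR K R).natDegree + E + 1 = k * n)
    (X : Finset K[X])
    (hX : ∀ F ∈ X, F.natDegree ≤ k * n ∧ MR K R ∣ F - F0 ∧ F.coeff (k * n) = F0.coeff (k * n) ∧
      ¬ ∃ x : Fin (k + 1) → K[X], (∀ i, (x i).natDegree ≤ n) ∧ ∑ i, x i ^ k = F)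
    (hlow : ∀ F ∈ X, ∀ G : K[X], MR K R * G = (∑ i, L.w i ^ k) - F → G.natDegree ≤ E →
      ‖∑ c ∈ LW K E g, ψ (lin c G) * pro ψ k m (MR K R) L.w (lin c)‖ ≤ 1 / 4) :
    (X.card : ℝ) ≤ 2 * (Fintype.card K : ℝ) ^ (E + 1) *
      ∑ c ∈ HW K E g, ‖pro ψ k m (MR K R) L.w (lin c)‖ ^ 2 := by
  classical
  have hMM : (MR K R).Monic := MR_monic R
  let G : K[X] → K[X] := fun F => ((∑ i, L.w i ^ k) - F) /ₘ MR K R
  have hMG : ∀ F ∈ X, MR K R * G F = (∑ i, L.w i ^ k) - F := by
    intro F hF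
    have h1 : MR K R ∣ (∑ i, L.w i ^ k) - F := by
      have h2 := dvd_sub L.hF (hX F hF).2.1
      have h3 : (∑ i, L.w i ^ k) - F0 - (F - F0) = (∑ i, L.w i ^ k) - F := by
        ring
      rwa [h3] at h2
    have h2 := modByMonic_add_div ((∑ i, L.w i ^ k) - F) (MR K R)
    rw [(modByMonic_eq_zero_iff_dvd hMM).2 h1, zero_add] at h2
    exact h2
  have hGE : ∀ F ∈ X, (G F).natDegree ≤ E := by
    intro F hF
    obtain ⟨h1, -, h3, -⟩ := hX F hF
    refine ClsB_deg hMM (hMG F hF) (ClsB_natDegree L.hw h1) ?_ hE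
    rw [coeff_sub, L.hF', h3, sub_self]
  have hinj : Set.InjOn G X := by
    intro F hF F' hF' h
    have h1 := hMG F hF
    have h2 := hMG F' hF'
    rw [h, h2] at h1
    linear_combination h1
  have hcard : (X.image G).card = X.card := Finset.card_image_of_injOn hinj
  have key := few_large hψ E (HW K E g) (fun c => pro ψ k m (MR K R) L.w (lin c)) (X.image G)
    (fun H hH => by
      obtain ⟨F, hF, rfl⟩ := Finset.mem_image.1 hH
      exact mem_SS.2 (hGE F hF))
    (fun H hH => by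
      obtain ⟨F, hF, rfl⟩ := Finset.mem_image.1 hH
      have h1 := ClsB_zero hψ k n m E (MR K R) L.w L.hw hm hE F (G F) (hGE F hF) (hMG F hF) (hX F hF).2.2.2
      rw [ClsB_split (g := g), ClsB_pro0, lin_zero, AddChar.map_zero_eq_one, mul_one] at h1
      have h2 := hlow F hF (G F) (hMG F hF) (hGE F hF)
      have h3 : ∑ c ∈ HW K E g, ψ (lin c (G F)) * pro ψ k m (MR K R) L.w (lin c) =
          -(1 + ∑ c ∈ LW K E g, ψ (lin c (G F)) * pro ψ k m (MR K R) L.w (lin c)) := by
        linear_combination h1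
      rw [h3, norm_neg]
      have h4 := norm_sub_norm_le (1 : ℂ) (-(∑ c ∈ LW K E g, ψ (lin c (G F)) * pro ψ k m (MR K R) L.w (lin c)))
      rw [norm_neg, norm_one, sub_neg_eq_add] at h4
      linarith)
  rw [hcard] at key
  exact key

end MP_570bef_ntG
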