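import Pool.Agent.Lib.MP_570bef_ntG.Bas

/-! JOB ClsG.  Sum over the classes: `(F mod M, coefficient of index D)`.

The map `cls F := (F %ₘ M, F.coeff D)` sends `X` into `RR K (natDegree M) ×ˢ univ` (`mod_mem_RR`), which has `q^μ * q` elements (`card_RR`).  `F, F0` have the same class iff `M ∣ F - F0` (`RR_mod`, `RR_eq`) and equal coefficients.
`card X = ∑_{z ∈ image} card (fibre z)` (`Finset.card_eq_sum_card_image` or `card_eq_sum_card_fiberwise`), every fibre over `z = cls F0`, `F0 ∈ X`, has at most `B` elements (`hB F0`), so `card X ≤ B * card (image) ≤ B q^(μ+1)` (`0 ≤ B`). -/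

open Polynomial MP_570bef_ntF MP_1ad228_ntD

namespace MP_570bef_ntG

variable {K : Type} [Field K] [Fintype K]

open Classical in
theorem class_sum (M : K[X]) (hM : M.Monic) (D : ℕ) (X : Finset K[X]) (B : ℝ) (hB0 : 0 ≤ B)
    (hB : ∀ F0 ∈ X, ((X.filter (fun F => M ∣ F - F0 ∧ F.coeff D = F0.coeff D)).card : ℝ) ≤ B) :
    (X.card : ℝ) ≤ B * (Fintype.card K : ℝ) ^ (M.natDegree + 1) := by
  set cls : K[X] → K[X] × K := fun F => (F %ₘ M, F.coeff D) with hcls
  have hmaps : ∀ F ∈ X, cls F ∈ (RR K M.natDegree) ×ˢ (Finset.univ : Finset K) := by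
    intro F _
    rw [Finset.mem_product]
    exact ⟨mod_mem_RR hM F, Finset.mem_univ _⟩
  have h1 : X.card = ∑ z ∈ X.image cls, (X.filter (fun F => cls F = z)).card :=
    Finset.card_eq_sum_card_image cls X
  have h2 : ∀ z ∈ X.image cls, ((X.filter (fun F => cls F = z)).card : ℝ) ≤ B := by
    intro z hz
    rw [Finset.mem_image] at hz
    obtain ⟨F0, hF0, rfl⟩ := hz
    refine le_trans ?_ (hB F0 hF0)
    have h3 : (X.filter (fun F => cls F = cls F0)).card ≤
        (X.filter (fun F => M ∣ F - F0 ∧ F.coeff D = F0.coeff D)).card := by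
      refine Finset.card_le_card fun F hF => ?_
      rw [Finset.mem_filter] at hF ⊢
      obtain ⟨hF1, hF2⟩ := hF
      rw [hcls] at hF2
      have h4 := Prod.mk.inj hF2
      refine ⟨hF1, ?_, h4.2⟩
      have h5 := RR_mod hM F
      have h6 := RR_mod hM F0
      rw [h4.1] at h5
      have h7 := dvd_sub h5 h6
      have e : F - F0 %ₘ M - (F0 - F0 %ₘ M) = F - F0 := by ring
      rw [e] at h7
      exact h7
    exact_mod_cast h3
  have h5 : (X.image cls).card ≤ Fintype.card K ^ (M.natDegree + 1) := by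
    calc (X.image cls).card ≤ ((RR K M.natDegree) ×ˢ (Finset.univ : Finset K)).card :=
          Finset.card_le_card (by
            intro z hz
            rw [Finset.mem_image] at hz
            obtain ⟨F, hF, rfl⟩ := hz
            exact hmaps F hF)
      _ = Fintype.card K ^ (M.natDegree + 1) := by
          rw [Finset.card_product, card_RR, Finset.card_univ, pow_succ]
  calc (X.card : ℝ) = ∑ z ∈ X.image cls, ((X.filter (fun F => cls F = z)).card : ℝ) := by
        exact_mod_cast h1
    _ ≤ ∑ z ∈ X.image cls, B := Finset.sum_le_sum h2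
    _ = ((X.image cls).card : ℝ) * B := by rw [Finset.sum_const, nsmul_eq_mul]
    _ ≤ ((Fintype.card K ^ (M.natDegree + 1) : ℕ) : ℝ) * B :=
        mul_le_mul_of_nonneg_right (by exact_mod_cast h5) hB0
    _ = B * (Fintype.card K : ℝ) ^ (M.natDegree + 1) := by push_cast; ring

end MP_570bef_ntG
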