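import Pool.Agent.Lib.MP_570bef_ntG.LocG
import Pool.Agent.Lib.MP_570bef_ntG.PrM
import Pool.Agent.Lib.MP_1ad228_ntD.Crt

/-! JOB DatG.  Existence of the local data of a class.  `M := MR K R`, `μ := natDegree M < n`.

For `π ∈ PR K R` choose `u^π : Fin (k+1) → K[X]` by `loc_pi` (for `F0`); choose `v : Fin (k+1) → K` by `loc_inf` for `φ := F0.coeff (k * n)`.  For every `i` `crt` (`P := PR K R`; `∏ π ∈ PR K R, π = MR K R` by definition) gives `w0 i` with `natDegree (w0 i) ≤ μ` and `π ∣ w0 i - u^π i` for `π ∈ PR K R`.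
`w i := w0 i + M * C (v i) * X ^ (n - μ)`.
`hw`: `natDegree (M * C v * X^(n-μ)) ≤ μ + 0 + (n - μ) = n` (compare `w_deg` in MP_1ad228_ntD/DgW.lean).
`(w i).coeff n = v i` (compare `w_coeff` in DgW): `w0 i` has degree `≤ μ < n`, `coeff_mul_X_pow'`, `coeff_mul_C`, `M.coeff μ = 1`.
`hF'`: `(∑ w_i^k).coeff (k * n) = ∑ (w_i.coeff n)^k` (`Polynomial.coeff_pow_of_natDegree_le`) `= ∑ v_i^k = F0.coeff (k*n)`.
`hF`: `dvd_of_PR`: for `π ∈ PR K R`: `π ∣ M`, so `π ∣ w i - u^π i`, `π ∣ w_i^k - (u^π_i)^k` (`sub_dvd_pow_sub_pow`), sum over `i`, plus `π ∣ ∑ (u^π_i)^k - F0`.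
`hpi`: `π` irreducible, `π ∣ M`; `Prime.dvd_finset_prod_iff`: `π ∣ π'`, `π' ∈ PR K R`, so `π' ∣ π` (`Irreducible.dvd_symm`/associated); there is `i` with `¬ π' ∣ u^{π'}_i`; if `π ∣ w i` then `π' ∣ w i` so `π' ∣ u^{π'} i`, contradiction.
`hinf`: `(w i).coeff n = v i ≠ 0` for some `i`. -/

open Polynomial MP_570bef_ntF MP_1ad228_ntD

namespace MP_570bef_ntG

variable {K : Type} [Field K] [Fintype K]

theorem exists_loc (k n R : ℕ) (hk : 2 ≤ k) (hq : 16 * k ^ 6 ≤ Fintype.card K) (hn : (MR K R).natDegree < n)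
    (F0 : K[X]) : Nonempty (Loc k n (MR K R) F0) := by
  classical
  have hP : ∀ π ∈ PR K R, Irreducible π ∧ π.Monic := fun π hπ => (mem_PR.1 hπ).2
  have h1 : ∀ π : K[X], ∃ u : Fin (k + 1) → K[X], Irreducible π →
      ((∃ i, ¬ π ∣ u i) ∧ π ∣ (∑ i, u i ^ k) - F0) := by
    intro π
    by_cases hπ : Irreducible π
    · obtain ⟨u, hu⟩ := loc_pi k hk hq π F0 hπ
      exact ⟨u, fun _ => hu⟩
    · exact ⟨0, fun h => absurd h hπ⟩
  choose u hu using h1
  obtain ⟨v, hv1, hv2⟩ := loc_inf k hk hq (F0.coeff (k * n))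
  choose w0 hw0 hw1 using fun i : Fin (k + 1) => crt (PR K R) hP (fun π => u π i)
  have hM : (MR K R).Monic := MR_monic R
  have hw0' : ∀ i, (w0 i).natDegree ≤ (MR K R).natDegree := hw0
  set w : Fin (k + 1) → K[X] := fun i =>
    w0 i + MR K R * (C (v i) * X ^ (n - (MR K R).natDegree)) with hw
  have hdeg : ∀ i, (w i).natDegree ≤ n := by
    intro i
    refine (natDegree_add_le _ _).trans (max_le (by have := hw0' i; omega) ?_)
    refine natDegree_mul_le.trans ?_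
    have h2 := natDegree_C_mul_X_pow_le (v i) (n - (MR K R).natDegree)
    omega
  have hco : ∀ i, (w i).coeff n = v i := by
    intro i
    have h2 : MR K R * (C (v i) * X ^ (n - (MR K R).natDegree)) =
        C (v i) * (MR K R * X ^ (n - (MR K R).natDegree)) := by ring
    show (w0 i + MR K R * (C (v i) * X ^ (n - (MR K R).natDegree))).coeff n = v i
    rw [h2, coeff_add, coeff_eq_zero_of_natDegree_lt (by have := hw0' i; omega), zero_add, coeff_C_mul,
      coeff_mul_X_pow', if_pos (by omega)]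
    have h3 : n - (n - (MR K R).natDegree) = (MR K R).natDegree := by omega
    rw [h3, hM.coeff_natDegree, mul_one]
  have hdv : ∀ π ∈ PR K R, ∀ i, π ∣ w i - u π i := by
    intro π hπ i
    have h2 : w i - u π i = (w0 i - u π i) + MR K R * (C (v i) * X ^ (n - (MR K R).natDegree)) := by
      rw [hw]
      ring
    rw [h2]
    exact dvd_add (hw1 i π hπ) (Dvd.dvd.mul_right (MR_dvd (hP π hπ).1 (mem_PR.1 hπ).1) _)
  refine ⟨⟨w, hdeg, ?_, ?_, ?_, ?_⟩⟩
  · refine dvd_of_PR R _ fun π hπ => ?_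
    have h2 : (∑ i, w i ^ k) - F0 = (∑ i, (w i ^ k - u π i ^ k)) + ((∑ i, u π i ^ k) - F0) := by
      rw [Finset.sum_sub_distrib]
      ring
    rw [h2]
    refine dvd_add (Finset.dvd_sum fun i _ => ?_) (hu π (hP π hπ).1).2
    exact (hdv π hπ i).trans (sub_dvd_pow_sub_pow _ _ k)
  · rw [finsetSum_coeff, ← hv2]
    refine Finset.sum_congr rfl fun i _ => ?_
    rw [coeff_pow_of_natDegree_le (hdeg i), hco]
  · intro π hπ hd
    obtain ⟨π', hπ', hd'⟩ := (Prime.dvd_finsetProd_iff hπ.prime _).1 hd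
    have h2 : π' ∣ π := (hπ.associated_of_dvd (hP π' hπ').1 hd').symm.dvd
    obtain ⟨i, hi⟩ := (hu π' (hP π' hπ').1).1
    refine ⟨i, fun h3 => hi ?_⟩
    have h4 : π' ∣ w i := h2.trans h3
    have h5 := dvd_sub h4 (hdv π' hπ' i)
    rw [sub_sub_cancel] at h5
    exact h5
  · obtain ⟨i, hi⟩ := hv1
    refine ⟨i, ?_⟩
    rw [hco]
    exact hi

end MP_570bef_ntG
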