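import Pool.Agent.Lib.MP_1ad228_ntD.Defs

/-! Almost all polynomials are strict sums of `k + 1` `k`-th powers (MP_570bef_nt, stream G).  Definitions. -/

open Polynomial MP_570bef_ntF MP_1ad228_ntD

namespace MP_570bef_ntG

variable {K : Type} [Field K]

/-- coefficients of `((w + M y)^k - w^k) / M = ∑_{1 ≤ j ≤ k} lam_j y^j` -/
noncomputable def lam (k : ℕ) (M w : K[X]) (j : ℕ) : K[X] :=
  (k.choose j : K[X]) * w ^ (k - j) * M ^ (j - 1)

open Classical in
/-- monic irreducible polynomials of degree at most `R` -/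
noncomputable def PR (K : Type) [Field K] [Fintype K] (R : ℕ) : Finset K[X] :=
  (SS K R).filter (fun π => Irreducible π ∧ π.Monic)

/-- their product -/
noncomputable def MR (K : Type) [Field K] [Fintype K] (R : ℕ) : K[X] := ∏ π ∈ PR K R, π

open Classical in
/-- monic irreducible polynomials of degree in `(R, g]` -/
noncomputable def VR (K : Type) [Field K] [Fintype K] (R g : ℕ) : Finset K[X] :=
  (SS K g).filter (fun π => Irreducible π ∧ π.Monic ∧ R < π.natDegree)

/-- polynomials of degree smaller than `d` (representatives modulo a polynomial of degree `d`) -/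
noncomputable def RR (K : Type) [Field K] [Fintype K] : ℕ → Finset K[X]
  | 0 => {0}
  | d + 1 => SS K d

/-- local data of the class of `F0`: `w_i` with `M ∣ ∑ w_i^k - F0`, equal coefficients of `t^(k n)`, and at every
place in `M` and at infinity one of the `w_i` is a unit -/
structure Loc (k n : ℕ) (M F0 : K[X]) where
  w : Fin (k + 1) → K[X]
  hw : ∀ i, (w i).natDegree ≤ n
  hF : M ∣ (∑ i, w i ^ k) - F0
  hF' : (∑ i, w i ^ k).coeff (k * n) = F0.coeff (k * n)
  hpi : ∀ π : K[X], Irreducible π → π ∣ M → ∃ i, ¬ π ∣ w i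
  hinf : ∃ i, (w i).coeff n ≠ 0

open Classical in
/-- number of solutions of `∑ x_i^k ≡ F` modulo `b` in `s` variables -/
noncomputable def NB [Fintype K] (k s : ℕ) (b F : K[X]) : ℕ :=
  ((Fintype.piFinset (fun _ : Fin s => RR K b.natDegree)).filter (fun x => b ∣ (∑ i, x i ^ k) - F)).card

open Classical in
/-- nonsingular solutions modulo `v^e`: some `x_i` is not divisible by `v` -/
noncomputable def NSc [Fintype K] (k s : ℕ) (v : K[X]) (e : ℕ) (F : K[X]) : ℕ :=
  ((Fintype.piFinset (fun _ : Fin s => RR K (e * v.natDegree))).filter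
    (fun x => v ^ e ∣ (∑ i, x i ^ k) - F ∧ ∃ i, ¬ v ∣ x i)).card

open Classical in
/-- singular solutions modulo `v^e`: all `x_i` are divisible by `v` -/
noncomputable def SGc [Fintype K] (k s : ℕ) (v : K[X]) (e : ℕ) (F : K[X]) : ℕ :=
  ((Fintype.piFinset (fun _ : Fin s => RR K (e * v.natDegree))).filter
    (fun x => v ^ e ∣ (∑ i, x i ^ k) - F ∧ ∀ i, v ∣ x i)).card

/-- normalised number of solutions modulo `b` in `k + 1` variables -/
noncomputable def nu [Fintype K] (k : ℕ) (b F : K[X]) : ℝ :=
  (NB k (k + 1) b F : ℝ) / ((Fintype.card K : ℝ) ^ b.natDegree) ^ k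

open Classical in
/-- functionals on degree `≤ E` killed by `b` -/
noncomputable def CB [Fintype K] (E : ℕ) (b : K[X]) : Finset (Fin (E + 1) → K) :=
  Finset.univ.filter (fun c => Kill (lin c) E b b.natDegree)

open Classical in
/-- functionals on degree `≤ E` with minimal killing form `b`, of exact degree -/
noncomputable def CS [Fintype K] (E : ℕ) (b : K[X]) : Finset (Fin (E + 1) → K) :=
  Finset.univ.filter (fun c => Kill (lin c) E b b.natDegree ∧ IsRho (lin c) E b.natDegree)

open Classical in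
/-- nonzero functionals of rank at most `g` -/
noncomputable def LW (K : Type) [Field K] [Fintype K] (E g : ℕ) : Finset (Fin (E + 1) → K) :=
  Finset.univ.filter (fun c => c ≠ 0 ∧ ∃ r ≤ g, IsRho (lin c) E r)

open Classical in
/-- functionals of rank greater than `g` -/
noncomputable def HW (K : Type) [Field K] [Fintype K] (E g : ℕ) : Finset (Fin (E + 1) → K) :=
  Finset.univ.filter (fun c => ∃ r, g < r ∧ IsRho (lin c) E r)

open Classical in
/-- monic polynomials of degree between `1` and `g`, prime to `MR K R` -/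
noncomputable def GB (K : Type) [Field K] [Fintype K] (R g : ℕ) : Finset K[X] :=
  (SS K g).filter (fun b => b.Monic ∧ 1 ≤ b.natDegree ∧ IsCoprime b (MR K R))

open Classical in
/-- monic divisors -/
noncomputable def DV [Fintype K] (b : K[X]) : Finset K[X] :=
  (SS K b.natDegree).filter (fun d => d.Monic ∧ d ∣ b)

/-- normalised product of exponential sums -/
noncomputable def pro [Fintype K] (ψ : AddChar K ℂ) (k m : ℕ) (M : K[X]) (w : Fin (k + 1) → K[X])
    (A : K[X] →ₗ[K] K) : ℂ :=
  ∏ i, (fs ψ k (lam k M (w i)) m A / (Fintype.card K : ℂ) ^ (m + 1))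

/-- the sum over the functionals with minimal killing form `b` -/
noncomputable def ab [Fintype K] (ψ : AddChar K ℂ) (k m E : ℕ) (M G : K[X]) (w : Fin (k + 1) → K[X]) (b : K[X]) : ℂ :=
  ∑ c ∈ CS E b, ψ (lin c G) * pro ψ k m M w (lin c)

/-- constants -/
def D3 (k : ℕ) : ℕ := 2 * (2 * k ^ 2) ^ (k + 2)

/-- constants -/
def D4 (k : ℕ) : ℕ := D3 k + 3

/-- constants -/
def e0 (k : ℕ) : ℕ := 32 * D4 k

/-- constants -/
def eta (k : ℕ) : ℕ := k * 2 ^ (k + 3)

/-- constants -/
def D1 (k : ℕ) : ℕ := 4 * e0 k * eta k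

/-- lower bound for the number of elements of the field -/
def Q1 (k : ℕ) : ℕ := 16 * k ^ 6 + 4 ^ e0 k + (64 * D3 k) ^ 2 + 64 * D4 k * k * eta k +
  (2 ^ (4 * (k - 1) ^ 2) * C2 k ^ (2 ^ k)) ^ 4 + k ^ (2 ^ k) * k ^ 4 * C2 k ^ (2 ^ k)

open Classical in
/-- number of monic irreducible divisors of degree exactly `d` -/
noncomputable def om [Fintype K] (d : ℕ) (F : K[X]) : ℕ :=
  ((PR K d).filter (fun v => v.natDegree = d ∧ v ∣ F)).card

end MP_570bef_ntG
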