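import Pool.Agent.Lib.MP_570bef_ntG.Bas

/-! JOB EulB.  Euler product bound for a nonnegative multiplicative function.

`GV g V` = monic polynomials of degree `≤ g` all of whose irreducible factors divide an element of `V` (`V` a finite set of monic irreducible polynomials).
`euler_bound` by `Finset.induction_on V` (generalising nothing else; `hmul` for `insert v V` implies `hmul` for `V`).  `V = ∅`: such a `b` has no irreducible factor, so it is a unit, monic, `b = 1`: the sum is `≤ β 1 = 1`.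
Step `insert v V`, `v ∉ V`: for `b ∈ GV g (insert v V)` let `e` be the multiplicity of `v` (`b = v^e * b1`, `¬ v ∣ b1`: `exists_eq_pow_mul_and_not_dvd` with `FiniteMultiplicity` (`b ≠ 0`, `v` not a unit), or strong induction); `b1` is monic (`Monic.of_mul_monic_left`), `b1 ∈ GV g V`: an irreducible `π ∣ b1` divides an element
of `insert v V`; if `π ∣ v` then `v ∣ π ∣ b1` (irreducible, associated), impossible.  `e * natDegree v ≤ natDegree b ≤ g`, so `e ≤ g / natDegree v` (`natDegree v ≥ 1`).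
So `GV g (insert v V)` is contained in the image of the map `(e, b1) ↦ v^e * b1` on `(range (g / natDegree v + 1) ×ˢ GV g V)` restricted to pairs with `natDegree (v^e b1) ≤ g`, and `β (v^e b1) = β (v^e) * β b1` for these pairs (`e = 0`: `β 1 = 1`; `e ≥ 1`: `hmul`).
`∑_{b} β b ≤ ∑_{(e,b1)} β(v^e) β(b1) = (∑_{e ≤ g/deg v} β(v^e)) * ∑_{b1 ∈ GV g V} β b1` (`Finset.sum_le_sum_of_subset_of_nonneg`, `Finset.sum_image_le_of_nonneg`, or an injection), `β (v^0) = 1`: `= (1 + ∑_{e=1}^{g/deg v} β(v^e)) * ...`; induction hypothesis; `Finset.prod_insert`. -/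

open Polynomial MP_570bef_ntF MP_1ad228_ntD

namespace MP_570bef_ntG

variable {K : Type} [Field K] [Fintype K]

open Classical in
noncomputable def GV (g : ℕ) (V : Finset K[X]) : Finset K[X] :=
  (SS K g).filter (fun b => b.Monic ∧ ∀ π : K[X], Irreducible π → π ∣ b → ∃ v ∈ V, π ∣ v)

theorem EulB_mem {g : ℕ} {V : Finset K[X]} {b : K[X]} :
    b ∈ GV g V ↔ b.natDegree ≤ g ∧ b.Monic ∧ ∀ π : K[X], Irreducible π → π ∣ b → ∃ v ∈ V, π ∣ v := by
  classical
  unfold GV
  rw [Finset.mem_filter, mem_SS]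

omit [Fintype K] in
theorem EulB_one {b : K[X]} (hb : b.Monic) (h : ∀ π : K[X], Irreducible π → ¬ π ∣ b) : b = 1 := by
  by_contra h1
  have h2 : ¬ IsUnit b := fun hu => h1 (hb.eq_one_of_isUnit hu)
  obtain ⟨π, hπ, hd⟩ := WfDvdMonoid.exists_irreducible_factor h2 hb.ne_zero
  exact h π hπ hd

omit [Fintype K] in
/-- extraction of the exact power of `v` -/
theorem EulB_split {v b : K[X]} (hv : Irreducible v) (hvm : v.Monic) (hb : b.Monic) :
    ∃ (e : ℕ) (b1 : K[X]), b = v ^ e * b1 ∧ ¬ v ∣ b1 ∧ b1.Monic := by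
  have hf : FiniteMultiplicity v b := FiniteMultiplicity.of_not_isUnit hv.not_isUnit hb.ne_zero
  obtain ⟨b1, h1, h2⟩ := hf.exists_eq_pow_mul_and_not_dvd
  refine ⟨multiplicity v b, b1, h1, h2, ?_⟩
  rw [h1] at hb
  exact Monic.of_mul_monic_left (hvm.pow _) hb

theorem EulB_step (g : ℕ) (V : Finset K[X]) (v : K[X]) (hvi : Irreducible v) (hvm : v.Monic) {b : K[X]}
    [DecidableEq K[X]] (hb : b ∈ GV g (insert v V)) :
    ∃ (e : ℕ) (b1 : K[X]), b = v ^ e * b1 ∧ ¬ v ∣ b1 ∧ b1 ∈ GV g V ∧ e ≤ g / v.natDegree := by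
  rw [EulB_mem] at hb
  obtain ⟨hbg, hbm, hbp⟩ := hb
  obtain ⟨e, b1, h1, h2, h3⟩ := EulB_split hvi hvm hbm
  have hd : b.natDegree = e * v.natDegree + b1.natDegree := by
    rw [h1, (hvm.pow e).natDegree_mul h3, hvm.natDegree_pow]
  have hv1 : 0 < v.natDegree := hvi.natDegree_pos
  refine ⟨e, b1, h1, h2, ?_, ?_⟩
  · rw [EulB_mem]
    refine ⟨by omega, h3, ?_⟩
    intro π hπ hπb
    obtain ⟨u, hu, hπu⟩ := hbp π hπ (hπb.trans ⟨v ^ e, by rw [h1]; ring⟩)
    rw [Finset.mem_insert] at hu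
    rcases hu with hu | hu
    · exfalso
      rw [hu] at hπu
      exact h2 ((hπ.dvd_symm hvi hπu).trans hπb)
    · exact ⟨u, hu, hπu⟩
  · rw [Nat.le_div_iff_mul_le hv1]
    omega

theorem euler_bound (g : ℕ) (V : Finset K[X]) (hV : ∀ v ∈ V, Irreducible v ∧ v.Monic) (β : K[X] → ℝ)
    (h0 : ∀ b, 0 ≤ β b) (h1 : β 1 = 1)
    (hmul : ∀ v ∈ V, ∀ (e : ℕ) (b : K[X]), 1 ≤ e → b.Monic → ¬ v ∣ b → (v ^ e * b).natDegree ≤ g →
      (∀ π : K[X], Irreducible π → π ∣ b → ∃ u ∈ V, π ∣ u) → β (v ^ e * b) = β (v ^ e) * β b) :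
    ∑ b ∈ GV g V, β b ≤ ∏ v ∈ V, (1 + ∑ e ∈ Finset.Icc 1 (g / v.natDegree), β (v ^ e)) := by
  classical
  induction V using Finset.induction_on with
  | empty =>
    rw [Finset.prod_empty]
    have hsub : GV g (∅ : Finset K[X]) ⊆ {1} := by
      intro b hb
      rw [EulB_mem] at hb
      rw [Finset.mem_singleton]
      refine EulB_one hb.2.1 (fun π hπ hd => ?_)
      obtain ⟨v, hv, _⟩ := hb.2.2 π hπ hd
      exact absurd hv (Finset.notMem_empty v)
    refine (Finset.sum_le_sum_of_subset_of_nonneg hsub (fun b _ _ => h0 b)).trans ?_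
    rw [Finset.sum_singleton, h1]
  | insert v V hvV ih =>
    have hvi := (hV v (Finset.mem_insert_self v V)).1
    have hvm := (hV v (Finset.mem_insert_self v V)).2
    have ih' := ih (fun u hu => hV u (Finset.mem_insert_of_mem hu)) (by
      intro u hu e b he hb hub hdeg hfac
      refine hmul u (Finset.mem_insert_of_mem hu) e b he hb hub hdeg ?_
      intro π hπ hd
      obtain ⟨w, hw, hd2⟩ := hfac π hπ hd
      exact ⟨w, Finset.mem_insert_of_mem hw, hd2⟩)
    rw [Finset.prod_insert hvV]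
    have hpos : 0 ≤ 1 + ∑ e ∈ Finset.Icc 1 (g / v.natDegree), β (v ^ e) :=
      add_nonneg zero_le_one (Finset.sum_nonneg (fun e _ => h0 _))
    refine le_trans ?_ (mul_le_mul_of_nonneg_left ih' hpos)
    have e1 : 1 + ∑ e ∈ Finset.Icc 1 (g / v.natDegree), β (v ^ e) =
        ∑ e ∈ Finset.range (g / v.natDegree + 1), β (v ^ e) := by
      rw [Finset.sum_range_succ', pow_zero, h1, add_comm]
      congr 1
      rw [Finset.range_eq_Ico, Finset.sum_Ico_add' (fun e => β (v ^ e)) 0 (g / v.natDegree) 1]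
      rfl
    rw [e1, Finset.sum_mul_sum, ← Finset.sum_product']
    -- choose the splitting
    have hch : ∀ b : K[X], ∃ p : ℕ × K[X], b ∈ GV g (insert v V) →
        (b = v ^ p.1 * p.2 ∧ ¬ v ∣ p.2 ∧ p.2 ∈ GV g V ∧ p.1 ≤ g / v.natDegree) := by
      intro b
      by_cases hb : b ∈ GV g (insert v V)
      · obtain ⟨e, b1, h⟩ := EulB_step g V v hvi hvm hb
        exact ⟨(e, b1), fun _ => h⟩
      · exact ⟨(0, 0), fun h => absurd h hb⟩
    choose p hp using hch
    have hval : ∀ b ∈ GV g (insert v V), β b = β (v ^ (p b).1) * β (p b).2 := by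
      intro b hb
      obtain ⟨q1, q2, q3, q4⟩ := hp b hb
      rw [EulB_mem] at hb q3
      rcases Nat.eq_zero_or_pos (p b).1 with h | h
      · rw [h, pow_zero, one_mul] at q1
        rw [h, pow_zero, h1, one_mul, ← q1]
      · have h3 := hmul v (Finset.mem_insert_self v V) (p b).1 (p b).2 h q3.2.1 q2
          (by rw [← q1]; exact hb.1) (by
            intro π hπ hd
            obtain ⟨u, hu, hd2⟩ := q3.2.2 π hπ hd
            exact ⟨u, Finset.mem_insert_of_mem hu, hd2⟩)
        rw [← h3, ← q1]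
    rw [Finset.sum_congr rfl hval]
    have hinj : Set.InjOn p (GV g (insert v V) : Set K[X]) := by
      intro a ha b hb hab
      rw [(hp a ha).1, (hp b hb).1, hab]
    have e2 : ∑ b ∈ GV g (insert v V), β (v ^ (p b).1) * β (p b).2 =
        ∑ x ∈ (GV g (insert v V)).image p, β (v ^ x.1) * β x.2 := by
      rw [Finset.sum_image hinj]
    rw [e2]
    refine Finset.sum_le_sum_of_subset_of_nonneg ?_ (fun x _ _ => mul_nonneg (h0 _) (h0 _))
    intro x hx
    rw [Finset.mem_image] at hx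
    obtain ⟨b, hb, rfl⟩ := hx
    obtain ⟨_, _, q3, q4⟩ := hp b hb
    rw [Finset.mem_product, Finset.mem_range]
    exact ⟨Nat.lt_succ_of_le q4, q3⟩

end MP_570bef_ntG
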