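import Pool.Agent.Lib.MP_570bef_ntG.Bas

/-! JOB Fib.  Number of `y ∈ (SS K m)^s` with `∑ (w_i + M y_i)^k ≡ F (mod b)`, for `b` monic, prime to `M`, `d := natDegree b ≤ m + 1`.

`fib_one`: for every `x ∈ RR K d` the number of `y ∈ SS K m` with `b ∣ w + M y - x` is `q^(m+1-d)`: let `u M ≡ 1 (mod b)` (from `IsCoprime b M`), the condition is equivalent to `b ∣ y - u (x - w)`, i.e. `y = y0 + b z` with `y0 := (u (x-w)) %ₘ b ∈ RR K d` and `z` arbitrary with `y0 + b z ∈ SS K m`:
`z` of degree `< m + 1 - d`, i.e. `z ∈ RR K (m+1-d)` (`z ↦ y0 + b z` is a bijection onto the set; inverse `y ↦ y /ₘ b`; degrees: `degree_add_lt..`; if `d = m + 1`: `z = 0`).  `card_RR`.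
`count_fib`: sort the `y` by `x i := (w i + M * y i) %ₘ b ∈ RR K d`: `Finset.card_eq_sum_card_fiberwise` with the map into `piFinset (fun _ => RR K d)`: the fibre over `x` is empty unless `b ∣ ∑ x_i^k - F` (`(w_i + M y_i)^k ≡ x_i^k`, `sub_dvd_pow_sub_pow`), and otherwise it is the product
`∏_i {y ∈ SS K m | b ∣ w i + M y - x i}` (`piFinset` of filters; `Fintype.card_piFinset`; `(w+My) %ₘ b = x ↔ b ∣ w + M y - x` for `x ∈ RR K d`: `RR_eq`, `RR_mod`), of cardinality `(q^(m+1-d))^s`. -/

open Polynomial MP_570bef_ntF MP_1ad228_ntD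

namespace MP_570bef_ntG

variable {K : Type} [Field K] [Fintype K]

private theorem Fib_scale {b z : K[X]} (hb : b.Monic) {m : ℕ} (hbm : b.natDegree ≤ m + 1) :
    b * z ∈ RR K (m + 1) ↔ z ∈ RR K (m + 1 - b.natDegree) := by
  rw [mem_RR, mem_RR]
  by_cases hz : z = 0
  · subst hz
    rw [mul_zero, degree_zero]
    exact ⟨fun _ => WithBot.bot_lt_coe _, fun _ => WithBot.bot_lt_coe _⟩
  · have h1 : (b * z).natDegree = b.natDegree + z.natDegree := natDegree_mul hb.ne_zero hz
    rw [degree_eq_natDegree (mul_ne_zero hb.ne_zero hz), degree_eq_natDegree hz, h1]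
    constructor
    · intro h
      have h' : b.natDegree + z.natDegree < m + 1 := by exact_mod_cast h
      have h2 : z.natDegree < m + 1 - b.natDegree := by omega
      exact_mod_cast h2
    · intro h
      have h' : z.natDegree < m + 1 - b.natDegree := by exact_mod_cast h
      have h2 : b.natDegree + z.natDegree < m + 1 := by omega
      exact_mod_cast h2

private theorem Fib_mono {x : K[X]} {d e : ℕ} (hde : d ≤ e) (hx : x ∈ RR K d) : x ∈ RR K e := by
  rw [mem_RR] at *
  exact lt_of_lt_of_le hx (by exact_mod_cast hde)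

open Classical in
theorem fib_one (m : ℕ) (b w M x : K[X]) (hb : b.Monic) (hbm : b.natDegree ≤ m + 1) (hcop : IsCoprime b M) :
    ((SS K m).filter (fun y => b ∣ w + M * y - x)).card = Fintype.card K ^ (m + 1 - b.natDegree) := by
  obtain ⟨a, c, hac⟩ := hcop
  have hcop' : IsCoprime b M := ⟨a, c, hac⟩
  have hy0 := mod_mem_RR hb (c * (x - w))
  have hy0' := RR_mod hb (c * (x - w))
  generalize (c * (x - w)) %ₘ b = y0 at hy0 hy0'
  have hy0m : y0 ∈ RR K (m + 1) := Fib_mono hbm hy0
  have hcond : ∀ y : K[X], b ∣ w + M * y - x ↔ b ∣ y - y0 := by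
    intro y
    have e1 : w + M * y - x = M * (y - y0) - M * (c * (x - w) - y0) - a * (x - w) * b := by
      have : (x - w) = (a * b + c * M) * (x - w) := by rw [hac, one_mul]
      linear_combination -this
    constructor
    · intro h
      rw [e1] at h
      have h2 : b ∣ M * (y - y0) := by
        have h3 := dvd_add (dvd_add h (Dvd.intro_left (a * (x - w)) rfl)) (Dvd.dvd.mul_left hy0' M)
        have e2 : M * (y - y0) - M * (c * (x - w) - y0) - a * (x - w) * b + a * (x - w) * b +
          M * (c * (x - w) - y0) = M * (y - y0) := by ring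
        rwa [e2] at h3
      exact hcop'.dvd_of_dvd_mul_left h2
    · intro h
      rw [e1]
      exact dvd_sub (dvd_sub (Dvd.dvd.mul_left h M) (Dvd.dvd.mul_left hy0' M)) (Dvd.intro_left _ rfl)
  have himg : (SS K m).filter (fun y => b ∣ w + M * y - x) =
      (RR K (m + 1 - b.natDegree)).image (fun z => y0 + b * z) := by
    ext y
    rw [Finset.mem_filter, Finset.mem_image, hcond]
    constructor
    · rintro ⟨hy, z, hz⟩
      have hy' : y ∈ RR K (m + 1) := hy
      refine ⟨z, ?_, ?_⟩
      · rw [← Fib_scale hb hbm, ← hz]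
        exact RR_sub hy' hy0m
      · rw [← hz]; ring
    · rintro ⟨z, hz, rfl⟩
      refine ⟨?_, ⟨z, by ring⟩⟩
      rw [← Fib_scale hb hbm] at hz
      exact RR_add hy0m hz
  rw [himg, Finset.card_image_of_injective, card_RR]
  intro z z' h
  have h' : y0 + b * z = y0 + b * z' := h
  exact mul_left_cancel₀ hb.ne_zero (add_left_cancel h')

open Classical in
theorem count_fib (k s m : ℕ) (b M F : K[X]) (w : Fin s → K[X]) (hb : b.Monic) (hbm : b.natDegree ≤ m + 1)
    (hcop : IsCoprime b M) :
    ((Fintype.piFinset (fun _ : Fin s => SS K m)).filter (fun y => b ∣ (∑ i, (w i + M * y i) ^ k) - F)).card =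
      (Fintype.card K ^ (m + 1 - b.natDegree)) ^ s * NB k s b F := by
  have hpow : ∀ (z x : Fin s → K[X]), (∀ i, b ∣ z i - x i) → b ∣ (∑ i, z i ^ k) - ∑ i, x i ^ k := by
    intro z x h
    rw [← Finset.sum_sub_distrib]
    exact Finset.dvd_sum fun i _ => dvd_trans (h i) (sub_dvd_pow_sub_pow _ _ _)
  unfold NB
  rw [Finset.card_eq_sum_card_fiberwise (f := fun (y : Fin s → K[X]) (i : Fin s) => (w i + M * y i) %ₘ b)
    (t := (Fintype.piFinset (fun _ : Fin s => RR K b.natDegree)).filter (fun x => b ∣ (∑ i, x i ^ k) - F)),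
    Finset.sum_congr rfl (g := fun _ => (Fintype.card K ^ (m + 1 - b.natDegree)) ^ s), Finset.sum_const,
    smul_eq_mul, mul_comm]
  · intro x hx
    rw [Finset.mem_filter, Fintype.mem_piFinset] at hx
    have hset : ((Fintype.piFinset (fun _ : Fin s => SS K m)).filter
        (fun y => b ∣ (∑ i, (w i + M * y i) ^ k) - F)).filter
        (fun y => (fun (y : Fin s → K[X]) (i : Fin s) => (w i + M * y i) %ₘ b) y = x) =
        Fintype.piFinset (fun i : Fin s => (SS K m).filter (fun y => b ∣ w i + M * y - x i)) := by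
      ext y
      rw [Finset.mem_filter, Finset.mem_filter, Fintype.mem_piFinset, Fintype.mem_piFinset]
      constructor
      · rintro ⟨⟨h1, _⟩, h3⟩ i
        rw [Finset.mem_filter]
        refine ⟨h1 i, ?_⟩
        have h4 : (w i + M * y i) %ₘ b = x i := congrFun h3 i
        rw [← h4]
        exact RR_mod hb _
      · intro h
        have h1 : ∀ i, b ∣ w i + M * y i - x i := fun i => (Finset.mem_filter.1 (h i)).2
        refine ⟨⟨fun i => (Finset.mem_filter.1 (h i)).1, ?_⟩, ?_⟩
        · have h2 := dvd_add (hpow (fun i => w i + M * y i) x h1) hx.2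
          have e1 : (∑ i, (w i + M * y i) ^ k - ∑ i, x i ^ k) + ((∑ i, x i ^ k) - F) =
              (∑ i, (w i + M * y i) ^ k) - F := by ring
          rwa [e1] at h2
        · funext i
          refine RR_eq hb (mod_mem_RR hb _) (hx.1 i) ?_
          have h2 := dvd_sub (h1 i) (RR_mod hb (w i + M * y i))
          have e1 : w i + M * y i - x i - (w i + M * y i - (w i + M * y i) %ₘ b) =
              (w i + M * y i) %ₘ b - x i := by ring
          rwa [e1] at h2
    rw [hset, Fintype.card_piFinset]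
    rw [Finset.prod_congr rfl (fun i _ => fib_one m b (w i) M (x i) hb hbm hcop), Finset.prod_const,
      Finset.card_univ, Fintype.card_fin]
  · intro y hy
    rw [Finset.mem_coe, Finset.mem_filter, Fintype.mem_piFinset] at hy
    rw [Finset.mem_coe, Finset.mem_filter, Fintype.mem_piFinset]
    refine ⟨fun i => mod_mem_RR hb _, ?_⟩
    have h2 := dvd_sub hy.2 (hpow (fun i => w i + M * y i) (fun i => (w i + M * y i) %ₘ b)
      (fun i => RR_mod hb (w i + M * y i)))
    have e1 : (∑ i, (w i + M * y i) ^ k) - F - (∑ i, (w i + M * y i) ^ k - ∑ i, ((w i + M * y i) %ₘ b) ^ k) =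
        (∑ i, ((w i + M * y i) %ₘ b) ^ k) - F := by ring
    rwa [e1] at h2

end MP_570bef_ntG
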