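import Pool.Agent.Lib.MP_570bef_ntG.Defs

/-! Final numerics. -/

namespace MP_570bef_ntG

theorem FinN_D1 (k : ℕ) (hk : 1 ≤ k) : 2 ^ k ≤ D1 k := by
  unfold D1
  have h1 : 1 ≤ e0 k := by
    unfold e0 D4
    omega
  have h2 : 2 ^ k ≤ eta k := by
    unfold eta
    calc 2 ^ k = 1 * 2 ^ k := (one_mul _).symm
      _ ≤ k * 2 ^ (k + 3) := Nat.mul_le_mul hk (Nat.pow_le_pow_right (by norm_num) (by omega))
  calc 2 ^ k = 1 * 2 ^ k := (one_mul _).symm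
    _ ≤ (4 * e0 k) * eta k := Nat.mul_le_mul (by omega) h2

/-- if `x1^D q^n ≤ N^D`, `x2 ≤ 2 δ N`, `δ^T q^n = 1`, `1 ≤ T ≤ D`, `N = q^(Y+1)` and `n ≥ 4 D`, `q ≥ 3`, then
`(x1 + x2)^(2D) q^n ≤ q^(2 D Y)`. -/
theorem fin_num (q n D T Y : ℕ) (x1 x2 : ℕ) (δ : ℝ) (hq : 3 ≤ q) (hT1 : 1 ≤ T) (hT : T ≤ D) (hn : 4 * D ≤ n)
    (hδ : 0 ≤ δ) (h1 : x1 ^ D * q ^ n ≤ (q ^ (Y + 1)) ^ D) (h2 : (x2 : ℝ) ≤ 2 * δ * (q : ℝ) ^ (Y + 1))
    (h3 : δ ^ T * (q : ℝ) ^ n = 1) :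
    (x1 + x2) ^ (2 * D) * q ^ n ≤ q ^ (2 * D * Y) := by
  have hqr : (3 : ℝ) ≤ (q : ℝ) := by exact_mod_cast hq
  have hq0 : (0 : ℝ) < (q : ℝ) := by linarith
  have hqn : (1 : ℝ) ≤ (q : ℝ) ^ n := one_le_pow₀ (by linarith)
  have hδ1 : δ ≤ 1 := by
    by_contra hc
    push Not at hc
    have h5 : 1 < δ ^ T := one_lt_pow₀ hc (by omega)
    have h6 : 1 < δ ^ T * (q : ℝ) ^ n := lt_of_lt_of_le h5 (le_mul_of_one_le_right (by positivity) hqn)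
    linarith
  have h4 : δ ^ D * (q : ℝ) ^ n ≤ 1 := by
    rw [← h3]
    exact mul_le_mul_of_nonneg_right (pow_le_pow_of_le_one hδ hδ1 hT) (by positivity)
  set N : ℝ := (q : ℝ) ^ (Y + 1) with hN
  have hN0 : 0 < N := by positivity
  have h1' : (x1 : ℝ) ^ D * (q : ℝ) ^ n ≤ N ^ D := by
    rw [hN]
    exact_mod_cast h1
  have hx1 : (0 : ℝ) ≤ (x1 : ℝ) := Nat.cast_nonneg _
  have h5 : ((x1 : ℝ) + x2) ^ D * (q : ℝ) ^ n ≤ (3 * N) ^ D := by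
    rcases le_total (x1 : ℝ) (δ * N) with h | h
    · have h6 : (x1 : ℝ) + x2 ≤ 3 * (δ * N) := by linarith
      calc ((x1 : ℝ) + x2) ^ D * (q : ℝ) ^ n ≤ (3 * (δ * N)) ^ D * (q : ℝ) ^ n :=
            mul_le_mul_of_nonneg_right (pow_le_pow_left₀ (by positivity) h6 D) (by positivity)
        _ = (3 * N) ^ D * (δ ^ D * (q : ℝ) ^ n) := by
            have e2 : (3 * (δ * N)) ^ D = (3 * N) ^ D * δ ^ D := by
              rw [← mul_pow]
              congr 1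
              ring
            rw [e2]
            ring
        _ ≤ (3 * N) ^ D * 1 := mul_le_mul_of_nonneg_left h4 (by positivity)
        _ = (3 * N) ^ D := mul_one _
    · have h6 : (x1 : ℝ) + x2 ≤ 3 * x1 := by linarith
      calc ((x1 : ℝ) + x2) ^ D * (q : ℝ) ^ n ≤ (3 * (x1 : ℝ)) ^ D * (q : ℝ) ^ n :=
            mul_le_mul_of_nonneg_right (pow_le_pow_left₀ (by positivity) h6 D) (by positivity)
        _ = 3 ^ D * ((x1 : ℝ) ^ D * (q : ℝ) ^ n) := by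
            rw [mul_pow]
            ring
        _ ≤ 3 ^ D * N ^ D := mul_le_mul_of_nonneg_left h1' (by positivity)
        _ = (3 * N) ^ D := (mul_pow _ _ _).symm
  have h6 : (((x1 : ℝ) + x2) ^ (2 * D) * (q : ℝ) ^ n) * (q : ℝ) ^ n ≤ (q : ℝ) ^ (2 * D * Y) * (q : ℝ) ^ n := by
    calc (((x1 : ℝ) + x2) ^ (2 * D) * (q : ℝ) ^ n) * (q : ℝ) ^ n
        = (((x1 : ℝ) + x2) ^ D * (q : ℝ) ^ n) ^ 2 := by
          rw [mul_comm 2 D, pow_mul]
          ring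
      _ ≤ ((3 * N) ^ D) ^ 2 := pow_le_pow_left₀ (by positivity) h5 2
      _ = (3 ^ 2) ^ D * (q : ℝ) ^ (2 * D * Y) * (q : ℝ) ^ (2 * D) := by
          rw [hN, mul_pow, mul_pow, ← pow_mul, ← pow_mul, ← pow_mul, ← pow_mul, mul_assoc, ← pow_add]
          congr 2
          · ring
          · ring
      _ ≤ (q : ℝ) ^ (2 * D) * (q : ℝ) ^ (2 * D * Y) * (q : ℝ) ^ (2 * D) := by
          have h7 : ((3 : ℝ) ^ 2) ^ D ≤ (q : ℝ) ^ (2 * D) := by
            rw [← pow_mul]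
            exact pow_le_pow_left₀ (by norm_num) hqr _
          exact mul_le_mul_of_nonneg_right (mul_le_mul_of_nonneg_right h7 (by positivity)) (by positivity)
      _ = (q : ℝ) ^ (2 * D * Y) * (q : ℝ) ^ (4 * D) := by
          have e1 : (q : ℝ) ^ (4 * D) = (q : ℝ) ^ (2 * D) * (q : ℝ) ^ (2 * D) := by
            rw [← pow_add]
            congr 1
            ring
          rw [e1]
          ring
      _ ≤ (q : ℝ) ^ (2 * D * Y) * (q : ℝ) ^ n :=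
          mul_le_mul_of_nonneg_left (pow_le_pow_right₀ (by linarith) hn) (by positivity)
  have h7 : ((x1 : ℝ) + x2) ^ (2 * D) * (q : ℝ) ^ n ≤ (q : ℝ) ^ (2 * D * Y) :=
    le_of_mul_le_mul_right h6 (by positivity)
  exact_mod_cast h7

end MP_570bef_ntG
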