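import Pool.Agent.Lib.MP_570bef_ntG.LamA
import Pool.Agent.Lib.MP_1ad228_ntD.Mo
import Pool.Agent.Lib.MP_570bef_ntF.J2

/-! JOB HiB.  The `2k`-th moment, normalised.  `μ = natDegree M`, `m + 1 = n - μ`, `E + 1 = k n - μ`, `Q = q^(m+1)`.

`moment_gg` with `a := 1`, `M' := M`, `g := gg k (lam k M w)` (`lam_eq`, `lam_gg_deg`), `fs` is by definition `∑_{y ∈ SS K m} ψ (A (gg k l y))`: `∑_c ‖f(c)‖^(2k) ≤ q^(E+1) En k k (SS K n)`; `En_SS_le` (MP_570bef_ntF/J2): `En ≤ C2^(n+1) q^(kn+k²+k)` (cast).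
`(‖f‖/Q)^(2k) = ‖f‖^(2k) / q^((m+1) 2k)` (`div_pow`, `Finset.sum_div`), and `(E+1) + (k n + k² + k) = (m+1) 2k + (2k-1) μ + k² + k` (substitute `n = μ + m + 1`; `k ≥ 1`). -/

open Polynomial MP_570bef_ntF MP_1ad228_ntD

namespace MP_570bef_ntG

variable {K : Type} [Field K] [Fintype K]

private theorem HiB_exp (k n m E μ : ℕ) (hk : 2 ≤ k) (hm : μ + m + 1 = n) (hE : μ + E + 1 = k * n) :
    (E + 1) + (k * n + k ^ 2 + k) = ((2 * k - 1) * μ + k ^ 2 + k) + (m + 1) * (2 * k) := by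
  obtain ⟨j, rfl⟩ : ∃ j, k = j + 1 := ⟨k - 1, by omega⟩
  have h1 : 2 * (j + 1) - 1 = 2 * j + 1 := by omega
  rw [h1]
  subst hm
  have h2 : (j + 1) * (μ + m + 1) = j * μ + μ + (j + 1) * (m + 1) := by ring
  have h3 : E + 1 = j * μ + (j + 1) * (m + 1) := by omega
  rw [h3, h2]
  ring

theorem mom_phi {ψ : AddChar K ℂ} (hψ : ψ ≠ 1) (k n m E : ℕ) (hk : 2 ≤ k)
    (hchar : ∀ i : ℕ, 1 ≤ i → i ≤ k → (i : K) ≠ 0) (M w : K[X]) (hM : M ≠ 0) (hw : w.natDegree ≤ n)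
    (hm : M.natDegree + m + 1 = n) (hE : M.natDegree + E + 1 = k * n) :
    ∑ c : Fin (E + 1) → K, (‖fs ψ k (lam k M w) m (lin c)‖ / (Fintype.card K : ℝ) ^ (m + 1)) ^ (2 * k)
      ≤ (C2 k : ℝ) ^ (n + 1) * (Fintype.card K : ℝ) ^ ((2 * k - 1) * M.natDegree + k ^ 2 + k) := by
  have hq : (0 : ℝ) < (Fintype.card K : ℝ) := by
    have := one_le_q (K := K)
    linarith
  have h1 : ∑ c : Fin (E + 1) → K, ‖fs ψ k (lam k M w) m (lin c)‖ ^ (2 * k) ≤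
      (Fintype.card K : ℝ) ^ (E + 1) * (En k k (SS K n) : ℝ) := by
    unfold fs
    exact moment_gg hψ k m n E 1 w M M one_ne_zero hM hw (by omega) (gg k (lam k M w))
      (fun y => by rw [lam_eq, one_mul]) (fun y hy => lam_gg_deg k n m E M w hw hm hE y hy)
  have h2 : (En k k (SS K n) : ℝ) ≤ (C2 k : ℝ) ^ (n + 1) * (Fintype.card K : ℝ) ^ (k * n + k ^ 2 + k) := by
    exact_mod_cast En_SS_le k n hk hchar
  have h3 : ∑ c : Fin (E + 1) → K, (‖fs ψ k (lam k M w) m (lin c)‖ / (Fintype.card K : ℝ) ^ (m + 1)) ^ (2 * k) =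
      (∑ c : Fin (E + 1) → K, ‖fs ψ k (lam k M w) m (lin c)‖ ^ (2 * k)) /
        (Fintype.card K : ℝ) ^ ((m + 1) * (2 * k)) := by
    rw [Finset.sum_div]
    refine Finset.sum_congr rfl fun c _ => ?_
    rw [div_pow, ← pow_mul]
  rw [h3, div_le_iff₀ (pow_pos hq _)]
  refine h1.trans ?_
  have h4 : (Fintype.card K : ℝ) ^ (E + 1) * (En k k (SS K n) : ℝ) ≤
      (Fintype.card K : ℝ) ^ (E + 1) * ((C2 k : ℝ) ^ (n + 1) * (Fintype.card K : ℝ) ^ (k * n + k ^ 2 + k)) :=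
    mul_le_mul_of_nonneg_left h2 (pow_pos hq _).le
  refine h4.trans (le_of_eq ?_)
  calc (Fintype.card K : ℝ) ^ (E + 1) * ((C2 k : ℝ) ^ (n + 1) * (Fintype.card K : ℝ) ^ (k * n + k ^ 2 + k)) =
      (C2 k : ℝ) ^ (n + 1) * (Fintype.card K : ℝ) ^ ((E + 1) + (k * n + k ^ 2 + k)) := by
        rw [pow_add]
        ring
    _ = (C2 k : ℝ) ^ (n + 1) * (Fintype.card K : ℝ) ^
        (((2 * k - 1) * M.natDegree + k ^ 2 + k) + (m + 1) * (2 * k)) := by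
        rw [HiB_exp k n m E M.natDegree hk hm hE]
    _ = _ := by
        rw [pow_add]
        ring

end MP_570bef_ntG
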