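import Mathlib

/-! JOB HiC.  Abstract: sum of the product of the squares over a set where the factor `0` is at most `σ`.

`∏_{i ≤ k} φ_i² = φ_0² ∏_{i : Fin k} φ_{i+1}²` (`Fin.prod_univ_succ`), `φ_0² ≤ σ²`, and `∏_{i : Fin k} x_i² ≤ ∑_i x_i^(2k)` for `x_i ≥ 0`, `k ≥ 1`: let `x_t` be the largest (`Finset.exists_max_image`), `∏ x_i² ≤ (x_t²)^k = x_t^(2k) ≤ ∑`.  Compare MP_1ad228_ntD/HiS.lean (`HiS_prod`).
`∑_{c∈S} ≤ σ² ∑_{c ∈ S} ∑_i φ_{i+1}(c)^(2k) ≤ σ² ∑_i ∑_{all c} ≤ k σ² B`. -/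

namespace MP_570bef_ntG

private theorem HiC_prod (k : ℕ) (hk : 1 ≤ k) (x : Fin k → ℝ) (hx : ∀ i, 0 ≤ x i) :
    ∏ i, x i ^ 2 ≤ ∑ i, x i ^ (2 * k) := by
  have hne : (Finset.univ : Finset (Fin k)).Nonempty := ⟨⟨0, hk⟩, Finset.mem_univ _⟩
  obtain ⟨t, _, ht⟩ := Finset.exists_max_image Finset.univ x hne
  have h1 : ∏ i, x i ^ 2 ≤ ∏ _i : Fin k, x t ^ 2 :=
    Finset.prod_le_prod (fun i _ => sq_nonneg _)
      (fun i hi => pow_le_pow_left₀ (hx i) (ht i hi) 2)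
  have h2 : ∏ _i : Fin k, x t ^ 2 = x t ^ (2 * k) := by
    rw [Finset.prod_const, Finset.card_univ, Fintype.card_fin, ← pow_mul]
  rw [h2] at h1
  exact h1.trans (Finset.single_le_sum (f := fun i => x i ^ (2 * k))
    (fun i _ => pow_nonneg (hx i) _) (Finset.mem_univ t))

theorem high_sq (k : ℕ) (hk : 1 ≤ k) {Γ : Type} [Fintype Γ] (φ : Fin (k + 1) → Γ → ℝ)
    (hφ0 : ∀ i c, 0 ≤ φ i c) (S : Finset Γ) (σ B : ℝ) (hσ : 0 ≤ σ) (hsup : ∀ c ∈ S, φ 0 c ≤ σ)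
    (hB : ∀ i, ∑ c, φ i c ^ (2 * k) ≤ B) :
    ∑ c ∈ S, ∏ i, φ i c ^ 2 ≤ k * σ ^ 2 * B := by
  have h1 : ∀ c ∈ S, ∏ i, φ i c ^ 2 ≤ σ ^ 2 * ∑ i : Fin k, φ i.succ c ^ (2 * k) := by
    intro c hc
    rw [Fin.prod_univ_succ]
    exact mul_le_mul (pow_le_pow_left₀ (hφ0 0 c) (hsup c hc) 2)
      (HiC_prod k hk (fun i => φ i.succ c) (fun i => hφ0 _ _))
      (Finset.prod_nonneg fun i _ => sq_nonneg _) (sq_nonneg _)
  have h2 : ∀ i : Fin k, ∑ c ∈ S, φ i.succ c ^ (2 * k) ≤ B := by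
    intro i
    exact (Finset.sum_le_sum_of_subset_of_nonneg (Finset.subset_univ S)
      (fun c _ _ => pow_nonneg (hφ0 _ _) _)).trans (hB i.succ)
  calc ∑ c ∈ S, ∏ i, φ i c ^ 2 ≤ ∑ c ∈ S, σ ^ 2 * ∑ i : Fin k, φ i.succ c ^ (2 * k) :=
        Finset.sum_le_sum h1
    _ = σ ^ 2 * ∑ i : Fin k, ∑ c ∈ S, φ i.succ c ^ (2 * k) := by
        rw [← Finset.mul_sum, Finset.sum_comm]
    _ ≤ σ ^ 2 * ∑ _i : Fin k, B :=
        mul_le_mul_of_nonneg_left (Finset.sum_le_sum fun i _ => h2 i) (sq_nonneg _)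
    _ = k * σ ^ 2 * B := by
        rw [Finset.sum_const, Finset.card_univ, Fintype.card_fin, nsmul_eq_mul]
        ring

end MP_570bef_ntG
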