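import Pool.Agent.Lib.MP_570bef_ntG.HiA
import Pool.Agent.Lib.MP_570bef_ntG.HiB
import Pool.Agent.Lib.MP_570bef_ntG.HiC
import Pool.Agent.Lib.MP_570bef_ntG.Asy

/-! JOB HiD.  Assembly of the high rank part.

`obtain ⟨j, rfl⟩ : ∃ j, k = j + 1`, `j ≥ 1`.  `N0` from `asy_high j`.  `q := card K`, `μ := natDegree M`, `φ i c := ‖fs ψ k (lam k M (w i)) m (lin c)‖ / q^(m+1)`, so `‖pro ψ k m M w (lin c)‖ = ∏_i φ i c` (`norm_prod`, `norm_div`, norm of `(q:ℂ)^(m+1)`), squares: `∏ φ²` (`Finset.prod_pow`).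
Let `A := (j+1) 2^(j²n) q^(j(1+μ))`; choose `σ ≥ 0` with `σ^(2^j) * q^(n/2) = A` (`σ := (A / q^(n/2)) ^ ((1:ℝ) / 2^j)`, `Real.rpow_natCast`, `Real.rpow_mul`; or `Real.nthRoot`; `2^j ≠ 0`).  For `c ∈ HW K E (n/2)`: `sup_phi` gives `(φ 0 c)^(2^j) q^(n/2) ≤ A = σ^(2^j) q^(n/2)`, so `φ 0 c ≤ σ` (`pow_le_pow_iff_left₀`).
`mom_phi` gives `∑_c φ i c^(2k) ≤ B` for all `i`.  `high_sq`: `∑_{c ∈ HW} ‖pro‖² ≤ k σ² B =: T` (`(k : ℝ) = j + 1`), and `asy_high` gives `T^(2^k) q^n ≤ 1`; monotonicity (`pow_le_pow_left₀`, the sum is `≥ 0`). -/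

open Polynomial MP_570bef_ntF MP_1ad228_ntD

namespace MP_570bef_ntG

theorem high_part_le (k : ℕ) (hk : 2 ≤ k) : ∃ N0 : ℕ, ∀ (K : Type) [Field K] [Fintype K],
    (∀ i : ℕ, 1 ≤ i → i ≤ k → (i : K) ≠ 0) → Q1 k ≤ Fintype.card K →
    ∀ (ψ : AddChar K ℂ), ψ ≠ 1 → ∀ (n m E : ℕ) (M : K[X]) (w : Fin (k + 1) → K[X]), N0 ≤ n → M ≠ 0 →
    (∀ i, (w i).natDegree ≤ n) → M.natDegree + m + 1 = n → M.natDegree + E + 1 = k * n → n / 2 ≤ m →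
    eta k * M.natDegree ≤ n →
    (∑ c ∈ HW K E (n / 2), ‖pro ψ k m M w (lin c)‖ ^ 2) ^ (2 ^ k) * (Fintype.card K : ℝ) ^ n ≤ 1 := by
  obtain ⟨j, rfl⟩ : ∃ j, k = j + 1 := ⟨k - 1, by omega⟩
  have hj : 1 ≤ j := by omega
  obtain ⟨N0, hN0⟩ := asy_high j hj
  refine ⟨N0, ?_⟩
  intro K _ _ hchar hQ ψ hψ n m E M w hn hM hw hm hE hnm hη
  have hq1 : (1 : ℝ) ≤ (Fintype.card K : ℝ) := one_le_q
  have hq0 : (0 : ℝ) < (Fintype.card K : ℝ) := by linarith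
  have hA0 : 0 ≤ (((j : ℝ) + 1) * 2 ^ (j ^ 2 * n) * (Fintype.card K : ℝ) ^ (j * (1 + M.natDegree))) /
      (Fintype.card K : ℝ) ^ (n / 2) := by positivity
  obtain ⟨σ, hσ0, hσ⟩ : ∃ σ : ℝ, 0 ≤ σ ∧ σ ^ (2 ^ j) =
      (((j : ℝ) + 1) * 2 ^ (j ^ 2 * n) * (Fintype.card K : ℝ) ^ (j * (1 + M.natDegree))) /
      (Fintype.card K : ℝ) ^ (n / 2) := by
    refine ⟨_ ^ ((1 : ℝ) / ((2 ^ j : ℕ) : ℝ)), Real.rpow_nonneg hA0 _, ?_⟩
    rw [← Real.rpow_natCast, ← Real.rpow_mul hA0, one_div, inv_mul_cancel₀, Real.rpow_one]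
    exact_mod_cast (pow_ne_zero j (by norm_num : (2 : ℕ) ≠ 0))
  have hσ' : σ ^ (2 ^ j) * (Fintype.card K : ℝ) ^ (n / 2) =
      ((j : ℝ) + 1) * 2 ^ (j ^ 2 * n) * (Fintype.card K : ℝ) ^ (j * (1 + M.natDegree)) := by
    rw [hσ, div_mul_cancel₀]
    positivity
  have hfin := hN0 (Fintype.card K) n M.natDegree σ hQ hn hη hσ0 (le_of_eq hσ')
  have hφ0 : ∀ (i : Fin (j + 1 + 1)) (c : Fin (E + 1) → K),
      0 ≤ ‖fs ψ (j + 1) (lam (j + 1) M (w i)) m (lin c)‖ / (Fintype.card K : ℝ) ^ (m + 1) := by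
    intro i c
    positivity
  have hpro : ∀ c : Fin (E + 1) → K, ‖pro ψ (j + 1) m M w (lin c)‖ ^ 2 =
      ∏ i, (‖fs ψ (j + 1) (lam (j + 1) M (w i)) m (lin c)‖ / (Fintype.card K : ℝ) ^ (m + 1)) ^ 2 := by
    intro c
    unfold pro
    rw [norm_prod, ← Finset.prod_pow]
    refine Finset.prod_congr rfl fun i _ => ?_
    rw [norm_div, norm_pow, Complex.norm_natCast]
  have hsum : ∑ c ∈ HW K E (n / 2), ‖pro ψ (j + 1) m M w (lin c)‖ ^ 2 ≤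
      ((j : ℝ) + 1) * σ ^ 2 * ((C2 (j + 1) : ℝ) ^ (n + 1) *
        (Fintype.card K : ℝ) ^ ((2 * (j + 1) - 1) * M.natDegree + (j + 1) ^ 2 + (j + 1))) := by
    have h1 := high_sq (j + 1) (by omega)
      (fun (i : Fin (j + 1 + 1)) (c : Fin (E + 1) → K) =>
        ‖fs ψ (j + 1) (lam (j + 1) M (w i)) m (lin c)‖ / (Fintype.card K : ℝ) ^ (m + 1)) hφ0
      (HW K E (n / 2)) σ ((C2 (j + 1) : ℝ) ^ (n + 1) *
        (Fintype.card K : ℝ) ^ ((2 * (j + 1) - 1) * M.natDegree + (j + 1) ^ 2 + (j + 1))) hσ0 ?_ ?_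
    · rw [Finset.sum_congr rfl fun c _ => hpro c]
      have h2 : ((j + 1 : ℕ) : ℝ) = (j : ℝ) + 1 := by push_cast; ring
      rw [h2] at h1
      exact h1
    · intro c hc
      rw [mem_HW] at hc
      obtain ⟨r, hr, hρ⟩ := hc
      have h2 := sup_phi hψ j n m E r hj hchar M (w 0) hM (hw 0) hm hE hnm (lin c) hρ hr
      rw [← hσ'] at h2
      have h3 := le_of_mul_le_mul_right h2 (by positivity)
      exact (pow_le_pow_iff_left₀ (hφ0 0 c) hσ0 (pow_ne_zero j (by norm_num : (2 : ℕ) ≠ 0))).1 h3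
    · intro i
      exact mom_phi hψ (j + 1) n m E (by omega) hchar M (w i) hM (hw i) hm hE
  refine le_trans (mul_le_mul_of_nonneg_right (pow_le_pow_left₀ ?_ hsum _) (by positivity)) hfin
  exact Finset.sum_nonneg fun c _ => by positivity

end MP_570bef_ntG
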