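import Pool.Agent.Lib.MP_570bef_ntG.LowG
import Pool.Agent.Lib.MP_570bef_ntG.FinN
import Pool.Agent.Lib.MP_570bef_ntG.HiD
import Pool.Agent.Lib.MP_570bef_ntG.ClsB
import Pool.Agent.Lib.MP_570bef_ntG.ClsG
import Pool.Agent.Lib.MP_570bef_ntG.BadC
import Pool.Agent.Lib.MP_570bef_ntG.DatG

/-! Final assembly of stream G. -/

open Polynomial MP_570bef_ntF MP_1ad228_ntD

namespace MP_570bef_ntG

theorem Fin_root (T n : ℕ) (hT : T ≠ 0) (q : ℝ) (hq : 0 < q) : ∃ δ : ℝ, 0 ≤ δ ∧ δ ^ T * q ^ n = 1 := by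
  refine ⟨((q ^ n)⁻¹) ^ ((1 : ℝ) / T), by positivity, ?_⟩
  rw [← Real.rpow_natCast, ← Real.rpow_mul (by positivity), one_div, inv_mul_cancel₀ (by exact_mod_cast hT),
    Real.rpow_one, inv_mul_cancel₀ (by positivity)]

theorem almost_all (k : ℕ) (hk : 3 ≤ k) : ∃ n0 : ℕ, ∀ (K : Type) [Field K] [Fintype K],
    (∀ i : ℕ, 1 ≤ i → i ≤ k → (i : K) ≠ 0) → Q1 k ≤ Fintype.card K → ∀ n ≥ n0, ∀ X : Finset K[X],
    (∀ F ∈ X, F.natDegree ≤ k * n ∧
      ¬ ∃ x : Fin (k + 1) → K[X], (∀ i, (x i).natDegree ≤ n) ∧ ∑ i, x i ^ k = F) →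
    X.card ^ (2 * D1 k) * Fintype.card K ^ n ≤ Fintype.card K ^ (2 * D1 k * (k * n)) := by
  classical
  obtain ⟨N0, hN0⟩ := high_part_le k (by omega)
  refine ⟨N0 + 4 * D1 k + 8, ?_⟩
  intro K _ _ hchar hq n hn X hX
  obtain ⟨hq1, hq2, hq3, hq4, hq5⟩ := LowG_Q1 k _ (by omega) hq
  have hk6 : 1 ≤ k ^ 6 := Nat.one_le_pow _ _ (by omega)
  obtain ⟨ψ, hψ⟩ := exists_char K
  obtain ⟨R, hR1, hR2⟩ := exists_R k n (by omega) (Fintype.card K) (two_le_q (K := K))
  have hμ := MR_small (K := K) k n R hR1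
  have heta : 192 ≤ eta k := by
    unfold eta
    calc 192 = 3 * 2 ^ (3 + 3) := by norm_num
      _ ≤ k * 2 ^ (k + 3) := Nat.mul_le_mul hk (Nat.pow_le_pow_right (by norm_num) (by omega))
  have hμ4 : 4 * (MR K R).natDegree ≤ n := by
    refine le_trans (Nat.mul_le_mul_right _ ?_) hμ
    omega
  have h3n : 3 * n ≤ k * n := Nat.mul_le_mul_right n hk
  obtain ⟨m, hm⟩ : ∃ m, (MR K R).natDegree + m + 1 = n := ⟨n - 1 - (MR K R).natDegree, by omega⟩
  obtain ⟨E, hE⟩ : ∃ E, (MR K R).natDegree + E + 1 = k * n := ⟨k * n - 1 - (MR K R).natDegree, by omega⟩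
  have hnm : n / 2 ≤ m := by omega
  set q : ℝ := (Fintype.card K : ℝ) with hqdef
  have hq0 : 0 < q := by
    have := two_le_q (K := K)
    rw [hqdef]
    exact_mod_cast (by omega : 0 < Fintype.card K)
  obtain ⟨δ, hδ0, hδ⟩ := Fin_root (2 ^ k) n (by positivity) q hq0
  set X1 : Finset K[X] := X.filter (fun F => Fintype.card K ^ (R + 1) < e0 k * om (R + 1) F) with hX1
  set X2 : Finset K[X] := X.filter (fun F => ¬ Fintype.card K ^ (R + 1) < e0 k * om (R + 1) F) with hX2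
  have hcard : X1.card + X2.card = X.card := Finset.card_filter_add_card_filter_not _
  have hne : ∀ F ∈ X, F ≠ 0 := by
    rintro F hF rfl
    apply (hX 0 hF).2
    refine ⟨fun _ => 0, fun i => by simp, ?_⟩
    apply Finset.sum_eq_zero
    intro i _
    exact zero_pow (by omega)
  have hb1 : X1.card ^ (D1 k) * Fintype.card K ^ n ≤ (Fintype.card K ^ (k * n + 1)) ^ (D1 k) := by
    refine le_trans (Nat.mul_le_mul_right _ (Nat.pow_le_pow_left (Finset.card_le_card ?_) _)) (bad_count k n R hq2 hR2)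
    intro F hF
    rw [hX1, Finset.mem_filter] at hF
    rw [Finset.mem_filter, mem_SS]
    exact ⟨(hX F hF.1).1, hne F hF.1, hF.2⟩
  have hb2 : (X2.card : ℝ) ≤ 2 * δ * q ^ (k * n + 1) := by
    have h1 : ∀ F0 ∈ X2, ((X2.filter (fun F => MR K R ∣ F - F0 ∧ F.coeff (k * n) = F0.coeff (k * n))).card : ℝ) ≤
        2 * q ^ (E + 1) * δ := by
      intro F0 hF0
      obtain ⟨L⟩ := exists_loc k n R (by omega) hq1 (by omega) F0
      have h2 := class_bound hψ k n m E R (n / 2) F0 L hm hE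
        (X2.filter (fun F => MR K R ∣ F - F0 ∧ F.coeff (k * n) = F0.coeff (k * n))) (by
          intro F hF
          rw [Finset.mem_filter, hX2, Finset.mem_filter] at hF
          exact ⟨(hX F hF.1.1).1, hF.2.1, hF.2.2, (hX F hF.1.1).2⟩) (by
          intro F hF G hG hGdeg
          rw [Finset.mem_filter, hX2, Finset.mem_filter] at hF
          exact low_le hψ k n m E R hk hchar hq hR2 F0 L hm hE hnm F G (hne F hF.1.1) (hX F hF.1.1).1
            (not_lt.1 hF.1.2) hG hGdeg)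
      refine h2.trans ?_
      apply mul_le_mul_of_nonneg_left _ (by positivity)
      have h3 := hN0 K hchar hq ψ hψ n m E (MR K R) L.w (by omega) (MR_monic R).ne_zero L.hw hm hE hnm hμ
      rw [← hqdef, ← hδ] at h3
      have h4 := le_of_mul_le_mul_right h3 (by positivity)
      exact le_of_pow_le_pow_left₀ (by positivity) hδ0 h4
    have h2 := class_sum (MR K R) (MR_monic R) (k * n) X2 (2 * q ^ (E + 1) * δ) (by positivity) h1
    refine h2.trans (le_of_eq ?_)
    rw [← hqdef, show k * n + 1 = (E + 1) + ((MR K R).natDegree + 1) from by omega, pow_add q (E + 1)]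
    ring
  have h5 := fin_num (Fintype.card K) n (D1 k) (2 ^ k) (k * n) X1.card X2.card δ (by omega) (Nat.one_le_two_pow)
    (FinN_D1 k (by omega)) (by omega) hδ0 hb1 hb2 hδ
  rw [hcard] at h5
  exact h5

end MP_570bef_ntG
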