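import Pool.Agent.Lib.MP_570bef_ntG.PrM

/-! JOB GdA.  `∑_{v ∈ VR K R g} D3/(Q_v √Q_v) ≤ 1/32`, `Q_v = q^(natDegree v)`, if `(64 D3)² ≤ q`.

`t := √q`, `t ≥ 64 D3 ≥ 2` (`Real.le_sqrt`; `D3 k ≥ 2` if `k ≥ 1`), `√(q^d) = t^d`.  Sort `VR K R g` by degree `d ∈ Icc (R+1) g` (`Finset.sum_fiberwise_of_maps_to`): each fibre has at most `q^d` elements (`card_irr_le`), each term is `D3/(q^d t^d)`: total `≤ ∑_{d=R+1}^{g} D3 / t^d ≤ D3 ∑_{d ≥ 1} t^(-d) ≤ 2 D3 / t ≤ 2/64`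
(for `N`: `∑_{d=1}^{N} t^(-d) ≤ 2/t` by induction in the form `∑_{d=1}^N t^(-d) ≤ (2/t) (1 - t^(-N))` or `geom_sum`; `t ≥ 2`). -/

open Polynomial MP_570bef_ntF MP_1ad228_ntD

namespace MP_570bef_ntG

variable {K : Type} [Field K] [Fintype K]

theorem GdA_geom (r : ℝ) (hr0 : 0 ≤ r) (hr : 2 * r ≤ 1) (N : ℕ) :
    ∑ d ∈ Finset.Icc 1 N, r ^ d ≤ 2 * r * (1 - r ^ N) := by
  induction N with
  | zero => simp
  | succ N ih =>
    rw [Finset.sum_Icc_succ_top (by omega)]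
    have h1 : 0 ≤ r ^ (N + 1) := pow_nonneg hr0 _
    have h2 : 2 * r * r ^ (N + 1) ≤ 1 * r ^ (N + 1) := mul_le_mul_of_nonneg_right hr h1
    have h3 : r ^ (N + 1) = r * r ^ N := pow_succ' r N
    have h4 : 2 * r * (1 - r ^ (N + 1)) = 2 * r - 2 * r * r ^ (N + 1) := by ring
    have h5 : 2 * r * (1 - r ^ N) = 2 * r - 2 * r ^ (N + 1) := by rw [h3]; ring
    rw [h4]
    rw [h5] at ih
    linarith

theorem gd_one (k R g : ℕ) (hk : 1 ≤ k) (hq : (64 * D3 k) ^ 2 ≤ Fintype.card K) :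
    ∑ v ∈ VR K R g, (D3 k : ℝ) /
      ((Fintype.card K : ℝ) ^ v.natDegree * Real.sqrt ((Fintype.card K : ℝ) ^ v.natDegree)) ≤ 1 / 32 := by
  classical
  set q : ℝ := (Fintype.card K : ℝ) with hqdef
  have hq0 : 0 ≤ q := Nat.cast_nonneg _
  set t : ℝ := Real.sqrt q with ht
  have htt : t ^ 2 = q := Real.sq_sqrt hq0
  have hD : 2 ≤ D3 k := by
    unfold D3
    have h1 : 1 ≤ (2 * k ^ 2) ^ (k + 2) := Nat.one_le_pow _ _ (by positivity)
    omega
  have hDr : (2 : ℝ) ≤ (D3 k : ℝ) := by exact_mod_cast hD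
  have ht64 : 64 * (D3 k : ℝ) ≤ t := by
    apply Real.le_sqrt_of_sq_le
    have h1 : (((64 * D3 k) ^ 2 : ℕ) : ℝ) ≤ (Fintype.card K : ℝ) := by exact_mod_cast hq
    push_cast at h1
    exact h1
  have htpos : 0 < t := by linarith
  have hqpos : 0 < q := by rw [← htt]; positivity
  have hsq : ∀ d : ℕ, Real.sqrt (q ^ d) = t ^ d := by
    intro d
    rw [← htt, ← pow_mul, mul_comm, pow_mul]
    exact Real.sqrt_sq (pow_nonneg htpos.le _)
  have hmap : ∀ v ∈ VR K R g, v.natDegree ∈ Finset.Icc 1 g := by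
    intro v hv
    rw [mem_VR] at hv
    rw [Finset.mem_Icc]
    exact ⟨by omega, hv.1⟩
  rw [← Finset.sum_fiberwise_of_maps_to hmap]
  have hfib : ∀ d ∈ Finset.Icc 1 g, ∑ v ∈ (VR K R g).filter (fun v => v.natDegree = d),
      (D3 k : ℝ) / (q ^ v.natDegree * Real.sqrt (q ^ v.natDegree)) ≤ (D3 k : ℝ) * (1 / t) ^ d := by
    intro d _
    have h1 : ∑ v ∈ (VR K R g).filter (fun v => v.natDegree = d),
        (D3 k : ℝ) / (q ^ v.natDegree * Real.sqrt (q ^ v.natDegree)) =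
        ∑ v ∈ (VR K R g).filter (fun v => v.natDegree = d), (D3 k : ℝ) / (q ^ d * t ^ d) := by
      apply Finset.sum_congr rfl
      intro v hv
      rw [(Finset.mem_filter.1 hv).2, hsq]
    rw [h1, Finset.sum_const, nsmul_eq_mul]
    have h2 : (((VR K R g).filter (fun v => v.natDegree = d)).card : ℝ) ≤ q ^ d := by
      have h3 := card_irr_le d ((VR K R g).filter (fun v => v.natDegree = d)) (by
        intro v hv
        have h4 := (Finset.mem_filter.1 hv).1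
        rw [mem_VR] at h4
        exact ⟨h4.2.2.1, (Finset.mem_filter.1 hv).2⟩)
      rw [hqdef]
      exact_mod_cast h3
    have h5 : 0 ≤ (D3 k : ℝ) / (q ^ d * t ^ d) := by positivity
    have h6 : q ^ d * ((D3 k : ℝ) / (q ^ d * t ^ d)) = (D3 k : ℝ) * (1 / t) ^ d := by
      rw [div_pow, one_pow]
      field_simp
    rw [← h6]
    exact mul_le_mul_of_nonneg_right h2 h5
  have hr : 2 * (1 / t) ≤ 1 := by
    rw [mul_one_div, div_le_one htpos]
    linarith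
  have hgeo := GdA_geom (1 / t) (by positivity) hr g
  calc ∑ d ∈ Finset.Icc 1 g, ∑ v ∈ (VR K R g).filter (fun v => v.natDegree = d),
      (D3 k : ℝ) / (q ^ v.natDegree * Real.sqrt (q ^ v.natDegree))
      ≤ ∑ d ∈ Finset.Icc 1 g, (D3 k : ℝ) * (1 / t) ^ d := Finset.sum_le_sum hfib
    _ = (D3 k : ℝ) * ∑ d ∈ Finset.Icc 1 g, (1 / t) ^ d := by rw [Finset.mul_sum]
    _ ≤ (D3 k : ℝ) * (2 * (1 / t) * (1 - (1 / t) ^ g)) := mul_le_mul_of_nonneg_left hgeo (by positivity)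
    _ ≤ (D3 k : ℝ) * (2 * (1 / t)) := by
        apply mul_le_mul_of_nonneg_left _ (by positivity)
        have h1 : 0 ≤ (1 / t) ^ g := by positivity
        have h2 : 0 ≤ 2 * (1 / t) := by positivity
        nlinarith
    _ ≤ 1 / 32 := by
        rw [mul_one_div, ← mul_div_assoc, div_le_div_iff₀ htpos (by norm_num)]
        linarith

end MP_570bef_ntG
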