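import Pool.Agent.Lib.MP_570bef_ntG.PrM

/-! JOB GdB.  `∑_{v ∈ VR K R g, v ∣ F} D4/Q_v ≤ 1/16`, `Q_v = q^(natDegree v)`, for `F ≠ 0` of degree `≤ k n` with few prime divisors of degree `R + 1`.

(1) `natDegree v = R + 1`: at most `om (R+1) F` such `v` (`mem_VR`, `mem_PR`), each term `D4/q^(R+1)`; `e0 k = 32 D4 k` and `hgood : e0 k * om (R+1) F ≤ q^(R+1)`: the sum is `≤ D4 om / q^(R+1) ≤ 1/32`.
(2) `natDegree v ≥ R + 2`, `v ∣ F`: let `S` be this set (a subset of `VR K R g`).  Distinct monic irreducible polynomials are coprime, so `∏_{v∈S} v ∣ F` (`Finset.prod_dvd_of_coprime`, as in `dvd_of_PR`), so `(R+2) card S ≤ ∑_{v ∈ S} natDegree v ≤ natDegree F ≤ k n` (`natDegree_le_of_dvd`, `F ≠ 0`; `natDegree_prod_of_monic`).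
Each term is `≤ D4/q^(R+2)`, so the sum is `≤ D4 card S / q^(R+2)` and `(R+2) D4 card S ≤ D4 k n < D4 k eta k * 2 (R+1) q^(R+1) ≤ 2 (R+2) D4 k (eta k) q^(R+1)`, so it is `≤ 2 D4 k (eta k) / q ≤ 2/64` by `64 D4 k eta k ≤ q`.  Sum `≤ 1/16`. -/

open Polynomial MP_570bef_ntF MP_1ad228_ntD

namespace MP_570bef_ntG

variable {K : Type} [Field K] [Fintype K]

omit [Fintype K] in
private theorem GdB_cop {v w : K[X]} (hv : Irreducible v) (hw : Irreducible w) (hvm : v.Monic)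
    (hwm : w.Monic) (hne : v ≠ w) : IsCoprime v w := by
  rcases EuclideanDomain.dvd_or_coprime v w hv with hd | hc
  · exact absurd (Polynomial.eq_of_monic_of_associated hvm hwm (hv.associated_of_dvd hw hd)) hne
  · exact hc

omit [Fintype K] in
private theorem GdB_card (T : Finset K[X]) (m : ℕ) (F : K[X]) (hF0 : F ≠ 0)
    (hT : ∀ v ∈ T, Irreducible v ∧ v.Monic ∧ m ≤ v.natDegree ∧ v ∣ F) :
    m * T.card ≤ F.natDegree := by
  have hd : (∏ v ∈ T, v) ∣ F := by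
    refine Finset.prod_dvd_of_coprime ?_ fun v hv => (hT v hv).2.2.2
    intro v hv w hw hne
    exact GdB_cop (hT v hv).1 (hT w hw).1 (hT v hv).2.1 (hT w hw).2.1 hne
  have h1 := natDegree_le_of_dvd hd hF0
  rw [natDegree_prod_of_monic _ _ (fun v hv => (hT v hv).2.1)] at h1
  calc m * T.card = ∑ _v ∈ T, m := by rw [Finset.sum_const, smul_eq_mul, mul_comm]
    _ ≤ ∑ v ∈ T, v.natDegree := Finset.sum_le_sum fun v hv => (hT v hv).2.2.1
    _ ≤ F.natDegree := h1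

open Classical in
theorem gd_two (k n R g : ℕ) (hk : 1 ≤ k) (hq : 64 * D4 k * k * eta k ≤ Fintype.card K)
    (hR : n < eta k * (2 * (R + 1) * Fintype.card K ^ (R + 1))) (F : K[X]) (hF0 : F ≠ 0) (hF : F.natDegree ≤ k * n)
    (hgood : e0 k * om (R + 1) F ≤ Fintype.card K ^ (R + 1)) :
    ∑ v ∈ VR K R g, (if v ∣ F then (D4 k : ℝ) / (Fintype.card K : ℝ) ^ v.natDegree else 0) ≤ 1 / 16 := by
  obtain ⟨q, hqd⟩ : ∃ q, q = Fintype.card K := ⟨_, rfl⟩
  have hq2 : 2 ≤ q := by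
    rw [hqd]
    exact Fintype.one_lt_card
  rw [← hqd] at hq hR hgood ⊢
  have hq0 : (0 : ℝ) < q := by
    have : 0 < q := by omega
    exact_mod_cast this
  have hq1 : (1 : ℝ) ≤ q := by
    have : 1 ≤ q := by omega
    exact_mod_cast this
  have hD : (0 : ℝ) ≤ D4 k := Nat.cast_nonneg _
  rw [← Finset.sum_filter]
  obtain ⟨T1, hT1⟩ : ∃ T1, T1 = ((VR K R g).filter (fun v => v ∣ F)).filter
    (fun v => v.natDegree = R + 1) := ⟨_, rfl⟩
  obtain ⟨T2, hT2⟩ : ∃ T2, T2 = ((VR K R g).filter (fun v => v ∣ F)).filter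
    (fun v => ¬ v.natDegree = R + 1) := ⟨_, rfl⟩
  have hsplit : ∑ v ∈ (VR K R g).filter (fun v => v ∣ F), (D4 k : ℝ) / (q : ℝ) ^ v.natDegree =
      ∑ v ∈ T1, (D4 k : ℝ) / (q : ℝ) ^ v.natDegree + ∑ v ∈ T2, (D4 k : ℝ) / (q : ℝ) ^ v.natDegree := by
    rw [hT1, hT2]
    exact (Finset.sum_filter_add_sum_filter_not _ _ _).symm
  have hm : ∀ v ∈ (VR K R g).filter (fun v => v ∣ F),
      Irreducible v ∧ v.Monic ∧ R < v.natDegree ∧ v ∣ F := by
    intro v hv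
    obtain ⟨h1, h2⟩ := Finset.mem_filter.1 hv
    obtain ⟨-, h3, h4, h5⟩ := mem_VR.1 h1
    exact ⟨h3, h4, h5, h2⟩
  -- the prime divisors of degree `R + 1`
  have hc1 : T1.card ≤ om (R + 1) F := by
    unfold om
    refine Finset.card_le_card ?_
    intro v hv
    rw [hT1] at hv
    obtain ⟨h1, h2⟩ := Finset.mem_filter.1 hv
    obtain ⟨h3, h4, -, h6⟩ := hm v h1
    rw [Finset.mem_filter, mem_PR]
    exact ⟨⟨by omega, h3, h4⟩, h2, h6⟩
  have hs1 : ∑ v ∈ T1, (D4 k : ℝ) / (q : ℝ) ^ v.natDegree ≤ 1 / 32 := by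
    have e1 : ∑ v ∈ T1, (D4 k : ℝ) / (q : ℝ) ^ v.natDegree = T1.card * ((D4 k : ℝ) / (q : ℝ) ^ (R + 1)) := by
      rw [← nsmul_eq_mul, ← Finset.sum_const]
      refine Finset.sum_congr rfl fun v hv => ?_
      rw [hT1] at hv
      rw [(Finset.mem_filter.1 hv).2]
    rw [e1]
    have e2 : 32 * D4 k * T1.card ≤ q ^ (R + 1) := by
      refine le_trans ?_ hgood
      unfold e0
      exact Nat.mul_le_mul_left _ hc1
    have e3 : (32 : ℝ) * D4 k * T1.card ≤ (q : ℝ) ^ (R + 1) := by exact_mod_cast e2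
    have e4 : (0 : ℝ) < (q : ℝ) ^ (R + 1) := by positivity
    have e5 : (T1.card : ℝ) * ((D4 k : ℝ) / (q : ℝ) ^ (R + 1)) = (T1.card * D4 k) / (q : ℝ) ^ (R + 1) := by
      ring
    rw [e5, div_le_iff₀ e4]
    linarith
  -- the other prime divisors
  have hT2m : ∀ v ∈ T2, Irreducible v ∧ v.Monic ∧ R + 2 ≤ v.natDegree ∧ v ∣ F := by
    intro v hv
    rw [hT2] at hv
    obtain ⟨h1, h2⟩ := Finset.mem_filter.1 hv
    obtain ⟨h3, h4, h5, h6⟩ := hm v h1
    exact ⟨h3, h4, by omega, h6⟩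
  have hc2 : T2.card ≤ 2 * k * eta k * q ^ (R + 1) := by
    have e1 := (GdB_card T2 (R + 2) F hF0 hT2m).trans hF
    have e2 : k * n ≤ k * (eta k * (2 * (R + 1) * q ^ (R + 1))) := Nat.mul_le_mul_left _ hR.le
    have e3 : k * (eta k * (2 * (R + 1) * q ^ (R + 1))) = (R + 1) * (2 * k * eta k * q ^ (R + 1)) := by ring
    have e4 : (R + 2) * T2.card ≤ (R + 2) * (2 * k * eta k * q ^ (R + 1)) := by
      refine e1.trans (e2.trans ?_)
      rw [e3]
      exact Nat.mul_le_mul_right _ (by omega)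
    exact Nat.le_of_mul_le_mul_left e4 (by omega)
  have hs2 : ∑ v ∈ T2, (D4 k : ℝ) / (q : ℝ) ^ v.natDegree ≤ 1 / 32 := by
    have e1 : ∑ v ∈ T2, (D4 k : ℝ) / (q : ℝ) ^ v.natDegree ≤ T2.card * ((D4 k : ℝ) / (q : ℝ) ^ (R + 2)) := by
      rw [← nsmul_eq_mul, ← Finset.sum_const]
      refine Finset.sum_le_sum fun v hv => ?_
      exact div_le_div_of_nonneg_left hD (by positivity) (pow_le_pow_right₀ hq1 (hT2m v hv).2.2.1)
    refine e1.trans ?_
    have e2 : (T2.card : ℝ) ≤ 2 * k * eta k * (q : ℝ) ^ (R + 1) := by exact_mod_cast hc2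
    have e3 : (64 : ℝ) * D4 k * k * eta k ≤ q := by exact_mod_cast hq
    have e4 : (0 : ℝ) < (q : ℝ) ^ (R + 1) := by positivity
    calc (T2.card : ℝ) * ((D4 k : ℝ) / (q : ℝ) ^ (R + 2)) ≤
        2 * k * eta k * (q : ℝ) ^ (R + 1) * ((D4 k : ℝ) / (q : ℝ) ^ (R + 2)) :=
          mul_le_mul_of_nonneg_right e2 (by positivity)
      _ = 2 * k * eta k * D4 k / q := by
          rw [show R + 2 = (R + 1) + 1 by ring, pow_succ (q : ℝ) (R + 1)]
          field_simp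
      _ ≤ 1 / 32 := by
          rw [div_le_iff₀ hq0]
          linarith
  rw [hsplit]
  linarith

end MP_570bef_ntG
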