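import Pool.Agent.Lib.MP_570bef_ntG.LamA
import Pool.Agent.Lib.MP_1ad228_ntD.Sup

/-! JOB HiA.  The exponential sum at a functional of high rank, normalised.  `k = j + 1`, `μ = natDegree M`, `m = n - 1 - μ`, `E = (j+1) n - 1 - μ`, `Q = q^(m+1)`.

`sup_bound` with `Y := j * n` (`Y + m = E`), `g := n / 2 ≤ m`, `l := lam (j+1) M w` (`lam_top`, `lam_deg` for index `j + 1`: `natDegree + (j+1) m ≤ E`):
`‖f‖^(2^j) q^(g+1) ≤ Q^(2^j-j) (j Q^(j-1) q^(g+1) + (q 2^Y)^j q^(Y+1))`.  Divide by `Q^(2^j) q` (`j ≤ 2^j`, `j ≥ 1`, so `Q^(2^j-j) Q^(j-1) = Q^(2^j - 1)`, `Q^(2^j - j) = Q^(2^j)/Q^j`):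
`φ^(2^j) q^g ≤ j q^g / Q + q^j 2^(jY) q^Y / Q^j`, `q^g ≤ Q` (`g ≤ m`), `q^Y / Q^j = q^(j n) / q^(j (n - μ)) = q^(j μ)` (`m + 1 = n - μ`), so it is `≤ j + 2^(j²n) q^(j(1+μ)) ≤ (j+1) 2^(j²n) q^(j(1+μ))`. -/

open Polynomial MP_570bef_ntF MP_1ad228_ntD

namespace MP_570bef_ntG

variable {K : Type} [Field K] [Fintype K]

theorem HiA_num (q x : ℝ) (j n m μ T : ℕ) (hq : 1 ≤ q) (hj : 1 ≤ j) (hT : j ≤ T)
    (hm : μ + m + 1 = n) (hnm : n / 2 ≤ m)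
    (hb : x ^ T * q ^ (n / 2 + 1) ≤ (q ^ (m + 1)) ^ (T - j) *
      (j * (q ^ (m + 1)) ^ (j - 1) * q ^ (n / 2 + 1) + (q * 2 ^ (j * n)) ^ j * q ^ (j * n + 1))) :
    (x / q ^ (m + 1)) ^ T * q ^ (n / 2) ≤ ((j : ℝ) + 1) * 2 ^ (j ^ 2 * n) * q ^ (j * (1 + μ)) := by
  have hq0 : 0 < q := by linarith
  have hQ0 : 0 < q ^ (m + 1) := pow_pos hq0 _
  have h1 : (q ^ (m + 1)) ^ T = (q ^ (m + 1)) ^ (T - j) * (q ^ (m + 1)) ^ j := by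
    rw [← pow_add, Nat.sub_add_cancel hT]
  have h2 : (q ^ (m + 1)) ^ j = (q ^ (m + 1)) ^ (j - 1) * q ^ (m + 1) := by
    rw [← pow_succ, Nat.sub_add_cancel hj]
  have h3 : q ^ (n / 2) ≤ q ^ (m + 1) := pow_le_pow_right₀ hq (by omega)
  have h4 : (1 : ℝ) ≤ 2 ^ (j ^ 2 * n) := one_le_pow₀ (by norm_num)
  have h5 : (1 : ℝ) ≤ q ^ (j * (1 + μ)) := one_le_pow₀ hq
  have h45 : (1 : ℝ) ≤ 2 ^ (j ^ 2 * n) * q ^ (j * (1 + μ)) := by nlinarith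
  have h6 : (q * 2 ^ (j * n)) ^ j * q ^ (j * n) =
      2 ^ (j ^ 2 * n) * q ^ (j * (1 + μ)) * (q ^ (m + 1)) ^ j := by
    have e1 : (q * 2 ^ (j * n)) ^ j = q ^ j * 2 ^ (j ^ 2 * n) := by
      rw [mul_pow, ← pow_mul]
      congr 2
      ring
    have e2 : q ^ j * q ^ (j * n) = q ^ (j * (1 + μ)) * (q ^ (m + 1)) ^ j := by
      rw [← pow_mul, ← pow_add, ← pow_add]
      congr 1
      rw [← hm]
      ring
    rw [e1]
    calc q ^ j * 2 ^ (j ^ 2 * n) * q ^ (j * n) = 2 ^ (j ^ 2 * n) * (q ^ j * q ^ (j * n)) := by ring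
      _ = _ := by rw [e2]; ring
  have h7 : (j : ℝ) * (q ^ (m + 1)) ^ (j - 1) * q ^ (n / 2) ≤
      j * (2 ^ (j ^ 2 * n) * q ^ (j * (1 + μ)) * (q ^ (m + 1)) ^ j) := by
    rw [h2, mul_assoc]
    refine mul_le_mul_of_nonneg_left ?_ (Nat.cast_nonneg j)
    have hp : 0 ≤ (q ^ (m + 1)) ^ (j - 1) := by positivity
    calc (q ^ (m + 1)) ^ (j - 1) * q ^ (n / 2) ≤ (q ^ (m + 1)) ^ (j - 1) * q ^ (m + 1) :=
          mul_le_mul_of_nonneg_left h3 hp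
      _ = 1 * ((q ^ (m + 1)) ^ (j - 1) * q ^ (m + 1)) := (one_mul _).symm
      _ ≤ 2 ^ (j ^ 2 * n) * q ^ (j * (1 + μ)) * ((q ^ (m + 1)) ^ (j - 1) * q ^ (m + 1)) :=
          mul_le_mul_of_nonneg_right h45 (by positivity)
  have h8 : x ^ T * q ^ (n / 2) ≤ (q ^ (m + 1)) ^ (T - j) *
      (j * (q ^ (m + 1)) ^ (j - 1) * q ^ (n / 2) + (q * 2 ^ (j * n)) ^ j * q ^ (j * n)) := by
    have h9 : (x ^ T * q ^ (n / 2)) * q ≤ ((q ^ (m + 1)) ^ (T - j) *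
        (j * (q ^ (m + 1)) ^ (j - 1) * q ^ (n / 2) + (q * 2 ^ (j * n)) ^ j * q ^ (j * n))) * q := by
      rw [pow_succ, pow_succ] at hb
      calc (x ^ T * q ^ (n / 2)) * q = x ^ T * (q ^ (n / 2) * q) := by ring
        _ ≤ _ := hb
        _ = _ := by rw [pow_succ q (m)]; ring
    exact le_of_mul_le_mul_right h9 hq0
  have h10 : x ^ T * q ^ (n / 2) ≤ (((j : ℝ) + 1) * 2 ^ (j ^ 2 * n) * q ^ (j * (1 + μ))) *
      (q ^ (m + 1)) ^ T := by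
    refine le_trans h8 ?_
    rw [h1]
    calc (q ^ (m + 1)) ^ (T - j) *
        (j * (q ^ (m + 1)) ^ (j - 1) * q ^ (n / 2) + (q * 2 ^ (j * n)) ^ j * q ^ (j * n))
        ≤ (q ^ (m + 1)) ^ (T - j) * (j * (2 ^ (j ^ 2 * n) * q ^ (j * (1 + μ)) * (q ^ (m + 1)) ^ j) +
          2 ^ (j ^ 2 * n) * q ^ (j * (1 + μ)) * (q ^ (m + 1)) ^ j) := by
          refine mul_le_mul_of_nonneg_left ?_ (by positivity)
          rw [h6]
          exact add_le_add h7 le_rfl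
      _ = _ := by ring
  rw [div_pow, div_mul_eq_mul_div, div_le_iff₀ (pow_pos hQ0 T)]
  exact h10

theorem sup_phi {ψ : AddChar K ℂ} (hψ : ψ ≠ 1) (j n m E r : ℕ) (hj : 1 ≤ j)
    (hchar : ∀ i : ℕ, 1 ≤ i → i ≤ j + 1 → (i : K) ≠ 0) (M w : K[X]) (hM : M ≠ 0) (hw : w.natDegree ≤ n)
    (hm : M.natDegree + m + 1 = n) (hE : M.natDegree + E + 1 = (j + 1) * n) (hnm : n / 2 ≤ m)
    (A : K[X] →ₗ[K] K) (hρ : IsRho A E r) (hr : n / 2 < r) :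
    (‖fs ψ (j + 1) (lam (j + 1) M w) m A‖ / (Fintype.card K : ℝ) ^ (m + 1)) ^ (2 ^ j) *
        (Fintype.card K : ℝ) ^ (n / 2)
      ≤ ((j : ℝ) + 1) * 2 ^ (j ^ 2 * n) * (Fintype.card K : ℝ) ^ (j * (1 + M.natDegree)) := by
  have hEe : (j + 1) * n = j * n + n := by ring
  have hd := lam_deg (j + 1) n m E (j + 1) M w hw hm hE (by omega) le_rfl
  have hb := sup_bound hψ j m (j * n) E r (n / 2) hj (by omega) hnm hchar (lam (j + 1) M w)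
    (lam_top (j + 1) M w hM) (by omega) A hρ hr
  have hq1 : (1 : ℝ) ≤ (Fintype.card K : ℝ) := one_le_q
  have hjj : j ≤ 2 ^ j := Nat.lt_two_pow_self.le
  exact HiA_num (Fintype.card K : ℝ) ‖fs ψ (j + 1) (lam (j + 1) M w) m A‖ j n m M.natDegree (2 ^ j)
    hq1 hj hjj hm hnm hb

end MP_570bef_ntG
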