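import Pool.Agent.Lib.MP_570bef_ntG.Bas
import Pool.Agent.Lib.MP_570bef_ntF.FoA

/-! JOB KilO.  Orthogonality over the functionals killed by `b`: `∑_{c ∈ CB E b} ψ(lin c H) = q^(deg b)` if `b ∣ H` and `0` otherwise (`natDegree H ≤ E`).  `d := natDegree b ≤ E + 1`, `b` monic.

Parametrisation: for `a : Fin d → K` let `T a : K[X] →ₗ[K] K`, `T a F := ∑_{j<d} a j * (F %ₘ b).coeff j` (linear: `Polynomial.modByMonicHom`; `∑ j, a j • (lcoeff K j ∘ₗ modByMonicHom b)`).  Let `c a : Fin (E+1) → K := fun i => T a (X^i)`; then `lin (c a) F = T a F` for `natDegree F ≤ E` (`functional_ext`, `lin_X_pow`).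
`c a ∈ CB E b`: `T a (b z) = 0` (`(b * z) %ₘ b = 0`).
Bijection `a ↦ c a` from `Fin d → K` onto `CB E b`: injective: for `j < d`: `j ≤ E`, `T a (X^j) = a j` (`X^j %ₘ b = X^j`, degree `j < d`).  Surjective: for `c ∈ CB E b` put `a j := lin c (X^j)`; for `natDegree F ≤ E`: `F = F %ₘ b + b * (F /ₘ b)` and
`natDegree (F /ₘ b) + d ≤ E` when `F /ₘ b ≠ 0`, (if `natDegree F < d` then `F /ₘ b = 0`; `natDegree_divByMonic`), so `lin c F = lin c (F %ₘ b) = ∑_{j<d} (F %ₘ b).coeff j * lin c (X^j) = T a F`; so `lin c` and `T a` agree on degree `≤ E`, `c = c a` (evaluate at `X^i`, `lin_X_pow`).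
So `∑_{c ∈ CB} ψ(lin c H) = ∑_a ψ(T a H) = ∏_{j<d} ∑_{x ∈ K} ψ(x * (H %ₘ b).coeff j)` (`Finset.prod_univ_sum`, `Fintype.piFinset_univ`, `AddChar` of a sum; compare `orth` in FoA) `= q^d` if `H %ₘ b = 0` and `0` otherwise (`sum_char`; some coefficient of index `< d` of `H %ₘ b` is nonzero).
`b ∣ H ↔ H %ₘ b = 0`: `Polynomial.modByMonic_eq_zero_iff_dvd`. -/

open Polynomial MP_570bef_ntF MP_1ad228_ntD

namespace MP_570bef_ntG

variable {K : Type} [Field K] [Fintype K]

omit [Fintype K] in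
private theorem KilO_map_sum {ι : Type} (ψ : AddChar K ℂ) (s : Finset ι) (f : ι → K) :
    ψ (∑ i ∈ s, f i) = ∏ i ∈ s, ψ (f i) := by
  classical
  induction s using Finset.induction_on with
  | empty => simp
  | insert a s ha ih =>
    rw [Finset.sum_insert ha, Finset.prod_insert ha, AddChar.map_add_eq_mul, ih]

/-- the functional attached to `a` -/
private noncomputable def KilO_T (b : K[X]) {d : ℕ} (a : Fin d → K) : K[X] →ₗ[K] K :=
  ∑ j : Fin d, a j • (Polynomial.lcoeff K (j : ℕ) ∘ₗ Polynomial.modByMonicHom b)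

omit [Fintype K] in
private theorem KilO_T_apply (b : K[X]) {d : ℕ} (a : Fin d → K) (F : K[X]) :
    KilO_T b a F = ∑ j : Fin d, a j * (F %ₘ b).coeff (j : ℕ) := by
  unfold KilO_T
  simp [Polynomial.lcoeff_apply]

omit [Fintype K] in
private theorem KilO_T_X (b : K[X]) (hb : b.Monic) (a : Fin b.natDegree → K) (j : Fin b.natDegree) :
    KilO_T b a (X ^ (j : ℕ)) = a j := by
  have h1 : (X ^ (j : ℕ) : K[X]) %ₘ b = X ^ (j : ℕ) := by
    rw [modByMonic_eq_self_iff hb, degree_X_pow, degree_eq_natDegree hb.ne_zero]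
    exact_mod_cast j.2
  rw [KilO_T_apply, h1, Finset.sum_eq_single j]
  · simp
  · intro i _ hi
    have h2 : (i : ℕ) ≠ (j : ℕ) := fun h => hi (Fin.ext h)
    rw [coeff_X_pow, if_neg h2, mul_zero]
  · intro h
    exact absurd (Finset.mem_univ j) h

omit [Fintype K] in
private theorem KilO_sum (d : ℕ) (r : K[X]) (hr : r.degree < (d : WithBot ℕ)) :
    r = ∑ j : Fin d, r.coeff (j : ℕ) • (X : K[X]) ^ (j : ℕ) := by
  ext n
  rw [finsetSum_coeff]
  by_cases hn : n < d
  · rw [Finset.sum_eq_single (⟨n, hn⟩ : Fin d)]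
    · rw [coeff_smul, coeff_X_pow, if_pos rfl, smul_eq_mul, mul_one]
    · intro i _ hi
      have h2 : n ≠ (i : ℕ) := fun h => hi (Fin.ext h.symm)
      rw [coeff_smul, coeff_X_pow, if_neg h2, smul_zero]
    · intro h
      exact absurd (Finset.mem_univ _) h
  · have h1 : r.coeff n = 0 := by
      apply coeff_eq_zero_of_degree_lt
      refine lt_of_lt_of_le hr ?_
      exact_mod_cast (not_lt.1 hn)
    rw [h1]
    symm
    refine Finset.sum_eq_zero fun i _ => ?_
    have h2 : n ≠ (i : ℕ) := by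
      have := i.2
      omega
    rw [coeff_smul, coeff_X_pow, if_neg h2, smul_zero]

/-- the coordinates of the functional attached to `a` -/
private noncomputable def KilO_c (E : ℕ) (b : K[X]) (a : Fin b.natDegree → K) : Fin (E + 1) → K :=
  fun i => KilO_T b a (X ^ (i : ℕ))

omit [Fintype K] in
private theorem KilO_lin (E : ℕ) (b : K[X]) (a : Fin b.natDegree → K) (F : K[X]) (hF : F.natDegree ≤ E) :
    lin (KilO_c E b a) F = KilO_T b a F := by
  refine functional_ext (fun j hj => ?_) hF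
  rw [lin_X_pow _ j (by omega)]
  rfl

private theorem KilO_mem (E : ℕ) (b : K[X]) (hb : b.Monic) (a : Fin b.natDegree → K) :
    KilO_c E b a ∈ CB E b := by
  rw [mem_CB]
  intro z hz
  rw [KilO_lin E b a _ ((natDegree_mul_le).trans (by omega)), KilO_T_apply]
  have h1 : (b * z) %ₘ b = 0 := (modByMonic_eq_zero_iff_dvd hb).2 (dvd_mul_right b z)
  rw [h1]
  simp

private theorem KilO_surj (E : ℕ) (b : K[X]) (hb : b.Monic) (c : Fin (E + 1) → K) (hc : c ∈ CB E b) :
    KilO_c E b (fun j => lin c (X ^ (j : ℕ))) = c := by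
  rw [mem_CB] at hc
  have key : ∀ F : K[X], F.natDegree ≤ E →
      KilO_T b (fun j : Fin b.natDegree => lin c (X ^ (j : ℕ))) F = lin c F := by
    intro F hF
    have h1 := modByMonic_add_div F b
    have h2 : lin c (b * (F /ₘ b)) = 0 := by
      by_cases hlt : F.degree < b.degree
      · rw [(divByMonic_eq_zero_iff hb).2 hlt, mul_zero, map_zero]
      · apply hc
        rw [natDegree_divByMonic F hb]
        have h3 : b.natDegree ≤ F.natDegree := natDegree_le_natDegree (not_lt.1 hlt)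
        omega
    have h4 : (F %ₘ b).degree < ((b.natDegree : ℕ) : WithBot ℕ) := by
      rw [← degree_eq_natDegree hb.ne_zero]
      exact degree_modByMonic_lt F hb
    have h5 : lin c F = lin c (F %ₘ b) := by
      conv_lhs => rw [← h1]
      rw [map_add, h2, add_zero]
    rw [h5, KilO_T_apply]
    conv_rhs => rw [KilO_sum b.natDegree (F %ₘ b) h4]
    rw [map_sum]
    refine Finset.sum_congr rfl fun j _ => ?_
    rw [map_smul, smul_eq_mul, mul_comm]
  funext i
  have hi := i.2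
  have h6 := key (X ^ (i : ℕ)) (by rw [natDegree_X_pow]; omega)
  rw [lin_X_pow c (i : ℕ) hi] at h6
  exact h6

open Classical in
theorem sum_CB_char {ψ : AddChar K ℂ} (hψ : ψ ≠ 1) (E : ℕ) (b : K[X]) (hb : b.Monic) (hbE : b.natDegree ≤ E + 1)
    (H : K[X]) (hH : H.natDegree ≤ E) :
    ∑ c ∈ CB E b, ψ (lin c H) = if b ∣ H then (Fintype.card K : ℂ) ^ b.natDegree else 0 := by
  have h1 : ∑ c ∈ CB E b, ψ (lin c H) = ∑ a : Fin b.natDegree → K, ψ (KilO_T b a H) := by
    symm
    refine Finset.sum_bij (fun a _ => KilO_c E b a) (fun a _ => KilO_mem E b hb a) ?_ ?_ ?_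
    · intro a _ a' _ h
      funext j
      have h2 := congrFun h ⟨(j : ℕ), by have := j.2; omega⟩
      have h3 : KilO_T b a (X ^ (j : ℕ)) = KilO_T b a' (X ^ (j : ℕ)) := h2
      rw [KilO_T_X b hb, KilO_T_X b hb] at h3
      exact h3
    · intro c hc
      exact ⟨fun j => lin c (X ^ (j : ℕ)), Finset.mem_univ _, KilO_surj E b hb c hc⟩
    · intro a _
      rw [KilO_lin E b a H hH]
  have h2 : ∀ a : Fin b.natDegree → K, ψ (KilO_T b a H) =
      ∏ j : Fin b.natDegree, ψ (a j * (H %ₘ b).coeff (j : ℕ)) := by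
    intro a
    rw [KilO_T_apply, KilO_map_sum]
  have h3 : ∑ a : Fin b.natDegree → K, ∏ j : Fin b.natDegree, ψ (a j * (H %ₘ b).coeff (j : ℕ)) =
      ∏ j : Fin b.natDegree, ∑ x : K, ψ (x * (H %ₘ b).coeff (j : ℕ)) := by
    rw [Finset.prod_univ_sum, Fintype.piFinset_univ]
  rw [h1, Finset.sum_congr rfl (fun a _ => h2 a), h3]
  split_ifs with h0
  · have h4 : H %ₘ b = 0 := (modByMonic_eq_zero_iff_dvd hb).2 h0
    rw [h4]
    simp
  · have h4 : H %ₘ b ≠ 0 := fun h => h0 ((modByMonic_eq_zero_iff_dvd hb).1 h)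
    have h5 : (H %ₘ b).degree < b.degree := degree_modByMonic_lt H hb
    have h6 : (H %ₘ b).natDegree < b.natDegree := natDegree_lt_natDegree h4 h5
    apply Finset.prod_eq_zero (Finset.mem_univ (⟨(H %ₘ b).natDegree, h6⟩ : Fin b.natDegree))
    rw [sum_char hψ, if_neg]
    exact leadingCoeff_ne_zero.2 h4

end MP_570bef_ntG
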