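import Pool.Agent.Lib.MP_570bef_ntF.FoA
import Pool.Agent.Lib.MP_1ad228_ntD.Iso

/-! JOB NbP.  Number of solutions of `∑_{i ≤ s} x_i^k = φ` over a finite field `F`, `Q = card F`, `B := √(2 k² Q)`.

Copy the private lemmas `Iso_S, Iso_card, Iso_sq, Iso_one, Iso_shift, Iso_two` of MP_1ad228_ntD/Iso.lean into this file (prefix `NbP_`): `S(α) = ∑_x χ(α x^k)`, `S(0) = Q`, `S(α w^k) = S(α)` for `w ≠ 0`, `‖S(α)‖² ≤ 2k²Q`, i.e. `‖S(α)‖ ≤ B`, for `α ≠ 0`
(`χ` from `exists_char F`, `sum_char`).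
`N := #{x : Fin (s+1) → F | ∑ x_i^k = φ}`.  `Q * N = ∑_α ∑_x χ(α (∑ x_i^k - φ)) = ∑_α S(α)^(s+1) χ(-αφ)` (`Finset.prod_univ_sum`, `Fintype.piFinset_univ`, `∏ constant = power`), the term `α = 0` is `Q^(s+1)`.  So
`Q (N - Q^s) = ∑_{α ≠ 0} S(α)^(s+1) χ(-αφ)`                                                                              (*)
and `Q |N - Q^s| ≤ (Q-1) B^(s+1) ≤ Q B^(s+1)`: `field_count`.
`field_count_ne` (`φ ≠ 0`): for `w ≠ 0` the number `N(w^k φ)` equals `N(φ)` (bijection `x ↦ w x`); equivalently, sum (*) for `w^k φ` over all `w ≠ 0`: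
`(Q-1) Q (N - Q^s) = ∑_{α≠0} S(α)^(s+1) ∑_{w ≠ 0} χ(-α φ w^k) = ∑_{α≠0} S(α)^(s+1) (S(-αφ) - 1)`, whose norm is `≤ (Q-1) B^(s+1) (B+1)`; divide by `Q - 1 > 0`. -/

open Polynomial MP_570bef_ntF MP_1ad228_ntD

namespace MP_570bef_ntG

section NbPAux

variable {F : Type} [Field F] [Fintype F]

private noncomputable def NbP_S (ψ : AddChar F ℂ) (k : ℕ) (α : F) : ℂ := ∑ x : F, ψ (α * x ^ k)

private theorem NbP_card (k : ℕ) (hk : 1 ≤ k) (b : F) [DecidableEq F] :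
    (Finset.univ.filter (fun x : F => x ^ k = b)).card ≤ k := by
  classical
  have h0 : 0 < k := hk
  have hsub : Finset.univ.filter (fun x : F => x ^ k = b) ⊆ (nthRoots k b).toFinset := by
    intro x hx
    rw [Finset.mem_filter] at hx
    rw [Multiset.mem_toFinset, mem_nthRoots h0]
    exact hx.2
  calc (Finset.univ.filter (fun x : F => x ^ k = b)).card ≤ (nthRoots k b).toFinset.card :=
        Finset.card_le_card hsub
    _ ≤ Multiset.card (nthRoots k b) := Multiset.toFinset_card_le _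
    _ ≤ k := card_nthRoots k b

private theorem NbP_sq (ψ : AddChar F ℂ) (k : ℕ) (β : F) :
    ((‖NbP_S ψ k β‖ ^ 2 : ℝ) : ℂ) = ∑ x : F, ∑ y : F, ψ (β * (x ^ k - y ^ k)) := by
  have h1 : ((‖NbP_S ψ k β‖ ^ 2 : ℝ) : ℂ) = NbP_S ψ k β * (starRingEnd ℂ) (NbP_S ψ k β) := by
    rw [Complex.mul_conj, Complex.normSq_eq_norm_sq]
  rw [h1]
  unfold NbP_S
  rw [map_sum, Finset.sum_mul_sum]
  apply Finset.sum_congr rfl
  intro x _
  apply Finset.sum_congr rfl
  intro y _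
  rw [← AddChar.map_neg_eq_conj, ← AddChar.map_add_eq_mul]
  congr 1
  ring

private theorem NbP_one {ψ : AddChar F ℂ} (hψ : ψ ≠ 1) (k : ℕ) (hk : 1 ≤ k) :
    ∑ β : F, ‖NbP_S ψ k β‖ ^ 2 ≤ (k : ℝ) * (Fintype.card F : ℝ) ^ 2 := by
  classical
  have h1 : ((∑ β : F, ‖NbP_S ψ k β‖ ^ 2 : ℝ) : ℂ) =
      ((∑ y : F, (Fintype.card F : ℝ) * ((Finset.univ.filter (fun x : F => x ^ k = y ^ k)).card : ℝ) : ℝ) : ℂ) := by
    rw [Complex.ofReal_sum]
    rw [Finset.sum_congr rfl (fun β _ => NbP_sq ψ k β)]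
    rw [Finset.sum_comm]
    have h2 : ∀ x : F, ∑ β : F, ∑ y : F, ψ (β * (x ^ k - y ^ k)) =
        ∑ y : F, (if x ^ k = y ^ k then (Fintype.card F : ℂ) else 0) := by
      intro x
      rw [Finset.sum_comm]
      apply Finset.sum_congr rfl
      intro y _
      rw [sum_char hψ]
      simp only [sub_eq_zero]
    rw [Finset.sum_congr rfl (fun x _ => h2 x), Finset.sum_comm, Complex.ofReal_sum]
    apply Finset.sum_congr rfl
    intro y _
    rw [← Finset.sum_filter, Finset.sum_const, nsmul_eq_mul]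
    push_cast
    ring
  have h2 : (∑ β : F, ‖NbP_S ψ k β‖ ^ 2 : ℝ) =
      ∑ y : F, (Fintype.card F : ℝ) * ((Finset.univ.filter (fun x : F => x ^ k = y ^ k)).card : ℝ) :=
    Complex.ofReal_injective h1
  rw [h2]
  calc ∑ y : F, (Fintype.card F : ℝ) * ((Finset.univ.filter (fun x : F => x ^ k = y ^ k)).card : ℝ)
      ≤ ∑ _y : F, (Fintype.card F : ℝ) * (k : ℝ) := by
        apply Finset.sum_le_sum
        intro y _
        apply mul_le_mul_of_nonneg_left _ (Nat.cast_nonneg _)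
        exact_mod_cast NbP_card k hk (y ^ k)
    _ = (k : ℝ) * (Fintype.card F : ℝ) ^ 2 := by
        rw [Finset.sum_const, nsmul_eq_mul, Finset.card_univ]
        ring

private theorem NbP_shift (ψ : AddChar F ℂ) (k : ℕ) (α w : F) (hw : w ≠ 0) :
    NbP_S ψ k (α * w ^ k) = NbP_S ψ k α := by
  unfold NbP_S
  have h := Fintype.sum_equiv (Equiv.mulLeft₀ w hw) (fun x => ψ (α * w ^ k * x ^ k)) (fun x => ψ (α * x ^ k)) (by
    intro x
    have h1 : (Equiv.mulLeft₀ w hw) x = w * x := rfl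
    rw [h1, mul_pow, mul_assoc])
  exact h

private theorem NbP_two {ψ : AddChar F ℂ} (hψ : ψ ≠ 1) (k : ℕ) (hk : 1 ≤ k) (α : F) (hα : α ≠ 0) :
    ‖NbP_S ψ k α‖ ^ 2 ≤ 2 * (k : ℝ) ^ 2 * (Fintype.card F : ℝ) := by
  classical
  set Q : ℝ := (Fintype.card F : ℝ) with hQdef
  have hQ2 : (2 : ℝ) ≤ Q := by
    have : 2 ≤ Fintype.card F := Fintype.one_lt_card
    rw [hQdef]
    exact_mod_cast this
  have h1 : ∑ w ∈ Finset.univ.erase (0 : F), ‖NbP_S ψ k (α * w ^ k)‖ ^ 2 = (Q - 1) * ‖NbP_S ψ k α‖ ^ 2 := by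
    rw [Finset.sum_congr rfl (fun w hw => by rw [NbP_shift ψ k α w (Finset.ne_of_mem_erase hw)])]
    rw [Finset.sum_const, Finset.card_erase_of_mem (Finset.mem_univ _), nsmul_eq_mul, Finset.card_univ]
    rw [Nat.cast_sub (by have : 2 ≤ Fintype.card F := Fintype.one_lt_card; omega)]
    simp [hQdef]
  have h2 : ∑ w ∈ Finset.univ.erase (0 : F), ‖NbP_S ψ k (α * w ^ k)‖ ^ 2 ≤
      ∑ w : F, ‖NbP_S ψ k (α * w ^ k)‖ ^ 2 := by
    apply Finset.sum_le_sum_of_subset_of_nonneg (Finset.erase_subset _ _)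
    intro i _ _
    positivity
  have h3 : ∑ w : F, ‖NbP_S ψ k (α * w ^ k)‖ ^ 2 =
      ∑ β : F, ((Finset.univ.filter (fun w : F => α * w ^ k = β)).card : ℝ) * ‖NbP_S ψ k β‖ ^ 2 := by
    rw [← Finset.sum_fiberwise Finset.univ (fun w : F => α * w ^ k)]
    apply Finset.sum_congr rfl
    intro β _
    rw [Finset.sum_congr rfl (fun w hw => by rw [(Finset.mem_filter.1 hw).2])]
    rw [Finset.sum_const, nsmul_eq_mul]
  have h4 : ∀ β : F, ((Finset.univ.filter (fun w : F => α * w ^ k = β)).card : ℝ) ≤ (k : ℝ) := by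
    intro β
    have h5 : Finset.univ.filter (fun w : F => α * w ^ k = β) = Finset.univ.filter (fun w : F => w ^ k = α⁻¹ * β) := by
      ext w
      simp only [Finset.mem_filter, Finset.mem_univ, true_and]
      constructor
      · intro h
        rw [← h, ← mul_assoc, inv_mul_cancel₀ hα, one_mul]
      · intro h
        rw [h, ← mul_assoc, mul_inv_cancel₀ hα, one_mul]
    rw [h5]
    exact Nat.cast_le.2 (NbP_card k hk _)
  have h5 : ∑ β : F, ((Finset.univ.filter (fun w : F => α * w ^ k = β)).card : ℝ) * ‖NbP_S ψ k β‖ ^ 2 ≤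
      (k : ℝ) * ∑ β : F, ‖NbP_S ψ k β‖ ^ 2 := by
    rw [Finset.mul_sum]
    apply Finset.sum_le_sum
    intro β _
    exact mul_le_mul_of_nonneg_right (h4 β) (by positivity)
  have h6 := NbP_one hψ k hk
  have hk0 : (0 : ℝ) ≤ k := Nat.cast_nonneg _
  have h7 : (Q - 1) * ‖NbP_S ψ k α‖ ^ 2 ≤ (k : ℝ) ^ 2 * Q ^ 2 := by
    calc (Q - 1) * ‖NbP_S ψ k α‖ ^ 2 ≤ (k : ℝ) * ∑ β : F, ‖NbP_S ψ k β‖ ^ 2 := by
          rw [← h1]; exact h2.trans (h3.le.trans h5)
      _ ≤ (k : ℝ) * ((k : ℝ) * Q ^ 2) := mul_le_mul_of_nonneg_left h6 hk0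
      _ = (k : ℝ) ^ 2 * Q ^ 2 := by ring
  have h8 : (0 : ℝ) ≤ ‖NbP_S ψ k α‖ ^ 2 := by positivity
  have h9 : Q * ‖NbP_S ψ k α‖ ^ 2 ≤ Q * (2 * (k : ℝ) ^ 2 * Q) := by nlinarith
  exact le_of_mul_le_mul_left h9 (by linarith)

omit [Fintype F] in
private theorem NbP_map_sum {ι : Type} (ψ : AddChar F ℂ) (s : Finset ι) (f : ι → F) :
    ψ (∑ i ∈ s, f i) = ∏ i ∈ s, ψ (f i) := by
  classical
  induction s using Finset.induction_on with
  | empty => simp
  | insert a s ha ih =>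
    rw [Finset.sum_insert ha, Finset.prod_insert ha, AddChar.map_add_eq_mul, ih]

private theorem NbP_zero (ψ : AddChar F ℂ) (k : ℕ) : NbP_S ψ k 0 = (Fintype.card F : ℂ) := by
  unfold NbP_S
  simp

private noncomputable def NbP_T (ψ : AddChar F ℂ) (k s : ℕ) (φ : F) : ℂ :=
  ∑ α : F, NbP_S ψ k α ^ (s + 1) * ψ (-(α * φ))

open Classical in
private theorem NbP_main {ψ : AddChar F ℂ} (hψ : ψ ≠ 1) (k s : ℕ) (φ : F) :
    (Fintype.card F : ℂ) *
      ((Finset.univ.filter (fun x : Fin (s + 1) → F => ∑ i, x i ^ k = φ)).card : ℂ) =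
      NbP_T ψ k s φ := by
  unfold NbP_T
  have h1 : ∀ α : F, NbP_S ψ k α ^ (s + 1) * ψ (-(α * φ)) =
      ∑ x : Fin (s + 1) → F, ψ (α * (∑ i, x i ^ k - φ)) := by
    intro α
    unfold NbP_S
    rw [Fintype.sum_pow, Finset.sum_mul]
    apply Finset.sum_congr rfl
    intro x _
    rw [← NbP_map_sum, ← AddChar.map_add_eq_mul, ← Finset.mul_sum]
    congr 1
    ring
  rw [Finset.sum_congr rfl (fun α _ => h1 α), Finset.sum_comm]
  have h2 : ∀ x : Fin (s + 1) → F, ∑ α : F, ψ (α * (∑ i, x i ^ k - φ)) =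
      if ∑ i, x i ^ k = φ then (Fintype.card F : ℂ) else 0 := by
    intro x
    rw [sum_char hψ]
    simp only [sub_eq_zero]
  rw [Finset.sum_congr rfl (fun x _ => h2 x), ← Finset.sum_filter, Finset.sum_const,
    nsmul_eq_mul, mul_comm]

private theorem NbP_Tsplit [DecidableEq F] (ψ : AddChar F ℂ) (k s : ℕ) (φ : F) :
    ∑ α ∈ Finset.univ.erase (0 : F), NbP_S ψ k α ^ (s + 1) * ψ (-(α * φ)) =
      NbP_T ψ k s φ - (Fintype.card F : ℂ) ^ (s + 1) := by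
  have h1 := Finset.sum_erase_add (s := Finset.univ)
    (f := fun α : F => NbP_S ψ k α ^ (s + 1) * ψ (-(α * φ))) (Finset.mem_univ (0 : F))
  simp only [zero_mul, neg_zero, AddChar.map_zero_eq_one, mul_one, NbP_zero] at h1
  rw [eq_sub_iff_add_eq, h1, NbP_T]

private theorem NbP_Tshift (ψ : AddChar F ℂ) (k s : ℕ) (φ w : F) (hw : w ≠ 0) :
    NbP_T ψ k s (w ^ k * φ) = NbP_T ψ k s φ := by
  unfold NbP_T
  have hwk : w ^ k ≠ 0 := pow_ne_zero k hw
  have h := Fintype.sum_equiv (Equiv.mulRight₀ (w ^ k) hwk)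
    (fun α => NbP_S ψ k α ^ (s + 1) * ψ (-(α * (w ^ k * φ))))
    (fun α => NbP_S ψ k α ^ (s + 1) * ψ (-(α * φ))) (by
    intro α
    have h1 : (Equiv.mulRight₀ (w ^ k) hwk) α = α * w ^ k := rfl
    rw [h1, NbP_shift ψ k α w hw, mul_assoc])
  exact h

private theorem NbP_real (Q N : ℝ) (s : ℕ) :
    ‖(Q : ℂ) * (N : ℂ) - (Q : ℂ) ^ (s + 1)‖ = |Q| * |N - Q ^ s| := by
  have h1 : (Q : ℂ) * (N : ℂ) - (Q : ℂ) ^ (s + 1) = ((Q * (N - Q ^ s) : ℝ) : ℂ) := by
    push_cast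
    ring
  rw [h1, Complex.norm_real, Real.norm_eq_abs, abs_mul]

private theorem NbP_err {ψ : AddChar F ℂ} (hψ : ψ ≠ 1) (k : ℕ) (hk : 1 ≤ k) (α : F)
    (hα : α ≠ 0) :
    ‖NbP_S ψ k α‖ ≤ Real.sqrt (2 * (k : ℝ) ^ 2 * (Fintype.card F : ℝ)) :=
  Real.le_sqrt_of_sq_le (NbP_two hψ k hk α hα)

end NbPAux

open Classical in
theorem field_count {F : Type} [Field F] [Fintype F] (k s : ℕ) (hk : 1 ≤ k) (φ : F) :
    |((Finset.univ.filter (fun x : Fin (s + 1) → F => ∑ i, x i ^ k = φ)).card : ℝ) - (Fintype.card F : ℝ) ^ s|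
      ≤ Real.sqrt (2 * (k : ℝ) ^ 2 * (Fintype.card F : ℝ)) ^ (s + 1) := by
  obtain ⟨ψ, hψ⟩ := exists_char F
  have hQ2 : (2 : ℝ) ≤ (Fintype.card F : ℝ) := by
    have : 2 ≤ Fintype.card F := Fintype.one_lt_card
    exact_mod_cast this
  have hcard : ((Finset.univ.erase (0 : F)).card : ℝ) = (Fintype.card F : ℝ) - 1 := by
    rw [Finset.card_erase_of_mem (Finset.mem_univ _), Finset.card_univ,
      Nat.cast_sub (by have : 2 ≤ Fintype.card F := Fintype.one_lt_card; omega), Nat.cast_one]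
  have h1 := NbP_Tsplit ψ k s φ
  rw [← NbP_main hψ k s φ] at h1
  set N : ℕ := (Finset.univ.filter (fun x : Fin (s + 1) → F => ∑ i, x i ^ k = φ)).card with hN
  set B : ℝ := Real.sqrt (2 * (k : ℝ) ^ 2 * (Fintype.card F : ℝ)) with hB
  have hB0 : 0 ≤ B := Real.sqrt_nonneg _
  have h2 := NbP_real (Fintype.card F : ℝ) (N : ℝ) s
  rw [Complex.ofReal_natCast, Complex.ofReal_natCast, ← h1] at h2
  have h3 : ‖∑ α ∈ Finset.univ.erase (0 : F), NbP_S ψ k α ^ (s + 1) * ψ (-(α * φ))‖ ≤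
      ((Fintype.card F : ℝ) - 1) * B ^ (s + 1) := by
    refine (norm_sum_le _ _).trans ?_
    rw [← hcard, ← nsmul_eq_mul]
    refine Finset.sum_le_card_nsmul _ _ _ fun α hα => ?_
    rw [norm_mul, norm_char, mul_one, norm_pow]
    exact pow_le_pow_left₀ (norm_nonneg _)
      (NbP_err hψ k hk α (Finset.ne_of_mem_erase hα)) _
  rw [h2, abs_of_nonneg (by linarith)] at h3
  have h4 : (0 : ℝ) ≤ B ^ (s + 1) := pow_nonneg hB0 _
  have h5 : (Fintype.card F : ℝ) * |(N : ℝ) - (Fintype.card F : ℝ) ^ s| ≤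
      (Fintype.card F : ℝ) * B ^ (s + 1) := by nlinarith
  exact le_of_mul_le_mul_left h5 (by linarith)

open Classical in
theorem field_count_ne {F : Type} [Field F] [Fintype F] (k s : ℕ) (hk : 1 ≤ k) (φ : F) (hφ : φ ≠ 0) :
    |((Finset.univ.filter (fun x : Fin (s + 1) → F => ∑ i, x i ^ k = φ)).card : ℝ) - (Fintype.card F : ℝ) ^ s| *
        (Fintype.card F : ℝ)
      ≤ Real.sqrt (2 * (k : ℝ) ^ 2 * (Fintype.card F : ℝ)) ^ (s + 1) *
        (Real.sqrt (2 * (k : ℝ) ^ 2 * (Fintype.card F : ℝ)) + 1) := by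
  obtain ⟨ψ, hψ⟩ := exists_char F
  have hQ2 : (2 : ℝ) ≤ (Fintype.card F : ℝ) := by
    have : 2 ≤ Fintype.card F := Fintype.one_lt_card
    exact_mod_cast this
  have hcard : ((Finset.univ.erase (0 : F)).card : ℝ) = (Fintype.card F : ℝ) - 1 := by
    rw [Finset.card_erase_of_mem (Finset.mem_univ _), Finset.card_univ,
      Nat.cast_sub (by have : 2 ≤ Fintype.card F := Fintype.one_lt_card; omega), Nat.cast_one]
  have h0 := NbP_main hψ k s φ
  set N : ℕ := (Finset.univ.filter (fun x : Fin (s + 1) → F => ∑ i, x i ^ k = φ)).card with hN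
  set B : ℝ := Real.sqrt (2 * (k : ℝ) ^ 2 * (Fintype.card F : ℝ)) with hB
  have hB0 : 0 ≤ B := Real.sqrt_nonneg _
  -- sum over `w ≠ 0`
  have h1 : ∀ w ∈ Finset.univ.erase (0 : F),
      ∑ α ∈ Finset.univ.erase (0 : F), NbP_S ψ k α ^ (s + 1) * ψ (-(α * (w ^ k * φ))) =
        (Fintype.card F : ℂ) * (N : ℂ) - (Fintype.card F : ℂ) ^ (s + 1) := by
    intro w hw
    rw [NbP_Tsplit ψ k s (w ^ k * φ), NbP_Tshift ψ k s φ w (Finset.ne_of_mem_erase hw), h0]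
  have h2 : ∑ w ∈ Finset.univ.erase (0 : F), ∑ α ∈ Finset.univ.erase (0 : F),
      NbP_S ψ k α ^ (s + 1) * ψ (-(α * (w ^ k * φ))) =
      ((Finset.univ.erase (0 : F)).card : ℂ) *
        ((Fintype.card F : ℂ) * (N : ℂ) - (Fintype.card F : ℂ) ^ (s + 1)) := by
    rw [Finset.sum_congr rfl h1, Finset.sum_const, nsmul_eq_mul]
  rw [Finset.sum_comm] at h2
  have h3 : ∀ α : F, ∑ w ∈ Finset.univ.erase (0 : F),
      NbP_S ψ k α ^ (s + 1) * ψ (-(α * (w ^ k * φ))) =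
      NbP_S ψ k α ^ (s + 1) * (NbP_S ψ k (-(α * φ)) - 1) := by
    intro α
    rw [← Finset.mul_sum]
    congr 1
    have h4 := Finset.sum_erase_add (s := Finset.univ)
      (f := fun w : F => ψ (-(α * φ) * w ^ k)) (Finset.mem_univ (0 : F))
    rw [zero_pow (by omega : k ≠ 0), mul_zero, AddChar.map_zero_eq_one] at h4
    rw [eq_sub_iff_add_eq]
    unfold NbP_S
    rw [← h4]
    congr 1
    apply Finset.sum_congr rfl
    intro w _
    congr 1
    ring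
  rw [Finset.sum_congr rfl (fun α _ => h3 α)] at h2
  have h5 : ‖∑ α ∈ Finset.univ.erase (0 : F),
      NbP_S ψ k α ^ (s + 1) * (NbP_S ψ k (-(α * φ)) - 1)‖ ≤
      ((Finset.univ.erase (0 : F)).card : ℝ) * (B ^ (s + 1) * (B + 1)) := by
    refine (norm_sum_le _ _).trans ?_
    rw [← nsmul_eq_mul]
    refine Finset.sum_le_card_nsmul _ _ _ fun α hα => ?_
    have hα0 := Finset.ne_of_mem_erase hα
    rw [norm_mul, norm_pow]
    refine mul_le_mul (pow_le_pow_left₀ (norm_nonneg _) (NbP_err hψ k hk α hα0) _) ?_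
      (norm_nonneg _) (pow_nonneg hB0 _)
    refine (norm_sub_le _ _).trans ?_
    rw [norm_one]
    have := NbP_err hψ k hk (-(α * φ)) (neg_ne_zero.2 (mul_ne_zero hα0 hφ))
    linarith
  rw [h2, norm_mul] at h5
  have h6 := NbP_real (Fintype.card F : ℝ) (N : ℝ) s
  rw [Complex.ofReal_natCast, Complex.ofReal_natCast] at h6
  rw [h6, Complex.norm_natCast, abs_of_nonneg (by linarith)] at h5
  have h7 : (0 : ℝ) < ((Finset.univ.erase (0 : F)).card : ℝ) := by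
    rw [hcard]
    linarith
  have h8 := le_of_mul_le_mul_left h5 h7
  rw [mul_comm]
  exact h8

end MP_570bef_ntG
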