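import Pool.Agent.Lib.MP_570bef_ntG.Bas
import Pool.Agent.Lib.MP_570bef_ntG.NbP

/-! JOB NbQ.  The local density modulo a prime.  `v` monic irreducible, `d = natDegree v ≥ 1`, `Q := q^d`, `k ≥ 3`.

`NB_field`: residue field `F_v := AdjoinRoot v` (`Fact (Irreducible v)`; finite of cardinality `q^d`: `AdjoinRoot.powerBasis`, `PowerBasis.finrank`, `Module.card_eq_pow_finrank`; or: the bijection below).  The map `RR K d → AdjoinRoot v`, `x ↦ mk v x` is bijective (injective: `RR_eq`, `AdjoinRoot.mk_eq_mk`; surjective: `mk_surjective`, replace by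
`x %ₘ v`), so `NB k s v F` is the number of `x : Fin s → F_v` with `∑ x_i^k = mk v F` (`AdjoinRoot.mk_eq_zero`) and `card F_v = (RR K d).card = q^d`.  State it existentially, as below.
`nu_prime`: `field_count` (`s := k`): `|NB - Q^k| ≤ B^(k+1)`, `B = √(2k²Q) = √(2k²) √Q ≤ 2k² √Q` (`√x ≤ x` for `x ≥ 1`), so `|nu - 1| = |NB - Q^k| / Q^k ≤ (2k²)^(k+1) (√Q)^(k+1) / Q^k ≤ (2k²)^(k+1) (√Q)^(2k-2) / Q^k = (2k²)^(k+1)/Q ≤ D3 k / Q` because `k + 1 ≤ 2k - 2`, `√Q ≥ 1`, `(√Q)^2 = Q`.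
`nu_prime_ne`: `field_count_ne`: `|NB - Q^k| Q ≤ B^(k+1) (B + 1) ≤ 2 B^(k+2) ≤ 2 (2k²)^(k+2) (√Q)^(k+2) = D3 k (√Q)^(k+2)` (`B ≥ 1`), so with `t := √Q ≥ 1`, `Q = t²`: `|nu - 1| ≤ D3 k t^(k+2) / t^(2k+2) = D3 k / t^k ≤ D3 k / t^3 = D3 k / (Q √Q)`. -/

open Polynomial MP_570bef_ntF MP_1ad228_ntD

namespace MP_570bef_ntG

variable {K : Type} [Field K] [Fintype K]

private theorem NbQ_B (k : ℕ) (hk : 3 ≤ k) (Q : ℝ) (hQ : 1 ≤ Q) :
    1 ≤ Real.sqrt (2 * (k : ℝ) ^ 2 * Q) ∧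
      Real.sqrt (2 * (k : ℝ) ^ 2 * Q) ≤ 2 * (k : ℝ) ^ 2 * Real.sqrt Q := by
  have hk1 : (3 : ℝ) ≤ k := by exact_mod_cast hk
  have hA : (1 : ℝ) ≤ 2 * (k : ℝ) ^ 2 := by nlinarith
  constructor
  · rw [Real.one_le_sqrt]
    nlinarith
  · rw [Real.sqrt_mul (by positivity)]
    refine mul_le_mul_of_nonneg_right ?_ (Real.sqrt_nonneg Q)
    rw [Real.sqrt_le_left (by positivity)]
    nlinarith

private theorem NbQ_a (k : ℕ) (hk : 3 ≤ k) (N Q : ℝ) (hQ : 1 ≤ Q)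
    (h : |N - Q ^ k| ≤ Real.sqrt (2 * (k : ℝ) ^ 2 * Q) ^ (k + 1)) :
    |N / Q ^ k - 1| ≤ (D3 k : ℝ) / Q := by
  obtain ⟨hB1, hB2⟩ := NbQ_B k hk Q hQ
  have hk1 : (3 : ℝ) ≤ k := by exact_mod_cast hk
  have hA : (1 : ℝ) ≤ 2 * (k : ℝ) ^ 2 := by nlinarith
  have hQ0 : 0 < Q := by linarith
  set t := Real.sqrt Q with ht
  have ht1 : 1 ≤ t := by rw [ht, Real.one_le_sqrt]; exact hQ
  have htQ : t ^ 2 = Q := Real.sq_sqrt hQ0.le
  have hQk : 0 < Q ^ k := pow_pos hQ0 k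
  have h1 : N / Q ^ k - 1 = (N - Q ^ k) / Q ^ k := by field_simp
  rw [h1, abs_div, abs_of_pos hQk, div_le_div_iff₀ hQk hQ0]
  have hD : (D3 k : ℝ) = 2 * (2 * (k : ℝ) ^ 2) ^ (k + 2) := by
    unfold D3
    push_cast
    ring
  have h2 : |N - Q ^ k| ≤ (2 * (k : ℝ) ^ 2) ^ (k + 1) * t ^ (k + 1) := by
    rw [← mul_pow]
    exact h.trans (pow_le_pow_left₀ (by positivity) hB2 _)
  have h3 : |N - Q ^ k| * Q ≤ (2 * (k : ℝ) ^ 2) ^ (k + 1) * t ^ (k + 1) * t ^ 2 := by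
    rw [htQ]
    exact mul_le_mul_of_nonneg_right h2 hQ0.le
  have h4 : t ^ (k + 3) ≤ Q ^ k := by
    rw [← htQ, ← pow_mul]
    exact pow_le_pow_right₀ ht1 (by omega)
  have h5 : (2 * (k : ℝ) ^ 2) ^ (k + 1) ≤ (2 * (k : ℝ) ^ 2) ^ (k + 2) :=
    pow_le_pow_right₀ hA (by omega)
  have h6 : (0 : ℝ) ≤ (2 * (k : ℝ) ^ 2) ^ (k + 2) := by positivity
  calc |N - Q ^ k| * Q ≤ (2 * (k : ℝ) ^ 2) ^ (k + 1) * t ^ (k + 1) * t ^ 2 := h3
    _ = (2 * (k : ℝ) ^ 2) ^ (k + 1) * t ^ (k + 3) := by ring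
    _ ≤ (2 * (k : ℝ) ^ 2) ^ (k + 2) * Q ^ k :=
      mul_le_mul h5 h4 (by positivity) h6
    _ ≤ (D3 k : ℝ) * Q ^ k := by
      refine mul_le_mul_of_nonneg_right ?_ hQk.le
      rw [hD]
      linarith

private theorem NbQ_b (k : ℕ) (hk : 3 ≤ k) (N Q : ℝ) (hQ : 1 ≤ Q)
    (h : |N - Q ^ k| * Q ≤ Real.sqrt (2 * (k : ℝ) ^ 2 * Q) ^ (k + 1) *
      (Real.sqrt (2 * (k : ℝ) ^ 2 * Q) + 1)) :
    |N / Q ^ k - 1| ≤ (D3 k : ℝ) / (Q * Real.sqrt Q) := by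
  obtain ⟨hB1, hB2⟩ := NbQ_B k hk Q hQ
  have hk1 : (3 : ℝ) ≤ k := by exact_mod_cast hk
  have hA : (1 : ℝ) ≤ 2 * (k : ℝ) ^ 2 := by nlinarith
  have hQ0 : 0 < Q := by linarith
  set B := Real.sqrt (2 * (k : ℝ) ^ 2 * Q) with hB
  set t := Real.sqrt Q with ht
  have ht1 : 1 ≤ t := by rw [ht, Real.one_le_sqrt]; exact hQ
  have htQ : t ^ 2 = Q := Real.sq_sqrt hQ0.le
  have hQk : 0 < Q ^ k := pow_pos hQ0 k
  have h1 : N / Q ^ k - 1 = (N - Q ^ k) / Q ^ k := by field_simp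
  rw [h1, abs_div, abs_of_pos hQk, div_le_div_iff₀ hQk (by positivity)]
  have hD : (D3 k : ℝ) = 2 * (2 * (k : ℝ) ^ 2) ^ (k + 2) := by
    unfold D3
    push_cast
    ring
  have h2 : |N - Q ^ k| * Q ≤ (D3 k : ℝ) * t ^ (k + 2) := by
    have h3 : B ^ (k + 1) * (B + 1) ≤ 2 * B ^ (k + 2) := by
      have h4 : B ^ (k + 2) = B ^ (k + 1) * B := by ring
      have h5 : 0 ≤ B ^ (k + 1) := by positivity
      nlinarith
    have h6 : B ^ (k + 2) ≤ (2 * (k : ℝ) ^ 2 * t) ^ (k + 2) :=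
      pow_le_pow_left₀ (by positivity) hB2 _
    rw [mul_pow] at h6
    rw [hD]
    linarith
  have h4 : t ^ (k + 2) * t ≤ Q ^ k := by
    rw [← htQ, ← pow_mul, ← pow_succ]
    exact pow_le_pow_right₀ ht1 (by omega)
  have hD0 : (0 : ℝ) ≤ (D3 k : ℝ) := Nat.cast_nonneg _
  calc |N - Q ^ k| * (Q * t) = (|N - Q ^ k| * Q) * t := by ring
    _ ≤ ((D3 k : ℝ) * t ^ (k + 2)) * t := mul_le_mul_of_nonneg_right h2 (by positivity)
    _ = (D3 k : ℝ) * (t ^ (k + 2) * t) := by ring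
    _ ≤ (D3 k : ℝ) * Q ^ k := mul_le_mul_of_nonneg_left h4 hD0

open Classical in
theorem NB_field (k s : ℕ) (v F : K[X]) (hv : Irreducible v) (hm : v.Monic) :
    ∃ (L : Type) (_ : Field L) (_ : Fintype L) (φ : L), Fintype.card L = Fintype.card K ^ v.natDegree ∧
      (¬ v ∣ F → φ ≠ 0) ∧
      NB k s v F = (Finset.univ.filter (fun x : Fin s → L => ∑ i, x i ^ k = φ)).card := by
  have : Fact (Irreducible v) := ⟨hv⟩
  have hfb : Function.Bijective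
      (fun x : {x : K[X] // x ∈ RR K v.natDegree} => AdjoinRoot.mk v (x : K[X])) := by
    constructor
    · intro x y hxy
      apply Subtype.ext
      exact RR_eq hm x.2 y.2 (AdjoinRoot.mk_eq_mk.1 hxy)
    · intro z
      obtain ⟨y, rfl⟩ := AdjoinRoot.mk_surjective z
      refine ⟨⟨y %ₘ v, mod_mem_RR hm y⟩, ?_⟩
      exact (AdjoinRoot.mk_eq_mk.2 (RR_mod hm y)).symm
  let i0 : Fintype (AdjoinRoot v) := Fintype.ofBijective _ hfb
  refine ⟨AdjoinRoot v, inferInstance, i0, AdjoinRoot.mk v F, ?_, ?_, ?_⟩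
  · have h1 := Fintype.card_of_bijective hfb
    rw [← h1, Fintype.card_coe, card_RR]
  · intro h1 h2
    exact h1 (AdjoinRoot.mk_eq_zero.1 h2)
  · unfold NB
    refine Finset.card_bij (fun x _ => fun i => AdjoinRoot.mk v (x i)) ?_ ?_ ?_
    · intro x hx
      rw [Finset.mem_filter] at hx ⊢
      refine ⟨Finset.mem_univ _, ?_⟩
      have h1 := AdjoinRoot.mk_eq_mk.2 hx.2
      rw [map_sum] at h1
      rw [← h1]
      refine Finset.sum_congr rfl fun i _ => ?_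
      rw [map_pow]
    · intro x hx y hy hxy
      rw [Finset.mem_filter, Fintype.mem_piFinset] at hx hy
      funext i
      exact RR_eq hm (hx.1 i) (hy.1 i) (AdjoinRoot.mk_eq_mk.1 (congrFun hxy i))
    · intro z hz
      rw [Finset.mem_filter] at hz
      choose y hy using fun i => AdjoinRoot.mk_surjective (z i)
      have h2 : ∀ i, AdjoinRoot.mk v (y i %ₘ v) = z i := by
        intro i
        rw [← hy i]
        exact (AdjoinRoot.mk_eq_mk.2 (RR_mod hm (y i))).symm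
      refine ⟨fun i => y i %ₘ v, ?_, funext h2⟩
      rw [Finset.mem_filter, Fintype.mem_piFinset]
      refine ⟨fun i => mod_mem_RR hm (y i), ?_⟩
      rw [← AdjoinRoot.mk_eq_mk, map_sum, ← hz.2]
      refine Finset.sum_congr rfl fun i _ => ?_
      rw [map_pow, h2 i]

theorem nu_prime (k : ℕ) (hk : 3 ≤ k) (v F : K[X]) (hv : Irreducible v) (hm : v.Monic) :
    |nu k v F - 1| ≤ (D3 k : ℝ) / (Fintype.card K : ℝ) ^ v.natDegree := by
  classical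
  obtain ⟨L, i1, i2, φ, hc, -, hN⟩ := NB_field k (k + 1) v F hv hm
  have h1 := field_count (F := L) k k (by omega) φ
  have hQ : ((Fintype.card L : ℕ) : ℝ) = (Fintype.card K : ℝ) ^ v.natDegree := by
    rw [hc, Nat.cast_pow]
  have hN' : (NB k (k + 1) v F : ℝ) =
      ((Finset.univ.filter (fun x : Fin (k + 1) → L => ∑ i, x i ^ k = φ)).card : ℝ) := by
    rw [hN]
  rw [hQ, ← hN'] at h1
  have hQ1 : (1 : ℝ) ≤ (Fintype.card K : ℝ) ^ v.natDegree := one_le_pow₀ one_le_q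
  exact NbQ_a k hk _ _ hQ1 h1

theorem nu_prime_ne (k : ℕ) (hk : 3 ≤ k) (v F : K[X]) (hv : Irreducible v) (hm : v.Monic) (hF : ¬ v ∣ F) :
    |nu k v F - 1| ≤ (D3 k : ℝ) /
      ((Fintype.card K : ℝ) ^ v.natDegree * Real.sqrt ((Fintype.card K : ℝ) ^ v.natDegree)) := by
  classical
  obtain ⟨L, i1, i2, φ, hc, hφ, hN⟩ := NB_field k (k + 1) v F hv hm
  have h1 := field_count_ne (F := L) k k (by omega) φ (hφ hF)
  have hQ : ((Fintype.card L : ℕ) : ℝ) = (Fintype.card K : ℝ) ^ v.natDegree := by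
    rw [hc, Nat.cast_pow]
  have hN' : (NB k (k + 1) v F : ℝ) =
      ((Finset.univ.filter (fun x : Fin (k + 1) → L => ∑ i, x i ^ k = φ)).card : ℝ) := by
    rw [hN]
  rw [hQ, ← hN'] at h1
  have hQ1 : (1 : ℝ) ≤ (Fintype.card K : ℝ) ^ v.natDegree := one_le_pow₀ one_le_q
  exact NbQ_b k hk _ _ hQ1 h1

end MP_570bef_ntG
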