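import Pool.Agent.Lib.MP_570bef_ntG.SgN
import Pool.Agent.Lib.MP_570bef_ntG.NbQ

/-! JOB LoS.  `∑_{e=1}^{e1} |nu (v^e) F - nu (v^(e-1)) F| ≤ D3/(Q√Q) + [v ∣ F] D4/Q`, `Q := q^(natDegree v) ≥ q ≥ 2 D4 k`, `k ≥ 3`.

Strong induction on `e1`, for all `F`.  `e1 = 0`: empty sum, the bound is nonnegative.
Term `e = 1`: `nu (v^1) - nu (v^0) = nu v - 1` (`pow_one`, `pow_zero`, `nu_one`).
Case `¬ v ∣ F`: the terms `e ≥ 2` vanish (`diff_ndvd`), the first is `≤ D3/(Q√Q)` (`nu_prime_ne`).
Case `v ∣ F`: split `Icc 1 e1`: `e = 1`: `≤ D3/Q` (`nu_prime`).  `2 ≤ e ≤ k`: `diff_small`: `∑_{e=2}^{k} Q^(-(k+1-e)) = ∑_{i=1}^{k-1} Q^(-i) ≤ 2/Q` (geometric, `Q ≥ 2`).  `e > k`: if `¬ v^k ∣ F` they vanish (`diff_large_zero`); if `F = v^k F'` their sum is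
`(1/Q) ∑_{e'=1}^{e1-k} |nu (v^e') F' - nu (v^(e'-1)) F'|` (`diff_large`, shift `e = e' + k`: `Finset.sum_bij`/`Finset.sum_Ioc..`; it is enough to have `≤`) `≤ (1/Q) (D3/(Q√Q) + D4/Q) ≤ (1/Q) * (2 D4/Q) ≤ 1/Q` by the induction hypothesis for `e1 - k < e1` (`√Q ≥ 1`, `D3 ≤ D4`, `2 D4 ≤ Q`).
Total `≤ (D3 + 2 + 1)/Q = D4/Q`. -/

open Polynomial MP_570bef_ntF MP_1ad228_ntD

namespace MP_570bef_ntG

variable {K : Type} [Field K] [Fintype K]

private theorem LoS_geo (Q : ℝ) (hQ : 2 ≤ Q) (k : ℕ) : ∑ e ∈ Finset.Icc 2 k, 1 / Q ^ (k + 1 - e) ≤ 2 / Q := by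
  have hQ0 : 0 < Q := by linarith
  induction k with
  | zero =>
    have h : Finset.Icc 2 0 = (∅ : Finset ℕ) := rfl
    rw [h, Finset.sum_empty]
    positivity
  | succ k ih =>
    by_cases hk : 1 ≤ k
    · rw [Finset.sum_Icc_succ_top (by omega : 2 ≤ k + 1)]
      have h1 : ∑ e ∈ Finset.Icc 2 k, 1 / Q ^ (k + 1 + 1 - e) = (1 / Q) * ∑ e ∈ Finset.Icc 2 k, 1 / Q ^ (k + 1 - e) := by
        rw [Finset.mul_sum]
        refine Finset.sum_congr rfl fun e he => ?_
        rw [Finset.mem_Icc] at he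
        have h2 : k + 1 + 1 - e = (k + 1 - e) + 1 := by omega
        rw [h2, pow_succ, one_div_mul_one_div, mul_comm Q]
      rw [h1]
      have h3 : k + 1 + 1 - (k + 1) = 1 := by omega
      rw [h3, pow_one]
      have h4 : (1 / Q) * ∑ e ∈ Finset.Icc 2 k, 1 / Q ^ (k + 1 - e) ≤ (1 / Q) * (2 / Q) :=
        mul_le_mul_of_nonneg_left ih (by positivity)
      have h5 : 2 / Q ≤ 1 := by
        rw [div_le_one hQ0]
        exact hQ
      have h6 : (1 / Q) * (2 / Q) ≤ (1 / Q) * 1 := mul_le_mul_of_nonneg_left h5 (by positivity)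
      have h7 : 2 / Q = (1 / Q) * 1 + 1 / Q := by ring
      rw [h7]
      linarith
    · have h : Finset.Icc 2 (k + 1) = (∅ : Finset ℕ) := by
        rw [Finset.Icc_eq_empty]
        omega
      rw [h, Finset.sum_empty]
      positivity

open Classical in
theorem local_sum (k : ℕ) (hk : 3 ≤ k) (hkK : (k : K) ≠ 0) (hq : 2 * D4 k ≤ Fintype.card K) (v : K[X])
    (hv : Irreducible v) (hm : v.Monic) (e1 : ℕ) (F : K[X]) :
    ∑ e ∈ Finset.Icc 1 e1, |nu k (v ^ e) F - nu k (v ^ (e - 1)) F| ≤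
      (D3 k : ℝ) / ((Fintype.card K : ℝ) ^ v.natDegree * Real.sqrt ((Fintype.card K : ℝ) ^ v.natDegree)) +
        (if v ∣ F then (D4 k : ℝ) / (Fintype.card K : ℝ) ^ v.natDegree else 0) := by
  have hq1 : (1 : ℝ) ≤ (Fintype.card K : ℝ) := one_le_q
  have hd : 1 ≤ v.natDegree := hv.natDegree_pos
  have hQq : (Fintype.card K : ℝ) ≤ (Fintype.card K : ℝ) ^ v.natDegree := le_self_pow₀ hq1 (by omega)
  have hq' : (2 : ℝ) * (D4 k : ℝ) ≤ (Fintype.card K : ℝ) := by exact_mod_cast hq
  have hD4 : (D4 k : ℝ) = (D3 k : ℝ) + 3 := by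
    unfold D4
    push_cast
    ring
  have hD3 : (0 : ℝ) ≤ (D3 k : ℝ) := Nat.cast_nonneg _
  have hdl := diff_large (K := K) k
  have hdn := diff_ndvd (K := K) k
  have hds := diff_small (K := K) k
  have hdz := diff_large_zero (K := K) k
  have hnp := fun F => nu_prime (K := K) k hk v F hv hm
  have hnn := fun F => nu_prime_ne (K := K) k hk v F hv hm
  have hQ2 : (2 : ℝ) * (D4 k : ℝ) ≤ (Fintype.card K : ℝ) ^ v.natDegree := le_trans hq' hQq
  have hsum0 : ∀ (Q : ℝ), 0 < Q → ∀ F : K[X], 0 ≤ (D3 k : ℝ) / (Q * Real.sqrt Q) + (if v ∣ F then (D4 k : ℝ) / Q else 0) := by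
    intro Q hQ F
    have h1 : 0 ≤ (D3 k : ℝ) / (Q * Real.sqrt Q) := by positivity
    have h2 : 0 ≤ (if v ∣ F then (D4 k : ℝ) / Q else 0) := by
      split_ifs
      · positivity
      · exact le_rfl
    linarith
  have hterm : ∀ F : K[X], nu k (v ^ 1) F - nu k (v ^ (1 - 1)) F = nu k v F - 1 := by
    intro F
    rw [pow_one, Nat.sub_self, pow_zero, nu_one]
  induction e1 using Nat.strong_induction_on generalizing F with
  | _ e1 ih =>
    have hdl' : ∀ e, 2 ≤ e → k < e → ∀ F' : K[X], nu k (v ^ e) (v ^ k * F') - nu k (v ^ (e - 1)) (v ^ k * F') =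
      (nu k (v ^ (e - k)) F' - nu k (v ^ (e - k - 1)) F') / (Fintype.card K : ℝ) ^ v.natDegree :=
      fun e he hek F' => hdl e (by omega) hkK he hek v F' hv hm
    have hds' : ∀ e, 2 ≤ e → e ≤ k → |nu k (v ^ e) F - nu k (v ^ (e - 1)) F| ≤
      1 / ((Fintype.card K : ℝ) ^ v.natDegree) ^ (k + 1 - e) :=
      fun e he hek => hds e (by omega) hkK he hek v F hv hm
    have hnp' := hnp F
    have hnn' := hnn F
    generalize (Fintype.card K : ℝ) ^ v.natDegree = Q at *
    have hQ0 : 0 < Q := by linarith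
    have hQge : 2 ≤ Q := by linarith
    have hsq : 1 ≤ Real.sqrt Q := by
      rw [Real.one_le_sqrt]
      linarith
    by_cases he0 : e1 = 0
    · subst he0
      have h : Finset.Icc 1 0 = (∅ : Finset ℕ) := rfl
      rw [h, Finset.sum_empty]
      exact hsum0 Q hQ0 F
    by_cases hF : v ∣ F
    · -- the case v divides F
      rw [if_pos hF]
      have hsub : Finset.Icc 1 e1 ⊆ ({1} ∪ Finset.Icc 2 k) ∪ Finset.Icc (k + 1) e1 := by
        intro e he
        rw [Finset.mem_Icc] at he
        rw [Finset.mem_union, Finset.mem_union, Finset.mem_singleton, Finset.mem_Icc, Finset.mem_Icc]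
        omega
      have hd1 : Disjoint ({1} : Finset ℕ) (Finset.Icc 2 k) := by
        rw [Finset.disjoint_left]
        intro e he he2
        rw [Finset.mem_singleton] at he
        rw [Finset.mem_Icc] at he2
        omega
      have hd2 : Disjoint (({1} : Finset ℕ) ∪ Finset.Icc 2 k) (Finset.Icc (k + 1) e1) := by
        rw [Finset.disjoint_left]
        intro e he he2
        rw [Finset.mem_union, Finset.mem_singleton, Finset.mem_Icc] at he
        rw [Finset.mem_Icc] at he2
        omega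
      have h1 : ∑ e ∈ Finset.Icc 1 e1, |nu k (v ^ e) F - nu k (v ^ (e - 1)) F| ≤
          (|nu k v F - 1| + ∑ e ∈ Finset.Icc 2 k, |nu k (v ^ e) F - nu k (v ^ (e - 1)) F|) +
            ∑ e ∈ Finset.Icc (k + 1) e1, |nu k (v ^ e) F - nu k (v ^ (e - 1)) F| := by
        refine le_trans (Finset.sum_le_sum_of_subset_of_nonneg hsub (fun _ _ _ => abs_nonneg _)) ?_
        rw [Finset.sum_union hd2, Finset.sum_union hd1, Finset.sum_singleton, hterm F]
      have h2 : ∑ e ∈ Finset.Icc 2 k, |nu k (v ^ e) F - nu k (v ^ (e - 1)) F| ≤ 2 / Q := by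
        refine le_trans (Finset.sum_le_sum (g := fun e => 1 / Q ^ (k + 1 - e)) ?_) (LoS_geo Q hQge k)
        intro e he
        rw [Finset.mem_Icc] at he
        exact hds' e he.1 he.2
      have h3 : ∑ e ∈ Finset.Icc (k + 1) e1, |nu k (v ^ e) F - nu k (v ^ (e - 1)) F| ≤ 1 / Q := by
        by_cases hFk : v ^ k ∣ F
        · obtain ⟨F', rfl⟩ := hFk
          have h4 : ∑ e ∈ Finset.Icc (k + 1) e1, |nu k (v ^ e) (v ^ k * F') - nu k (v ^ (e - 1)) (v ^ k * F')| =
              (∑ e ∈ Finset.Icc 1 (e1 - k), |nu k (v ^ e) F' - nu k (v ^ (e - 1)) F'|) / Q := by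
            rw [Finset.sum_div]
            refine Finset.sum_nbij' (fun e => e - k) (fun e => e + k) ?_ ?_ ?_ ?_ ?_
            · intro e he
              rw [Finset.mem_Icc] at he ⊢
              omega
            · intro e he
              rw [Finset.mem_Icc] at he ⊢
              omega
            · intro e he
              rw [Finset.mem_Icc] at he
              show e - k + k = e
              omega
            · intro e he
              show e + k - k = e
              omega
            · intro e he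
              rw [Finset.mem_Icc] at he
              show _ = |nu k (v ^ (e - k)) F' - nu k (v ^ (e - k - 1)) F'| / Q
              rw [hdl' e (by omega) (by omega) F', abs_div, abs_of_pos hQ0]
          rw [h4]
          have h5 := ih (e1 - k) (by omega) F'
          have h6 : (D3 k : ℝ) / (Q * Real.sqrt Q) ≤ (D4 k : ℝ) / Q := by
            refine le_trans (b := (D3 k : ℝ) / Q) ?_ ?_
            · exact div_le_div_of_nonneg_left hD3 hQ0 (le_mul_of_one_le_right hQ0.le hsq)
            · exact div_le_div_of_nonneg_right (by linarith) hQ0.le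
          have h7 : (if v ∣ F' then (D4 k : ℝ) / Q else 0) ≤ (D4 k : ℝ) / Q := by
            split_ifs
            · exact le_rfl
            · positivity
          have h8 : (D4 k : ℝ) / Q + (D4 k : ℝ) / Q ≤ 1 := by
            rw [← add_div, div_le_one hQ0]
            linarith
          exact div_le_div_of_nonneg_right (by linarith) hQ0.le
        · rw [Finset.sum_eq_zero]
          · positivity
          · intro e he
            rw [Finset.mem_Icc] at he
            rw [hdz e (by omega) hkK (by omega) (by omega) v F hv hm hFk, abs_zero]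
      have h9 : (D4 k : ℝ) / Q = (D3 k : ℝ) / Q + 2 / Q + 1 / Q := by
        rw [hD4]
        ring
      have h10 : 0 ≤ (D3 k : ℝ) / (Q * Real.sqrt Q) := by positivity
      rw [h9]
      linarith
    · rw [if_neg hF, add_zero]
      have hsub : Finset.Icc 1 e1 = {1} ∪ Finset.Icc 2 e1 := by
        ext e
        rw [Finset.mem_union, Finset.mem_singleton, Finset.mem_Icc, Finset.mem_Icc]
        omega
      have hd1 : Disjoint ({1} : Finset ℕ) (Finset.Icc 2 e1) := by
        rw [Finset.disjoint_left]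
        intro e he he2
        rw [Finset.mem_singleton] at he
        rw [Finset.mem_Icc] at he2
        omega
      rw [hsub, Finset.sum_union hd1, Finset.sum_singleton, hterm F]
      have h2 : ∑ e ∈ Finset.Icc 2 e1, |nu k (v ^ e) F - nu k (v ^ (e - 1)) F| = 0 := by
        refine Finset.sum_eq_zero fun e he => ?_
        rw [Finset.mem_Icc] at he
        rw [hdn e (by omega) hkK he.1 v F hv hm hF, abs_zero]
      rw [h2, add_zero]
      exact hnn' hF

end MP_570bef_ntG
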