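import Pool.Agent.Lib.MP_570bef_ntG.Bas
import Pool.Agent.Lib.MP_570bef_ntG.NbP

/-! JOB LocG.  Every element is a sum of `k + 1 ≥ 3` `k`-th powers, not all zero, over a field with `≥ 16 k^6` elements.

`loc_fin`: if `φ = 0` this is `iso3` (MP_1ad228_ntD/Iso) with `a = b = c = 1`.  If `φ ≠ 0` let `N` be the number of solutions of `∑_{i<3} x_i^k = φ` (`field_count` with `s = 2`): `N ≥ Q² - B³` with `B = √(2k²Q)`, `B^6 = 8 k^6 Q³ < Q⁴` (because `Q ≥ 16 k^6`, `k ≥ 1`), so `B³ < Q²` and `N > 0`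
(`abs_lt`, `pow_lt_pow_left` backwards with squares); a solution `x : Fin 3 → F` is not zero because `φ ≠ 0` (`k ≥ 1`); `Fin.sum_univ_three`.
`loc_pi`: residue field `AdjoinRoot π` exactly as in `LcP_res` of MP_1ad228_ntD/LcP.lean (finite, at least `card K` elements), `loc_fin` for the class of `F`; lift to `X, Y, Z`; put `u 0 = X`, `u 1 = Y`, `u 2 = Z`, `u i = 0` else (`Fin (k+1)`, `k ≥ 2`; e.g. `u i = if i.val = 0 then X else if i.val = 1 then Y else if i.val = 2 then Z else 0`,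
compare `LcP_sum`); `π ∣ X^k + Y^k + Z^k - F` by `AdjoinRoot.mk_eq_zero`.
`loc_inf`: the same for the field `K` itself. -/

open Polynomial MP_570bef_ntF MP_1ad228_ntD

namespace MP_570bef_ntG

theorem loc_fin {F : Type} [Field F] [Fintype F] (k : ℕ) (hk : 1 ≤ k) (hQ : 16 * k ^ 6 ≤ Fintype.card F) (φ : F) :
    ∃ x y z : F, (x ≠ 0 ∨ y ≠ 0 ∨ z ≠ 0) ∧ x ^ k + y ^ k + z ^ k = φ := by
  classical
  by_cases hφ : φ = 0
  · obtain ⟨x, y, z, h1, h2⟩ := iso3 k hk hQ (1 : F) 1 1 one_ne_zero one_ne_zero one_ne_zero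
    refine ⟨x, y, z, h1, ?_⟩
    rw [one_mul, one_mul, one_mul] at h2
    rw [h2, hφ]
  · have h1 := field_count k 2 hk φ
    set N := (Finset.univ.filter (fun x : Fin (2 + 1) → F => ∑ i, x i ^ k = φ)).card with hN
    have hpos : N ≠ 0 := by
      intro h0
      rw [h0, Nat.cast_zero, zero_sub, abs_neg] at h1
      set Q : ℝ := (Fintype.card F : ℝ) with hQd
      have hQ1 : 16 * (k : ℝ) ^ 6 ≤ Q := by
        rw [hQd]
        exact_mod_cast hQ
      have hk1 : (1 : ℝ) ≤ k := by exact_mod_cast hk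
      have hk6 : (1 : ℝ) ≤ (k : ℝ) ^ 6 := one_le_pow₀ hk1
      have hQ0 : 0 < Q := by linarith
      have h2 : Q ^ 2 ≤ Real.sqrt (2 * (k : ℝ) ^ 2 * Q) ^ (2 + 1) := (le_abs_self _).trans h1
      have h3 : (Q ^ 2) ^ 2 ≤ (Real.sqrt (2 * (k : ℝ) ^ 2 * Q) ^ (2 + 1)) ^ 2 :=
        pow_le_pow_left₀ (by positivity) h2 2
      have h4 : (Real.sqrt (2 * (k : ℝ) ^ 2 * Q) ^ (2 + 1)) ^ 2 = 8 * (k : ℝ) ^ 6 * Q ^ 3 := by
        have h5 : Real.sqrt (2 * (k : ℝ) ^ 2 * Q) ^ 2 = 2 * (k : ℝ) ^ 2 * Q :=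
          Real.sq_sqrt (by positivity)
        calc (Real.sqrt (2 * (k : ℝ) ^ 2 * Q) ^ (2 + 1)) ^ 2
            = (Real.sqrt (2 * (k : ℝ) ^ 2 * Q) ^ 2) ^ 3 := by ring
          _ = 8 * (k : ℝ) ^ 6 * Q ^ 3 := by rw [h5]; ring
      rw [h4] at h3
      have h6 : Q * Q ^ 3 ≤ 8 * (k : ℝ) ^ 6 * Q ^ 3 := by
        calc Q * Q ^ 3 = (Q ^ 2) ^ 2 := by ring
          _ ≤ _ := h3
      have h7 : Q ≤ 8 * (k : ℝ) ^ 6 := le_of_mul_le_mul_right h6 (by positivity)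
      linarith
    obtain ⟨x, hx⟩ := Finset.card_ne_zero.1 hpos
    rw [Finset.mem_filter] at hx
    have h2 := hx.2
    rw [Fin.sum_univ_three] at h2
    refine ⟨x 0, x 1, x 2, ?_, h2⟩
    by_contra hc
    push Not at hc
    apply hφ
    rw [← h2, hc.1, hc.2.1, hc.2.2, zero_pow (by omega)]
    simp

private theorem LocG_sum {A : Type} [CommRing A] {s : ℕ} (k : ℕ) (hk : 1 ≤ k) (i1 i2 i3 : Fin s) (h12 : i1 ≠ i2)
    (h13 : i1 ≠ i3) (h23 : i2 ≠ i3) (X Y Z : A) :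
    ∑ i, (if i = i1 then X else if i = i2 then Y else if i = i3 then Z else 0) ^ k = X ^ k + Y ^ k + Z ^ k := by
  classical
  rw [← Finset.sum_subset (Finset.subset_univ ({i1, i2, i3} : Finset (Fin s)))]
  · rw [Finset.sum_insert (by simp [h12, h13]), Finset.sum_insert (by simp [h23]), Finset.sum_singleton]
    rw [if_pos rfl, if_neg h12.symm, if_pos rfl, if_neg h13.symm, if_neg h23.symm, if_pos rfl]
    ring
  · intro i _ hi
    simp only [Finset.mem_insert, Finset.mem_singleton, not_or] at hi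
    rw [if_neg hi.1, if_neg hi.2.1, if_neg hi.2.2, zero_pow (by omega)]

/-- three elements as a function on `Fin (k + 1)` -/
private theorem LocG_fun {A : Type} [CommRing A] (k : ℕ) (hk : 2 ≤ k) (P : A → Prop) (X Y Z : A)
    (h : P X ∨ P Y ∨ P Z) :
    ∃ u : Fin (k + 1) → A, (∃ i, P (u i)) ∧ ∑ i, u i ^ k = X ^ k + Y ^ k + Z ^ k := by
  have h12 : (⟨0, by omega⟩ : Fin (k + 1)) ≠ ⟨1, by omega⟩ := by
    intro h
    have := congrArg Fin.val h
    simp at this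
  have h13 : (⟨0, by omega⟩ : Fin (k + 1)) ≠ ⟨2, by omega⟩ := by
    intro h
    have := congrArg Fin.val h
    simp at this
  have h23 : (⟨1, by omega⟩ : Fin (k + 1)) ≠ ⟨2, by omega⟩ := by
    intro h
    have := congrArg Fin.val h
    simp at this
  refine ⟨fun i => if i = ⟨0, by omega⟩ then X else if i = ⟨1, by omega⟩ then Y else
    if i = ⟨2, by omega⟩ then Z else 0, ?_, LocG_sum k (by omega) _ _ _ h12 h13 h23 X Y Z⟩
  rcases h with h | h | h
  · refine ⟨⟨0, by omega⟩, ?_⟩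
    beta_reduce
    rw [if_pos rfl]
    exact h
  · refine ⟨⟨1, by omega⟩, ?_⟩
    beta_reduce
    rw [if_neg h12.symm, if_pos rfl]
    exact h
  · refine ⟨⟨2, by omega⟩, ?_⟩
    beta_reduce
    rw [if_neg h13.symm, if_neg h23.symm, if_pos rfl]
    exact h

variable {K : Type} [Field K] [Fintype K]

theorem loc_pi (k : ℕ) (hk : 2 ≤ k) (hq : 16 * k ^ 6 ≤ Fintype.card K) (π F : K[X]) (hπ : Irreducible π) :
    ∃ u : Fin (k + 1) → K[X], (∃ i, ¬ π ∣ u i) ∧ π ∣ (∑ i, u i ^ k) - F := by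
  classical
  have : Fact (Irreducible π) := ⟨hπ⟩
  have : Module.Finite K (AdjoinRoot π) := (AdjoinRoot.powerBasis hπ.ne_zero).finite
  have : Finite (AdjoinRoot π) := Module.finite_of_finite K
  let _ : Fintype (AdjoinRoot π) := Fintype.ofFinite _
  have hcard : Fintype.card K ≤ Fintype.card (AdjoinRoot π) :=
    Fintype.card_le_of_injective (AdjoinRoot.of π) (AdjoinRoot.of π).injective
  obtain ⟨x, y, z, hxyz, hz⟩ := loc_fin (F := AdjoinRoot π) k (by omega) (hq.trans hcard) (AdjoinRoot.mk π F)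
  obtain ⟨X, rfl⟩ := AdjoinRoot.mk_surjective x
  obtain ⟨Y, rfl⟩ := AdjoinRoot.mk_surjective y
  obtain ⟨Z, rfl⟩ := AdjoinRoot.mk_surjective z
  obtain ⟨u, hu1, hu2⟩ := LocG_fun k hk (fun a => ¬ π ∣ a) X Y Z (by
    rcases hxyz with h | h | h
    · exact Or.inl (fun hd => h (AdjoinRoot.mk_eq_zero.2 hd))
    · exact Or.inr (Or.inl (fun hd => h (AdjoinRoot.mk_eq_zero.2 hd)))
    · exact Or.inr (Or.inr (fun hd => h (AdjoinRoot.mk_eq_zero.2 hd))))
  refine ⟨u, hu1, ?_⟩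
  rw [hu2, ← AdjoinRoot.mk_eq_zero, map_sub, map_add, map_add, map_pow, map_pow, map_pow, hz, sub_self]

theorem loc_inf (k : ℕ) (hk : 2 ≤ k) (hq : 16 * k ^ 6 ≤ Fintype.card K) (φ : K) :
    ∃ u : Fin (k + 1) → K, (∃ i, u i ≠ 0) ∧ ∑ i, u i ^ k = φ := by
  obtain ⟨x, y, z, hxyz, hz⟩ := loc_fin (F := K) k (by omega) hq φ
  obtain ⟨u, hu1, hu2⟩ := LocG_fun k hk (fun a => a ≠ 0) x y z hxyz
  exact ⟨u, hu1, hu2.trans hz⟩

end MP_570bef_ntG
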