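import Pool.Agent.Lib.MP_570bef_ntG.CbS

/-! JOB LowE.  The sum over the nonzero functionals of rank at most `g` is the sum of `ab b` over `b ∈ GB K R g`.

`U := (GB K R g).biUnion (CS E)`.  (i) `U ⊆ LW K E g`: for `b ∈ GB K R g` and `c ∈ CS E b`: `IsRho (lin c) E (natDegree b)`, `natDegree b ≤ g`; `c ≠ 0` because the rank of `lin 0` is `0` (`rho_zero`: `lin_zero`; `rho_unique`) and `1 ≤ natDegree b`.
(ii) the `CS E b` (`b ∈ GB`) are pairwise disjoint: `CS_unique` (`2 natDegree b ≤ 2 g ≤ E + 1`).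
(iii) for `c ∈ LW K E g \ U` the term is `ψ(..) * pro = 0` by `hvan`.
`Finset.sum_subset` (backwards) and `Finset.sum_biUnion`; `ab` is by definition the inner sum. -/

open Polynomial MP_570bef_ntF MP_1ad228_ntD

namespace MP_570bef_ntG

variable {K : Type} [Field K] [Fintype K]

theorem low_eq (ψ : AddChar K ℂ) (k m E R g : ℕ) (M G : K[X]) (w : Fin (k + 1) → K[X])
    (h2 : 2 * g ≤ E + 1)
    (hvan : ∀ c ∈ LW K E g, pro ψ k m M w (lin c) = 0 ∨ ∃ b ∈ GB K R g, c ∈ CS E b) :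
    ∑ c ∈ LW K E g, ψ (lin c G) * pro ψ k m M w (lin c) = ∑ b ∈ GB K R g, ab ψ k m E M G w b := by
  classical
  have hsub : (GB K R g).biUnion (CS E) ⊆ LW K E g := by
    intro c hc
    obtain ⟨b, hb, hcb⟩ := Finset.mem_biUnion.1 hc
    rw [mem_GB] at hb
    rw [mem_CS] at hcb
    rw [mem_LW]
    refine ⟨?_, b.natDegree, hb.1, hcb.2⟩
    rintro rfl
    have h0 : IsRho (lin (0 : Fin (E + 1) → K)) E 0 := rho_zero.2 (fun F _ => lin_zero F)
    have h1 := rho_unique hcb.2 h0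
    omega
  have hdis : ∀ b ∈ GB K R g, ∀ b' ∈ GB K R g, b ≠ b' → Disjoint (CS E b) (CS E b') := by
    intro b hb b' hb' hne
    rw [Finset.disjoint_left]
    intro c hc hc'
    rw [mem_GB] at hb hb'
    exact hne (CS_unique E b b' hb.2.1 hb'.2.1 (by omega) c hc hc')
  rw [← Finset.sum_subset hsub, Finset.sum_biUnion hdis]
  · rfl
  · intro c hc hcn
    rcases hvan c hc with h | ⟨b, hb, hcb⟩
    · rw [h, mul_zero]
    · exact absurd (Finset.mem_biUnion.2 ⟨b, hb, hcb⟩) hcn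

end MP_570bef_ntG
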