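import Pool.Agent.Lib.MP_570bef_ntG.Bas

/-! JOB NbM.  The number of solutions modulo `b` is multiplicative in `b`.

`NB_mul`: `b1, b2` monic, coprime, `d = natDegree (b1 b2) = d1 + d2` (`Monic.natDegree_mul`).  The map `x ↦ (x %ₘ b1, x %ₘ b2)` is a bijection `RR K (d1+d2) → RR K d1 ×ˢ RR K d2` (injective: `b1 ∣ x - y`, `b2 ∣ x - y`, so `b1 b2 ∣ x - y` (`IsCoprime.mul_dvd`), `RR_eq`; cardinalities `q^(d1+d2)`: `card_RR`; or surjective by the Chinese remainder theorem),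
so `x ↦ (fun i => x i %ₘ b1, fun i => x i %ₘ b2)` is a bijection from `(RR K (d1+d2))^s` onto `(RR K d1)^s × (RR K d2)^s`, and `b1 b2 ∣ ∑ x_i^k - F` iff `b1 ∣ ∑ (x_i %ₘ b1)^k - F` and `b2 ∣ ∑ (x_i %ₘ b2)^k - F` (`RR_mod`, `sub_dvd_pow_sub_pow`, `IsCoprime.mul_dvd`).
`Finset.card_bij` (or `card_nbij`, or injectivity plus equality of the cardinalities of the total sets) and `Finset.card_product`.
`nu_mul`: `(q^(d1+d2))^k = (q^d1)^k (q^d2)^k`.  `nu_one`: `RR K 0 = {0}`, `1 ∣ _`: `NB = 1`. -/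

open Polynomial MP_570bef_ntF MP_1ad228_ntD

namespace MP_570bef_ntG

variable {K : Type} [Field K] [Fintype K]

omit [Fintype K] in
theorem NbM_dvd_iff {k s : ℕ} {b F : K[X]} (x y : Fin s → K[X]) (h : ∀ i, b ∣ x i - y i) :
    b ∣ (∑ i, x i ^ k) - F ↔ b ∣ (∑ i, y i ^ k) - F := by
  have h1 : b ∣ (∑ i, x i ^ k) - ∑ i, y i ^ k := by
    rw [← Finset.sum_sub_distrib]
    exact Finset.dvd_sum (fun i _ => (h i).trans (sub_dvd_pow_sub_pow _ _ _))
  have e1 : (∑ i, x i ^ k) - F = ((∑ i, x i ^ k) - ∑ i, y i ^ k) + ((∑ i, y i ^ k) - F) := by ring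
  rw [e1]
  exact dvd_add_right h1

theorem NbM_mem {k s : ℕ} {b F : K[X]} {x : Fin s → K[X]} [DecidableEq K[X]]
    [DecidablePred (fun x : Fin s → K[X] => b ∣ (∑ i, x i ^ k) - F)] :
    x ∈ ((Fintype.piFinset (fun _ : Fin s => RR K b.natDegree)).filter (fun x => b ∣ (∑ i, x i ^ k) - F)) ↔
      (∀ i, x i ∈ RR K b.natDegree) ∧ b ∣ (∑ i, x i ^ k) - F := by
  rw [Finset.mem_filter, Fintype.mem_piFinset]

theorem NB_mul (k s : ℕ) (b1 b2 F : K[X]) (h1 : b1.Monic) (h2 : b2.Monic) (hc : IsCoprime b1 b2) :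
    NB k s (b1 * b2) F = NB k s b1 F * NB k s b2 F := by
  classical
  have h12 : (b1 * b2).Monic := h1.mul h2
  unfold NB
  rw [← Finset.card_product]
  refine Finset.card_bij (fun x _ => (fun i => x i %ₘ b1, fun i => x i %ₘ b2)) ?_ ?_ ?_
  · intro x hx
    rw [NbM_mem] at hx
    rw [Finset.mem_product, NbM_mem, NbM_mem]
    refine ⟨⟨fun i => mod_mem_RR h1 _, ?_⟩, ⟨fun i => mod_mem_RR h2 _, ?_⟩⟩
    · exact (NbM_dvd_iff _ _ (fun i => RR_mod h1 (x i))).1 ((dvd_mul_right b1 b2).trans hx.2)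
    · exact (NbM_dvd_iff _ _ (fun i => RR_mod h2 (x i))).1 ((dvd_mul_left b2 b1).trans hx.2)
  · intro x hx y hy hxy
    rw [NbM_mem] at hx hy
    rw [Prod.mk.injEq] at hxy
    funext i
    refine RR_eq h12 (hx.1 i) (hy.1 i) (hc.mul_dvd ?_ ?_)
    · have e1 := congrFun hxy.1 i
      have d1 := RR_mod h1 (x i)
      have d2 := RR_mod h1 (y i)
      have d3 := dvd_sub d1 d2
      rw [e1] at d3
      have e2 : x i - y i %ₘ b1 - (y i - y i %ₘ b1) = x i - y i := by ring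
      rwa [e2] at d3
    · have e1 := congrFun hxy.2 i
      have d1 := RR_mod h2 (x i)
      have d2 := RR_mod h2 (y i)
      have d3 := dvd_sub d1 d2
      rw [e1] at d3
      have e2 : x i - y i %ₘ b2 - (y i - y i %ₘ b2) = x i - y i := by ring
      rwa [e2] at d3
  · rintro ⟨y, z⟩ hyz
    rw [Finset.mem_product, NbM_mem, NbM_mem] at hyz
    obtain ⟨⟨hy, hyF⟩, hz, hzF⟩ := hyz
    obtain ⟨u, v, huv⟩ := hc
    have g1 : ∀ i, b1 ∣ (z i * (u * b1) + y i * (v * b2)) %ₘ (b1 * b2) - y i := by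
      intro i
      have d1 := (dvd_mul_right b1 b2).trans (RR_mod h12 (z i * (u * b1) + y i * (v * b2)))
      have e1 : (z i * (u * b1) + y i * (v * b2)) %ₘ (b1 * b2) - y i =
          b1 * (u * (z i - y i)) - ((z i * (u * b1) + y i * (v * b2)) -
            (z i * (u * b1) + y i * (v * b2)) %ₘ (b1 * b2)) := by
        linear_combination (y i) * huv
      rw [e1]
      exact dvd_sub (dvd_mul_right _ _) d1
    have g2 : ∀ i, b2 ∣ (z i * (u * b1) + y i * (v * b2)) %ₘ (b1 * b2) - z i := by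
      intro i
      have d1 := (dvd_mul_left b2 b1).trans (RR_mod h12 (z i * (u * b1) + y i * (v * b2)))
      have e1 : (z i * (u * b1) + y i * (v * b2)) %ₘ (b1 * b2) - z i =
          b2 * (v * (y i - z i)) - ((z i * (u * b1) + y i * (v * b2)) -
            (z i * (u * b1) + y i * (v * b2)) %ₘ (b1 * b2)) := by
        linear_combination (z i) * huv
      rw [e1]
      exact dvd_sub (dvd_mul_right _ _) d1
    refine ⟨fun i => (z i * (u * b1) + y i * (v * b2)) %ₘ (b1 * b2), ?_, ?_⟩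
    · rw [NbM_mem]
      refine ⟨fun i => mod_mem_RR h12 _, IsCoprime.mul_dvd ⟨u, v, huv⟩ ?_ ?_⟩
      · exact (NbM_dvd_iff _ _ g1).2 hyF
      · exact (NbM_dvd_iff _ _ g2).2 hzF
    · have hm : ∀ {b w t : K[X]}, b.Monic → t ∈ RR K b.natDegree → b ∣ w - t → w %ₘ b = t := by
        intro b w t hb ht hd
        refine RR_eq hb (mod_mem_RR hb _) ht ?_
        have d1 := RR_mod hb w
        have e1 : w %ₘ b - t = (w - t) - (w - w %ₘ b) := by ring
        rw [e1]
        exact dvd_sub hd d1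
      rw [Prod.mk.injEq]
      exact ⟨funext (fun i => hm h1 (hy i) (g1 i)), funext (fun i => hm h2 (hz i) (g2 i))⟩

theorem nu_mul (k : ℕ) (b1 b2 F : K[X]) (h1 : b1.Monic) (h2 : b2.Monic) (hc : IsCoprime b1 b2) :
    nu k (b1 * b2) F = nu k b1 F * nu k b2 F := by
  unfold nu
  rw [NB_mul k (k + 1) b1 b2 F h1 h2 hc, h1.natDegree_mul h2, pow_add, mul_pow, Nat.cast_mul]
  exact mul_div_mul_comm _ _ _ _

theorem nu_one (k : ℕ) (F : K[X]) : nu k 1 F = 1 := by
  classical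
  have e1 : NB k (k + 1) (1 : K[X]) F = 1 := by
    unfold NB
    rw [natDegree_one, Finset.filter_true_of_mem (fun x _ => one_dvd _), Fintype.card_piFinset]
    refine Finset.prod_eq_one (fun i _ => ?_)
    rw [card_RR, pow_zero]
  unfold nu
  rw [e1, natDegree_one, pow_zero, one_pow, Nat.cast_one, div_one]

end MP_570bef_ntG
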