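import Pool.Agent.Lib.MP_570bef_ntG.MulA
import Pool.Agent.Lib.MP_570bef_ntG.EulB
import Pool.Agent.Lib.MP_570bef_ntG.AbP
import Pool.Agent.Lib.MP_570bef_ntG.NbM
import Pool.Agent.Lib.MP_570bef_ntG.PrM

/-! JOB LowF.  The low rank part is at most `1/4` if the local sums are small.  `M := MR K R`.

`a 1 = nu k 1 F = 1` (`hs 1`: `DV 1`, `dv_one`, `nu_one`).  `mul_of_divisor_sum` with `D := g`, `P b := IsCoprime b M` (`IsCoprime.of_isCoprime_of_dvd_left`), `ν b := (nu k b F : ℂ)`, `nu_mul`: `a (b1 b2) = a b1 * a b2` for coprime monic `b1, b2` with `b1 b2` prime to `M` and of degree `≤ g`.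
For `v ∈ VR K R g`: `v` is prime to `M` (`MR_irr`: `v ∣ M` would give `natDegree v ≤ R`; `Irreducible.coprime_iff_not_dvd`), so `v^e` is (`IsCoprime.pow_left`), and for `1 ≤ e ≤ g / natDegree v`: `natDegree (v^e) ≤ g`, `a (v^e) = nu (v^e) - nu (v^(e-1))` (`hs (v^e)`, `hs (v^(e-1))`, `dv_pow`), so
`‖a (v^e)‖ = |nu (v^e) - nu (v^(e-1))|` (`Complex.norm_real`).
`β b := ‖a b‖`: `euler_bound g (VR K R g)`: `hmul`: for `v ∈ VR`, `b` monic, `¬ v ∣ b`, all irreducible factors of `b` divide elements of `VR`: then `v^e` and `b` are coprime and `v^e * b` is prime to `M` (a common irreducible factor `π` of `b` and `M`: `π ∣ u ∈ VR`, so `π` is associated to `u`, degree `> R`, but `MR_irr` gives `≤ R`).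
`insert 1 (GB K R g) ⊆ GV g (VR K R g)` (`mem_GB`; an irreducible factor `π` of `b` prime to `M` has degree `> R` by `MR_dvd`, and `≤ natDegree b ≤ g`; its monic version is in `VR`), `1 ∉ GB` (degree `≥ 1`); so `1 + ∑_{b ∈ GB} β b ≤ ∑_{GV} β ≤ ∏_{v ∈ VR} (1 + ∑_{e ≤ g/deg v} β(v^e)) ≤ exp (∑_v ∑_e β(v^e)) ≤ exp (1/8)`
(`Real.add_one_le_exp`, `Finset.prod_le_prod`, `Real.exp_sum`) `≤ 5/4` (`Real.exp_bound'`, or: `exp (1/8) ≤ 1/(1 - 1/8) = 8/7` from `1 - 1/8 ≤ exp(-1/8)`).  So `‖∑_{GB} a b‖ ≤ ∑ β ≤ 1/4`. -/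

open Polynomial MP_570bef_ntF MP_1ad228_ntD

namespace MP_570bef_ntG

variable {K : Type} [Field K] [Fintype K]

omit [Fintype K] in
theorem LowF_norm {π : K[X]} (hπ : Irreducible π) :
    ∃ v : K[X], Irreducible v ∧ v.Monic ∧ v.natDegree = π.natDegree ∧ π ∣ v := by
  have hu : IsUnit (C π.leadingCoeff⁻¹) := by
    rw [Polynomial.isUnit_C]
    exact isUnit_iff_ne_zero.2 (inv_ne_zero (leadingCoeff_ne_zero.2 hπ.ne_zero))
  refine ⟨π * C π.leadingCoeff⁻¹, ?_, monic_mul_leadingCoeff_inv hπ.ne_zero,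
    natDegree_mul_leadingCoeff_inv π hπ.ne_zero, dvd_mul_right _ _⟩
  have h1 : Associated π (π * C π.leadingCoeff⁻¹) := by
    obtain ⟨u, hu'⟩ := hu
    exact ⟨u, by rw [hu']⟩
  exact h1.irreducible_iff.1 hπ

theorem LowF_cop {R g : ℕ} {v : K[X]} (hv : v ∈ VR K R g) : IsCoprime v (MR K R) := by
  rw [mem_VR] at hv
  rw [hv.2.1.coprime_iff_not_dvd]
  intro h
  have := MR_irr hv.2.1 h
  omega

theorem LowF_GV {g R : ℕ} {b : K[X]} : b ∈ GV g (VR K R g) ↔ b.natDegree ≤ g ∧ b.Monic ∧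
    ∀ π : K[X], Irreducible π → π ∣ b → ∃ v ∈ VR K R g, π ∣ v := by
  classical
  unfold GV
  rw [Finset.mem_filter, mem_SS]

theorem LowF_exp : Real.exp (1 / 8) ≤ 8 / 7 := by
  have h1 := Real.add_one_le_exp (-(1 / 8) : ℝ)
  have h2 : Real.exp (1 / 8) * Real.exp (-(1 / 8)) = 1 := by
    rw [← Real.exp_add, add_neg_cancel, Real.exp_zero]
  have h3 := Real.exp_pos (1 / 8 : ℝ)
  nlinarith

theorem low_part_le (k g R : ℕ) (a : K[X] → ℂ) (F : K[X])
    (hs : ∀ b : K[X], b.Monic → b.natDegree ≤ g → IsCoprime b (MR K R) → ∑ d ∈ DV b, a d = ((nu k b F : ℝ) : ℂ))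
    (hloc : ∑ v ∈ VR K R g, ∑ e ∈ Finset.Icc 1 (g / v.natDegree), |nu k (v ^ e) F - nu k (v ^ (e - 1)) F| ≤ 1 / 8) :
    ‖∑ b ∈ GB K R g, a b‖ ≤ 1 / 4 := by
  classical
  have ha1 : a 1 = 1 := by
    have h1 := hs 1 monic_one (by rw [natDegree_one]; exact Nat.zero_le _) isCoprime_one_left
    rw [dv_one, nu_one] at h1
    rw [h1]
    exact Complex.ofReal_one
  have hν : ∀ b1 b2 : K[X], b1.Monic → b2.Monic → IsCoprime b1 b2 →
      ((nu k (b1 * b2) F : ℝ) : ℂ) = ((nu k b1 F : ℝ) : ℂ) * ((nu k b2 F : ℝ) : ℂ) := by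
    intro b1 b2 h1 h2 hc
    rw [nu_mul k b1 b2 F h1 h2 hc, Complex.ofReal_mul]
  have hmul : ∀ v ∈ VR K R g, ∀ (e : ℕ) (b : K[X]), 1 ≤ e → b.Monic → ¬ v ∣ b →
      (v ^ e * b).natDegree ≤ g →
      (∀ π : K[X], Irreducible π → π ∣ b → ∃ u ∈ VR K R g, π ∣ u) →
      ‖a (v ^ e * b)‖ = ‖a (v ^ e)‖ * ‖a b‖ := by
    intro v hv e b he hb hvb hdeg hπ
    have hv' := mem_VR.1 hv
    have hc : IsCoprime (v ^ e) b := ((hv'.2.1.coprime_iff_not_dvd).2 hvb).pow_left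
    have hcb : IsCoprime b (MR K R) := by
      apply isCoprime_of_irreducible_dvd
      · rintro ⟨h1, _⟩
        exact hb.ne_zero h1
      · intro π h1 h2 h3
        obtain ⟨u, hu, h4⟩ := hπ π h1 h2
        have hu' := mem_VR.1 hu
        have h5 : u ∣ π := (h1.associated_of_dvd hu'.2.1 h4).symm.dvd
        have h6 := natDegree_le_of_dvd h5 h1.ne_zero
        have h7 := MR_irr h1 h3
        omega
    have hPb : IsCoprime (v ^ e * b) (MR K R) := IsCoprime.mul_left ((LowF_cop hv).pow_left) hcb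
    have h1 := mul_of_divisor_sum g (fun b => IsCoprime b (MR K R))
      (fun b d h hd => h.of_isCoprime_of_dvd_left hd) a (fun b => ((nu k b F : ℝ) : ℂ)) hs hν
      (v ^ e) b (hv'.2.2.1.pow e) hb hc hdeg hPb
    rw [h1, norm_mul]
  have hE := euler_bound g (VR K R g)
    (fun v hv => ⟨(mem_VR.1 hv).2.1, (mem_VR.1 hv).2.2.1⟩) (fun b => ‖a b‖)
    (fun b => norm_nonneg _) (by show ‖a 1‖ = 1; rw [ha1, norm_one]) hmul
  have hpow : ∀ v ∈ VR K R g, ∑ e ∈ Finset.Icc 1 (g / v.natDegree), ‖a (v ^ e)‖ =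
      ∑ e ∈ Finset.Icc 1 (g / v.natDegree), |nu k (v ^ e) F - nu k (v ^ (e - 1)) F| := by
    intro v hv
    have hv' := mem_VR.1 hv
    have hv0 : 0 < v.natDegree := by omega
    refine Finset.sum_congr rfl fun e he => ?_
    rw [Finset.mem_Icc] at he
    have h1 : e * v.natDegree ≤ g := (Nat.le_div_iff_mul_le hv0).1 he.2
    have h2 : (e - 1) * v.natDegree ≤ g := le_trans (Nat.mul_le_mul_right _ (Nat.sub_le _ _)) h1
    have h3 := hs (v ^ e) (hv'.2.2.1.pow e) (by rw [natDegree_pow]; exact h1)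
      ((LowF_cop hv).pow_left)
    have h4 := hs (v ^ (e - 1)) (hv'.2.2.1.pow (e - 1)) (by rw [natDegree_pow]; exact h2)
      ((LowF_cop hv).pow_left)
    rw [dv_pow v hv'.2.1 hv'.2.2.1 e he.1, h4] at h3
    have h5 : a (v ^ e) = ((nu k (v ^ e) F - nu k (v ^ (e - 1)) F : ℝ) : ℂ) := by
      rw [Complex.ofReal_sub]
      exact eq_sub_of_add_eq h3
    rw [h5, Complex.norm_real, Real.norm_eq_abs]
  have hprod : ∏ v ∈ VR K R g, (1 + ∑ e ∈ Finset.Icc 1 (g / v.natDegree), ‖a (v ^ e)‖) ≤ 8 / 7 := by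
    calc ∏ v ∈ VR K R g, (1 + ∑ e ∈ Finset.Icc 1 (g / v.natDegree), ‖a (v ^ e)‖)
        ≤ ∏ v ∈ VR K R g, Real.exp (∑ e ∈ Finset.Icc 1 (g / v.natDegree), ‖a (v ^ e)‖) := by
          refine Finset.prod_le_prod (fun v _ => ?_) (fun v _ => ?_)
          · exact add_nonneg zero_le_one (Finset.sum_nonneg fun e _ => norm_nonneg _)
          · rw [add_comm]
            exact Real.add_one_le_exp _
      _ = Real.exp (∑ v ∈ VR K R g, ∑ e ∈ Finset.Icc 1 (g / v.natDegree), ‖a (v ^ e)‖) :=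
          (Real.exp_sum _ _).symm
      _ ≤ Real.exp (1 / 8) := by
          apply Real.exp_le_exp.2
          rw [Finset.sum_congr rfl hpow]
          exact hloc
      _ ≤ 8 / 7 := LowF_exp
  have h1GB : (1 : K[X]) ∉ GB K R g := by
    rw [mem_GB, natDegree_one]
    rintro ⟨_, _, h, _⟩
    omega
  have hsub : insert 1 (GB K R g) ⊆ GV g (VR K R g) := by
    intro b hb
    rw [Finset.mem_insert] at hb
    rw [LowF_GV]
    rcases hb with rfl | hb
    · refine ⟨by rw [natDegree_one]; exact Nat.zero_le _, monic_one, fun π h1 h2 => ?_⟩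
      exact absurd (isUnit_of_dvd_one h2) h1.not_isUnit
    · rw [mem_GB] at hb
      refine ⟨hb.1, hb.2.1, fun π h1 h2 => ?_⟩
      obtain ⟨v, hv1, hv2, hv3, hv4⟩ := LowF_norm h1
      refine ⟨v, ?_, hv4⟩
      rw [mem_VR, hv3]
      have h3 := natDegree_le_of_dvd h2 hb.2.1.ne_zero
      refine ⟨le_trans h3 hb.1, hv1, hv2, ?_⟩
      by_contra h4
      have h5 := MR_dvd h1 (not_lt.1 h4)
      exact h1.not_isUnit (hb.2.2.2.isUnit_of_dvd' h2 h5)
  have hsum : ∑ b ∈ insert 1 (GB K R g), ‖a b‖ ≤ ∑ b ∈ GV g (VR K R g), ‖a b‖ :=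
    Finset.sum_le_sum_of_subset_of_nonneg hsub fun b _ _ => norm_nonneg _
  rw [Finset.sum_insert h1GB, ha1, norm_one] at hsum
  have hn := norm_sum_le (GB K R g) a
  have hE' : ∑ b ∈ GV g (VR K R g), ‖a b‖ ≤ 8 / 7 := le_trans hE hprod
  linarith

end MP_570bef_ntG
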