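import Pool.Agent.Lib.MP_570bef_ntG.LamA
import Pool.Agent.Lib.MP_570bef_ntG.PrM
import Pool.Agent.Lib.MP_1ad228_ntD.Vp
import Pool.Agent.Lib.MP_1ad228_ntD.Vi

/-! JOB LowV.  A functional of small rank has vanishing product, or its minimal killing form `b` has exact degree and is prime to `M := MR K R`.

`hρ.1` gives `b ≠ 0`, `natDegree b ≤ r`, `Kill (lin c) E b r`.
(1) `natDegree b < r`: `L.hinf` gives `i` with `(L.w i).coeff n ≠ 0`; `van_inf` with `l := lam k M (L.w i)`: `lam_inf`, `lam_deg` (`hdeg`: `natDegree + j m ≤ E` because `j ≥ 1`; `hlt`: `< E` because `j ≥ 2`): `fs ψ k (lam k M (L.w i)) m (lin c) = 0`, so the factor `i` of `pro` is `0 / _ = 0` (`Finset.prod_eq_zero`).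
(2) some irreducible `π` divides `b` and `M`: `L.hpi` gives `i` with `¬ π ∣ L.w i`; `lam_pi`, `van_pi`: factor `i` vanishes.
(3) otherwise `natDegree b = r` and `IsCoprime b M`: (if not coprime there is a common irreducible factor: `EuclideanDomain`/`isCoprime_of_irreducible_dvd` or `isCoprime_of_prime_dvd`, `M ≠ 0`).  `b' := C (leadingCoeff b)⁻¹ * b` is monic of degree `r`, `IsCoprime b' M`, and `Kill (lin c) E b' r` (as in
the proof of `card_rho_le` in MP_570bef_ntF/Cnt.lean: `mul_assoc`, `smul_eq_C_mul`, `map_smul`).  `b' ∈ GB K R g` (`mem_GB`), `c ∈ CS E b'` (`mem_CS`; rewrite `natDegree b' = r`). -/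

open Polynomial MP_570bef_ntF MP_1ad228_ntD

namespace MP_570bef_ntG

variable {K : Type} [Field K] [Fintype K]

theorem low_van {ψ : AddChar K ℂ} (hψ : ψ ≠ 1) (k n m E R g : ℕ) (hk : 1 ≤ k) (hkK : (k : K) ≠ 0) (F0 : K[X])
    (L : Loc k n (MR K R) F0) (hm : (MR K R).natDegree + m + 1 = n) (hE : (MR K R).natDegree + E + 1 = k * n)
    (c : Fin (E + 1) → K) (r : ℕ) (hρ : IsRho (lin c) E r) (hr1 : 1 ≤ r) (hrm : r ≤ m + 1) (hrg : r ≤ g) :
    pro ψ k m (MR K R) L.w (lin c) = 0 ∨ ∃ b ∈ GB K R g, c ∈ CS E b := by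
  classical
  obtain ⟨b, hb, hbr, hkill⟩ := hρ.1
  have hdeg : ∀ i, ∀ j, 1 ≤ j → j ≤ k → (lam k (MR K R) (L.w i) j).natDegree + j * m ≤ E := by
    intro i j h1 hj
    have := lam_deg k n m E j (MR K R) (L.w i) (L.hw i) hm hE h1 hj
    omega
  have hlt : ∀ i, ∀ j, 2 ≤ j → j ≤ k → (lam k (MR K R) (L.w i) j).natDegree + j * m < E := by
    intro i j h1 hj
    have := lam_deg k n m E j (MR K R) (L.w i) (L.hw i) hm hE (by omega) hj
    omega
  have hfac : ∀ i, fs ψ k (lam k (MR K R) (L.w i)) m (lin c) = 0 →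
      pro ψ k m (MR K R) L.w (lin c) = 0 := by
    intro i hi
    unfold pro
    apply Finset.prod_eq_zero (Finset.mem_univ i)
    rw [hi, zero_div]
  by_cases hlt' : b.natDegree < r
  · left
    obtain ⟨i, hi⟩ := L.hinf
    obtain ⟨h0, h1⟩ := lam_inf k n m E hk hkK (MR K R) (L.w i) (L.hw i) hi hm hE
    exact hfac i (van_inf hψ k m E r hk _ (hdeg i) (lin c) hρ b hb hlt' hkill hrm h0 h1 (hlt i))
  have hbe : b.natDegree = r := by omega
  by_cases hcop : IsCoprime b (MR K R)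
  · right
    have hl : b.leadingCoeff ≠ 0 := leadingCoeff_ne_zero.mpr hb
    have hd : (C b.leadingCoeff⁻¹ * b).natDegree = b.natDegree := natDegree_C_mul (inv_ne_zero hl)
    refine ⟨C b.leadingCoeff⁻¹ * b, ?_, ?_⟩
    · rw [mem_GB, hd, hbe]
      refine ⟨hrg, ?_, hr1, ?_⟩
      · rw [Polynomial.Monic, leadingCoeff_mul, leadingCoeff_C]
        exact inv_mul_cancel₀ hl
      · have hu : IsUnit (C b.leadingCoeff⁻¹ : K[X]) :=
          isUnit_C.2 (isUnit_iff_ne_zero.2 (inv_ne_zero hl))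
        exact (isCoprime_mul_unit_left_left hu b (MR K R)).2 hcop
    · rw [mem_CS, hd, hbe]
      refine ⟨?_, hρ⟩
      intro z hz
      rw [mul_assoc, ← smul_eq_C_mul, map_smul, hkill z hz, smul_zero]
  · left
    have hex : ∃ π : K[X], Irreducible π ∧ π ∣ b ∧ π ∣ MR K R := by
      by_contra hno
      apply hcop
      apply isCoprime_of_irreducible_dvd
      · exact fun h => hb h.1
      · intro z hz hzb hzM
        exact hno ⟨z, hz, hzb, hzM⟩
    obtain ⟨π, hπ, hπb, hπM⟩ := hex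
    obtain ⟨i, hi⟩ := L.hpi π hπ hπM
    obtain ⟨h1, h2⟩ := lam_pi hπ k hk hkK (MR K R) (L.w i) hπM hi
    exact hfac i (van_pi hψ k m E r hk _ (hdeg i) (lin c) hρ b hb hbr hkill hrm π hπ hπb h1 h2)

end MP_570bef_ntG
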