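import Pool.Agent.Lib.MP_570bef_ntG.PrM

/-! JOB ParR.  Choice of `R`.  `q ≥ 2`, `η := eta k ≥ 1` (`k ≥ 1`).

`exists_R`: `R := Nat.findGreatest (fun R => η * (2 * R * q^R) ≤ n) (n + 1)` or `Nat.find` for the negation: the function `R ↦ η (2 R q^R)` is `0` at `R = 0` and tends to infinity (`≥ R`), take the least `R'` with `n < η (2 R' q^R')`; `R' ≥ 1`; `R := R' - 1`.
`MR_small`: `eta k * natDegree (MR K R) ≤ η (2 R q^R) ≤ n` by `MR_deg`. -/

open Polynomial MP_570bef_ntF MP_1ad228_ntD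

namespace MP_570bef_ntG

variable {K : Type} [Field K] [Fintype K]

theorem exists_R (k n : ℕ) (hk : 1 ≤ k) (q : ℕ) (hq : 2 ≤ q) :
    ∃ R : ℕ, eta k * (2 * R * q ^ R) ≤ n ∧ n < eta k * (2 * (R + 1) * q ^ (R + 1)) := by
  classical
  have heta : 1 ≤ eta k := by
    unfold eta
    exact Nat.one_le_iff_ne_zero.mpr (Nat.mul_ne_zero (by omega) (pow_ne_zero _ (by norm_num)))
  have hex : ∃ R : ℕ, n < eta k * (2 * (R + 1) * q ^ (R + 1)) := by
    refine ⟨n, ?_⟩
    have h1 : 1 ≤ q ^ (n + 1) := Nat.one_le_pow _ _ (by omega)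
    calc n < 2 * (n + 1) * 1 := by omega
      _ ≤ 2 * (n + 1) * q ^ (n + 1) := Nat.mul_le_mul_left _ h1
      _ = 1 * (2 * (n + 1) * q ^ (n + 1)) := (one_mul _).symm
      _ ≤ eta k * (2 * (n + 1) * q ^ (n + 1)) := Nat.mul_le_mul_right _ heta
  refine ⟨Nat.find hex, ?_, Nat.find_spec hex⟩
  rcases Nat.eq_zero_or_pos (Nat.find hex) with h0 | h0
  · rw [h0]
    simp
  · have h2 := Nat.find_min hex (m := Nat.find hex - 1) (by omega)
    have h3 : Nat.find hex - 1 + 1 = Nat.find hex := by omega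
    rw [h3] at h2
    exact not_lt.mp h2

theorem MR_small (k n R : ℕ) (h : eta k * (2 * R * Fintype.card K ^ R) ≤ n) :
    eta k * (MR K R).natDegree ≤ n := by
  exact (Nat.mul_le_mul_left _ (MR_deg R)).trans h

end MP_570bef_ntG
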