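import Pool.Agent.Lib.MP_570bef_ntG.KilO
import Pool.Agent.Lib.MP_570bef_ntG.Fib
import Pool.Agent.Lib.MP_570bef_ntG.LamA

/-! JOB SumC.  The sum over the functionals killed by `b` is the local density `nu k b F`.  `Q := q^(m+1)`, `d := natDegree b ≤ m + 1 ≤ E + 1`, `s := k + 1`.

`pro ψ k m M w A = (∏_i fs ψ k (lam k M (w i)) m A) / Q^s` (`Finset.prod_div_distrib`, `Finset.prod_const`).
`∏_i fs ψ k (lam ..) m (lin c) = ∑_{y ∈ (SS K m)^s} ψ (lin c (∑_i gg k (lam k M (w i)) (y i)))` (`Finset.prod_univ_sum`, as in MP_1ad228_ntD/Ct.lean); times `ψ (lin c G)`: `ψ (lin c (H y))`, `H y := G + ∑_i gg k (lam k M (w i)) (y i)`, `natDegree (H y) ≤ E` (`hGdeg`, `hdeg`).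
Exchange the sums; `sum_CB_char`: `∑_{c ∈ CB} ψ (lin c (H y)) = q^d [b ∣ H y]`.  `M * H y = ∑ w_i^k - F + ∑ ((w_i + M y_i)^k - w_i^k) = ∑ (w_i + M y_i)^k - F` (`hG`, `lam_eq`), so `b ∣ H y ↔ b ∣ ∑ (w_i + M y_i)^k - F` (`IsCoprime b M`: `IsCoprime.dvd_of_dvd_mul_left`).
`count_fib`: the sum is `q^d (q^(m+1-d))^s NB k s b F`, divided by `Q^s = (q^(m+1-d))^s (q^d)^s`: `q^d NB / (q^d)^(k+1) = NB / (q^d)^k = nu k b F`.  (`q^(m+1-d) * q^d = q^(m+1)`.) -/

open Polynomial MP_570bef_ntF MP_1ad228_ntD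

namespace MP_570bef_ntG

variable {K : Type} [Field K] [Fintype K]

omit [Fintype K] in
private theorem SumC_sum (ψ : AddChar K ℂ) {κ : Type} (t : Finset κ) (f : κ → K) :
    ψ (∑ i ∈ t, f i) = ∏ i ∈ t, ψ (f i) := by
  classical
  induction t using Finset.induction_on with
  | empty => rw [Finset.sum_empty, Finset.prod_empty, AddChar.map_zero_eq_one]
  | insert a t ha ih => rw [Finset.sum_insert ha, Finset.prod_insert ha, AddChar.map_add_eq_mul, ih]

theorem sum_CB_pro {ψ : AddChar K ℂ} (hψ : ψ ≠ 1) (k m E : ℕ) (M F G b : K[X]) (w : Fin (k + 1) → K[X])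
    (hb : b.Monic) (hcop : IsCoprime b M) (hbm : b.natDegree ≤ m + 1) (hmE : m ≤ E)
    (hG : M * G = (∑ i, w i ^ k) - F) (hGdeg : G.natDegree ≤ E)
    (hdeg : ∀ i, ∀ y : K[X], y.natDegree ≤ m → (gg k (lam k M (w i)) y).natDegree ≤ E) :
    ∑ c ∈ CB E b, ψ (lin c G) * pro ψ k m M w (lin c) = ((nu k b F : ℝ) : ℂ) := by
  classical
  have hq0 : (Fintype.card K : ℂ) ≠ 0 := Nat.cast_ne_zero.mpr Fintype.card_ne_zero
  have h1 : ∀ c : Fin (E + 1) → K, ψ (lin c G) * pro ψ k m M w (lin c) =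
      (∑ y ∈ Fintype.piFinset (fun _ : Fin (k + 1) => SS K m),
        ψ (lin c (G + ∑ i, gg k (lam k M (w i)) (y i)))) /
          ((Fintype.card K : ℂ) ^ (m + 1)) ^ (k + 1) := by
    intro c
    unfold pro fs
    rw [Finset.prod_div_distrib, Finset.prod_const, Finset.card_univ, Fintype.card_fin,
      Finset.prod_univ_sum, ← mul_div_assoc, Finset.mul_sum]
    congr 1
    refine Finset.sum_congr rfl fun y _ => ?_
    rw [map_add, map_sum, AddChar.map_add_eq_mul, SumC_sum]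
  rw [Finset.sum_congr rfl fun c _ => h1 c, ← Finset.sum_div, Finset.sum_comm]
  have h2 : ∀ y ∈ Fintype.piFinset (fun _ : Fin (k + 1) => SS K m),
      ∑ c ∈ CB E b, ψ (lin c (G + ∑ i, gg k (lam k M (w i)) (y i))) =
        if b ∣ (∑ i, (w i + M * y i) ^ k) - F then (Fintype.card K : ℂ) ^ b.natDegree else 0 := by
    intro y hy
    rw [Fintype.mem_piFinset] at hy
    have hd : (G + ∑ i, gg k (lam k M (w i)) (y i)).natDegree ≤ E := by
      refine (Polynomial.natDegree_add_le _ _).trans (max_le hGdeg ?_)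
      refine Polynomial.natDegree_sum_le_of_forall_le _ _ fun i _ => ?_
      exact hdeg i (y i) (mem_SS.1 (hy i))
    rw [sum_CB_char hψ E b hb (by omega) _ hd]
    have h4 : M * (G + ∑ i, gg k (lam k M (w i)) (y i)) = (∑ i, (w i + M * y i) ^ k) - F := by
      rw [mul_add, hG, Finset.mul_sum, Finset.sum_congr rfl (fun i _ => lam_eq k M (w i) (y i)),
        Finset.sum_sub_distrib]
      ring
    have h3 : b ∣ G + ∑ i, gg k (lam k M (w i)) (y i) ↔ b ∣ (∑ i, (w i + M * y i) ^ k) - F := by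
      rw [← h4]
      exact ⟨fun h => h.mul_left M, fun h => hcop.dvd_of_dvd_mul_left h⟩
    by_cases h5 : b ∣ (∑ i, (w i + M * y i) ^ k) - F
    · rw [if_pos (h3.2 h5), if_pos h5]
    · rw [if_neg (fun h => h5 (h3.1 h)), if_neg h5]
  rw [Finset.sum_congr rfl h2, ← Finset.sum_filter, Finset.sum_const, nsmul_eq_mul,
    count_fib k (k + 1) m b M F w hb hbm hcop]
  unfold nu
  push_cast
  have h6 : (Fintype.card K : ℂ) ^ (m + 1) =
      (Fintype.card K : ℂ) ^ (m + 1 - b.natDegree) * (Fintype.card K : ℂ) ^ b.natDegree := by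
    rw [← pow_add, Nat.sub_add_cancel hbm]
  rw [h6]
  have hA : (Fintype.card K : ℂ) ^ (m + 1 - b.natDegree) ≠ 0 := pow_ne_zero _ hq0
  have hB : (Fintype.card K : ℂ) ^ b.natDegree ≠ 0 := pow_ne_zero _ hq0
  rw [div_eq_div_iff (pow_ne_zero _ (mul_ne_zero hA hB)) (pow_ne_zero _ hB), mul_pow, pow_succ,
    pow_succ]
  ring

end MP_570bef_ntG
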