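import Pool.Agent.Lib.MP_570bef_ntG.LowF
import Pool.Agent.Lib.MP_570bef_ntG.LowE
import Pool.Agent.Lib.MP_570bef_ntG.LowV
import Pool.Agent.Lib.MP_570bef_ntG.SumC
import Pool.Agent.Lib.MP_570bef_ntG.LoS
import Pool.Agent.Lib.MP_570bef_ntG.GdA
import Pool.Agent.Lib.MP_570bef_ntG.GdB
import Pool.Agent.Lib.MP_570bef_ntG.ParR

/-! Assembly of the low rank part. -/

open Polynomial MP_570bef_ntF MP_1ad228_ntD

namespace MP_570bef_ntG

variable {K : Type} [Field K] [Fintype K]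

theorem LowG_Q1 (k q : ℕ) (hk : 1 ≤ k) (hq : Q1 k ≤ q) :
    16 * k ^ 6 ≤ q ∧ 4 ^ e0 k ≤ q ∧ (64 * D3 k) ^ 2 ≤ q ∧ 64 * D4 k * k * eta k ≤ q ∧ 2 * D4 k ≤ q := by
  unfold Q1 at hq
  have h1 : 1 ≤ eta k := by
    unfold eta
    exact Nat.mul_pos hk (by positivity)
  have h2 : 2 * D4 k ≤ 64 * D4 k * k * eta k := by
    calc 2 * D4 k ≤ 64 * D4 k := by omega
      _ = 64 * D4 k * 1 * 1 := by ring
      _ ≤ 64 * D4 k * k * eta k := Nat.mul_le_mul (Nat.mul_le_mul_left _ hk) h1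
  have h3 : 0 < 4 ^ e0 k := by positivity
  refine ⟨by omega, by omega, by omega, by omega, by omega⟩

theorem low_le {ψ : AddChar K ℂ} (hψ : ψ ≠ 1) (k n m E R : ℕ) (hk : 3 ≤ k)
    (hchar : ∀ i : ℕ, 1 ≤ i → i ≤ k → (i : K) ≠ 0) (hq : Q1 k ≤ Fintype.card K)
    (hR : n < eta k * (2 * (R + 1) * Fintype.card K ^ (R + 1))) (F0 : K[X]) (L : Loc k n (MR K R) F0)
    (hm : (MR K R).natDegree + m + 1 = n) (hE : (MR K R).natDegree + E + 1 = k * n) (hnm : n / 2 ≤ m)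
    (F G : K[X]) (hF0 : F ≠ 0) (hF : F.natDegree ≤ k * n) (hgood : e0 k * om (R + 1) F ≤ Fintype.card K ^ (R + 1))
    (hG : MR K R * G = (∑ i, L.w i ^ k) - F) (hGdeg : G.natDegree ≤ E) :
    ‖∑ c ∈ LW K E (n / 2), ψ (lin c G) * pro ψ k m (MR K R) L.w (lin c)‖ ≤ 1 / 4 := by
  classical
  obtain ⟨-, -, hq3, hq4, hq5⟩ := LowG_Q1 k _ (by omega) hq
  have hkK : (k : K) ≠ 0 := hchar k (by omega) le_rfl
  have h3n : 3 * n ≤ k * n := Nat.mul_le_mul_right n hk
  have hmE : m ≤ E := by omega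
  have h2g : 2 * (n / 2) ≤ E + 1 := by omega
  rw [low_eq ψ k m E R (n / 2) (MR K R) G L.w h2g]
  · apply low_part_le k (n / 2) R (ab ψ k m E (MR K R) G L.w) F
    · intro b hb hbg hcop
      have h1 := CB_split E b hb (by omega) (fun c => ψ (lin c G) * pro ψ k m (MR K R) L.w (lin c))
      have h2 := sum_CB_pro hψ k m E (MR K R) F G b L.w hb hcop (by omega) hmE hG hGdeg
        (fun i y hy => lam_gg_deg k n m E (MR K R) (L.w i) (L.hw i) hm hE y hy)
      rw [← h2, h1]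
      rfl
    · calc ∑ v ∈ VR K R (n / 2), ∑ e ∈ Finset.Icc 1 (n / 2 / v.natDegree),
            |nu k (v ^ e) F - nu k (v ^ (e - 1)) F|
          ≤ ∑ v ∈ VR K R (n / 2), ((D3 k : ℝ) /
              ((Fintype.card K : ℝ) ^ v.natDegree * Real.sqrt ((Fintype.card K : ℝ) ^ v.natDegree)) +
              (if v ∣ F then (D4 k : ℝ) / (Fintype.card K : ℝ) ^ v.natDegree else 0)) := by
            apply Finset.sum_le_sum
            intro v hv
            rw [mem_VR] at hv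
            exact local_sum k hk hkK hq5 v hv.2.1 hv.2.2.1 _ F
        _ = _ := Finset.sum_add_distrib
        _ ≤ 1 / 32 + 1 / 16 := add_le_add (gd_one k R (n / 2) (by omega) hq3)
            (gd_two k n R (n / 2) (by omega) hq4 hR F hF0 hF hgood)
        _ ≤ 1 / 8 := by norm_num
  · intro c hc
    rw [mem_LW] at hc
    obtain ⟨hc0, r, hr, hρ⟩ := hc
    have hr1 : 1 ≤ r := by
      by_contra hr0
      have : r = 0 := by omega
      subst this
      exact hc0 (lin_eq_zero (rho_zero.1 hρ))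
    exact low_van hψ k n m E R (n / 2) (by omega) hkK F0 L hm hE c r hρ hr1 (by omega) hr

end MP_570bef_ntG
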