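import Pool.Agent.Lib.MP_570bef_ntG.Bas

/-! JOB MulA.  A function whose divisor sum is multiplicative is multiplicative.

`DV_mul`: for `b1, b2` monic and coprime the map `(d1, d2) ↦ d1 * d2` is a bijection `DV b1 ×ˢ DV b2 → DV (b1 * b2)` (`mem_DV`).  Well defined: `Monic.mul`, `mul_dvd_mul`.  Injective: `d1 d2 = e1 e2`: `d1` is prime to `e2` (`d1 ∣ b1`, `e2 ∣ b2`: `IsCoprime.of_isCoprime_of_dvd_left` etc.), `d1 ∣ e1 * e2` so `d1 ∣ e1`, symmetric, both monic, so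
`d1 = e1` (`Polynomial.eq_of_monic_of_associated`, `associated_of_dvd_dvd`), then cancel.  Surjective: `d ∣ b1 * b2`: `exists_dvd_and_dvd_of_dvd_mul` gives `d = x1 * x2`, `x1 ∣ b1`, `x2 ∣ b2`; normalise: `d1 := C (lc x1)⁻¹ * x1`, `d2 := C (lc x2)⁻¹ * x2` are monic, `d1 * d2 = C (lc x1 lc x2)⁻¹ * d = d` because `d` is monic.
So `∑_{d ∈ DV (b1 b2)} f d = ∑_{d1 ∈ DV b1} ∑_{d2 ∈ DV b2} f (d1 d2)`.
`mul_of_divisor_sum`: strong induction on `natDegree (b1 * b2)`.  `∑_{d ∈ DV(b1 b2)} a d = ν(b1 b2) = ν b1 ν b2 = (∑_{d1} a d1)(∑_{d2} a d2) = ∑_{d1, d2} a d1 a d2`.  For every pair `(d1, d2) ≠ (b1, b2)` in `DV b1 × DV b2` the degree of `d1 d2` is smaller than that of `b1 b2` (proper divisor: a monic divisor of the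
same degree is equal) and the induction hypothesis gives `a (d1 d2) = a d1 * a d2` (`d1, d2` coprime, `P` passes to divisors).  Cancel all these terms: `Finset.sum_erase`/`Finset.add_sum_erase` on the product set. -/

open Polynomial MP_570bef_ntF MP_1ad228_ntD

namespace MP_570bef_ntG

variable {K : Type} [Field K] [Fintype K]

private theorem MulA_inj (b1 b2 d1 d2 e1 e2 : K[X]) (hc : IsCoprime b1 b2) (hd1m : d1.Monic) (he1m : e1.Monic)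
    (hd1 : d1 ∣ b1) (hd2 : d2 ∣ b2) (he1 : e1 ∣ b1) (he2 : e2 ∣ b2) (h : d1 * d2 = e1 * e2) : d1 = e1 ∧ d2 = e2 := by
  have c1 : IsCoprime d1 e2 := (hc.of_isCoprime_of_dvd_left hd1).of_isCoprime_of_dvd_right he2
  have c2 : IsCoprime e1 d2 := (hc.of_isCoprime_of_dvd_left he1).of_isCoprime_of_dvd_right hd2
  have k1 : d1 ∣ e1 := c1.dvd_of_dvd_mul_right ⟨d2, h.symm⟩
  have k2 : e1 ∣ d1 := c2.dvd_of_dvd_mul_right ⟨e2, h⟩
  have k3 : d1 = e1 := eq_of_monic_of_associated hd1m he1m (associated_of_dvd_dvd k1 k2)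
  refine ⟨k3, ?_⟩
  subst k3
  exact mul_left_cancel₀ hd1m.ne_zero h

private theorem MulA_surj (b1 b2 d : K[X]) (hd : d.Monic) (hdvd : d ∣ b1 * b2) :
    ∃ d1 d2 : K[X], d1.Monic ∧ d1 ∣ b1 ∧ d2.Monic ∧ d2 ∣ b2 ∧ d1 * d2 = d := by
  obtain ⟨x1, x2, hx1, hx2, hx⟩ := exists_dvd_and_dvd_of_dvd_mul hdvd
  have n1 : x1 ≠ 0 := fun h => hd.ne_zero (by rw [hx, h, zero_mul])
  have n2 : x2 ≠ 0 := fun h => hd.ne_zero (by rw [hx, h, mul_zero])
  have l1 : x1.leadingCoeff ≠ 0 := leadingCoeff_ne_zero.2 n1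
  have l2 : x2.leadingCoeff ≠ 0 := leadingCoeff_ne_zero.2 n2
  have u1 : IsUnit (C x1.leadingCoeff⁻¹) := isUnit_C.2 (isUnit_iff_ne_zero.2 (inv_ne_zero l1))
  have u2 : IsUnit (C x2.leadingCoeff⁻¹) := isUnit_C.2 (isUnit_iff_ne_zero.2 (inv_ne_zero l2))
  refine ⟨x1 * C x1.leadingCoeff⁻¹, x2 * C x2.leadingCoeff⁻¹, monic_mul_leadingCoeff_inv n1,
    (IsUnit.mul_right_dvd u1).2 hx1, monic_mul_leadingCoeff_inv n2, (IsUnit.mul_right_dvd u2).2 hx2, ?_⟩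
  have hl : x1.leadingCoeff * x2.leadingCoeff = 1 := by
    rw [← leadingCoeff_mul, ← hx]; exact hd
  have hl' : x1.leadingCoeff⁻¹ * x2.leadingCoeff⁻¹ = 1 := by
    rw [← mul_inv, hl, inv_one]
  have e1 : x1 * C x1.leadingCoeff⁻¹ * (x2 * C x2.leadingCoeff⁻¹) =
      x1 * x2 * C (x1.leadingCoeff⁻¹ * x2.leadingCoeff⁻¹) := by
    rw [C_mul]; ring
  rw [e1, hl', C_1, mul_one, hx]

theorem DV_mul (b1 b2 : K[X]) (h1 : b1.Monic) (h2 : b2.Monic) (hc : IsCoprime b1 b2) (f : K[X] → ℂ) :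
    ∑ d ∈ DV (b1 * b2), f d = ∑ d1 ∈ DV b1, ∑ d2 ∈ DV b2, f (d1 * d2) := by
  rw [← Finset.sum_product' (DV b1) (DV b2) (fun d1 d2 => f (d1 * d2))]
  symm
  refine Finset.sum_bij (fun p _ => p.1 * p.2) ?_ ?_ ?_ ?_
  · intro p hp
    rw [Finset.mem_product, mem_DV h1.ne_zero, mem_DV h2.ne_zero] at hp
    rw [mem_DV (h1.mul h2).ne_zero]
    exact ⟨hp.1.1.mul hp.2.1, mul_dvd_mul hp.1.2 hp.2.2⟩
  · intro p hp p' hp' h
    rw [Finset.mem_product, mem_DV h1.ne_zero, mem_DV h2.ne_zero] at hp hp'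
    have := MulA_inj b1 b2 p.1 p.2 p'.1 p'.2 hc hp.1.1 hp'.1.1 hp.1.2 hp.2.2 hp'.1.2 hp'.2.2 h
    exact Prod.ext this.1 this.2
  · intro d hd
    rw [mem_DV (h1.mul h2).ne_zero] at hd
    obtain ⟨d1, d2, m1, k1, m2, k2, h⟩ := MulA_surj b1 b2 d hd.1 hd.2
    refine ⟨(d1, d2), ?_, h⟩
    rw [Finset.mem_product, mem_DV h1.ne_zero, mem_DV h2.ne_zero]
    exact ⟨⟨m1, k1⟩, ⟨m2, k2⟩⟩
  · intro p _
    rfl

theorem mul_of_divisor_sum (D : ℕ) (P : K[X] → Prop) (hP : ∀ b d : K[X], P b → d ∣ b → P d) (a ν : K[X] → ℂ)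
    (hs : ∀ b : K[X], b.Monic → b.natDegree ≤ D → P b → ∑ d ∈ DV b, a d = ν b)
    (hν : ∀ b1 b2 : K[X], b1.Monic → b2.Monic → IsCoprime b1 b2 → ν (b1 * b2) = ν b1 * ν b2)
    (b1 b2 : K[X]) (h1 : b1.Monic) (h2 : b2.Monic) (hc : IsCoprime b1 b2) (hD : (b1 * b2).natDegree ≤ D)
    (hPb : P (b1 * b2)) : a (b1 * b2) = a b1 * a b2 := by
  classical
  obtain ⟨n, hn⟩ : ∃ n, (b1 * b2).natDegree = n := ⟨_, rfl⟩
  induction n using Nat.strong_induction_on generalizing b1 b2 with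
  | _ n ih =>
    have hd1 : b1.natDegree + b2.natDegree = n := by rw [← hn, h1.natDegree_mul h2]
    have e1 := hs (b1 * b2) (h1.mul h2) hD hPb
    rw [hν b1 b2 h1 h2 hc, ← hs b1 h1 (by omega) (hP _ _ hPb (Dvd.intro _ rfl)),
      ← hs b2 h2 (by omega) (hP _ _ hPb (Dvd.intro_left _ rfl)), DV_mul b1 b2 h1 h2 hc, Finset.sum_mul_sum,
      ← Finset.sum_product' (DV b1) (DV b2) (fun d1 d2 => a (d1 * d2)),
      ← Finset.sum_product' (DV b1) (DV b2) (fun d1 d2 => a d1 * a d2)] at e1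
    have hmem : (b1, b2) ∈ DV b1 ×ˢ DV b2 := by
      rw [Finset.mem_product, mem_DV h1.ne_zero, mem_DV h2.ne_zero]
      exact ⟨⟨h1, dvd_rfl⟩, ⟨h2, dvd_rfl⟩⟩
    rw [← Finset.add_sum_erase _ _ hmem, ← Finset.add_sum_erase (DV b1 ×ˢ DV b2)
      (fun p : K[X] × K[X] => a p.1 * a p.2) hmem] at e1
    have e2 : ∑ p ∈ (DV b1 ×ˢ DV b2).erase (b1, b2), a (p.1 * p.2) =
        ∑ p ∈ (DV b1 ×ˢ DV b2).erase (b1, b2), a p.1 * a p.2 := by
      refine Finset.sum_congr rfl fun p hp => ?_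
      rw [Finset.mem_erase, Finset.mem_product, mem_DV h1.ne_zero, mem_DV h2.ne_zero] at hp
      obtain ⟨hne, ⟨m1, k1⟩, ⟨m2, k2⟩⟩ := hp
      have l1 : p.1.natDegree ≤ b1.natDegree := natDegree_le_of_dvd k1 h1.ne_zero
      have l2 : p.2.natDegree ≤ b2.natDegree := natDegree_le_of_dvd k2 h2.ne_zero
      have hlt : p.1.natDegree + p.2.natDegree < n := by
        by_contra hcon
        have q1 : b1 = p.1 := eq_of_monic_of_dvd_of_natDegree_le m1 h1 k1 (by omega)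
        have q2 : b2 = p.2 := eq_of_monic_of_dvd_of_natDegree_le m2 h2 k2 (by omega)
        exact hne (Prod.ext q1.symm q2.symm)
      have hcc : IsCoprime p.1 p.2 := (hc.of_isCoprime_of_dvd_left k1).of_isCoprime_of_dvd_right k2
      have hdeg : (p.1 * p.2).natDegree = p.1.natDegree + p.2.natDegree := m1.natDegree_mul m2
      exact ih _ (by rw [hdeg]; exact hlt) p.1 p.2 m1 m2 hcc (by rw [hdeg]; omega)
        (hP _ _ hPb (mul_dvd_mul k1 k2)) rfl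
    simp only at e1
    rw [e2] at e1
    exact add_right_cancel e1

end MP_570bef_ntG
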