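import Pool.Agent.Lib.MP_570bef_ntG.Bas

/-! JOB NsA.  Number of solutions of a linear congruence modulo a prime, and the decomposition of residues modulo `v^(e+1)`.  `d := natDegree v`.

`lin_count`: `z ∈ (RR K d)^(t+1)` with `v ∣ h + ∑ g_i z_i`, where `¬ v ∣ g i0`: for every choice of the `z_i` (`i ≠ i0`) there is exactly one `z_{i0} ∈ RR K d`: `g_{i0}` is a unit modulo `v` (`u g_{i0} ≡ 1`, `Irreducible.coprime_iff_not_dvd`/`EuclideanDomain`), `z_{i0} = (-u (h + ∑_{i≠i0} g_i z_i)) %ₘ v`; `RR_eq`.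
So the number is `(card (RR K d))^t = (q^d)^t`.  (Bijection with `(RR K d)^t` via `Fin.insertNth i0`/`Fin.removeNth i0` (`Fin.succAbove`); or `Finset.card_eq_of_equiv`; or: count the functions by `Fintype.piFinset` on `Fin (t+1)` and `Finset.card_eq_sum_card_fiberwise` with the map `z ↦ fun i => z (i0.succAbove i)`.)
`RR_decomp`: for monic `b` and `D` the map `(x, z) ↦ x + b * z` is a bijection `RR K (natDegree b) × RR K D → RR K (natDegree b + D)` (inverse: `%ₘ b`, `/ₘ b`; `Polynomial.div_modByMonic_unique`; degrees: `degree (b z) < natDegree b + D`): state as an equality of sums.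
`piRR_decomp`: the same for `s`-tuples: `∑_{y ∈ (RR (deg b + D))^s} f y = ∑_{x ∈ (RR (deg b))^s} ∑_{z ∈ (RR D)^s} f (fun i => x i + b * z i)` (`Finset.sum_nbij'` on the product, componentwise, or `Finset.sum_bij'`). -/

open Polynomial MP_570bef_ntF MP_1ad228_ntD

namespace MP_570bef_ntG

variable {K : Type} [Field K] [Fintype K]

theorem NsA_quot {b : K[X]} (hb : b.Monic) (D : ℕ) {y : K[X]} (hy : y ∈ RR K (b.natDegree + D)) :
    y /ₘ b ∈ RR K D := by
  by_cases h0 : y /ₘ b = 0
  · rw [h0]
    exact zero_mem_RR D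
  · have hy0 : y ≠ 0 := by
      rintro rfl
      exact h0 (zero_divByMonic b)
    rw [mem_RR, degree_eq_natDegree hy0, Nat.cast_lt] at hy
    rw [mem_RR, degree_eq_natDegree h0, Nat.cast_lt, natDegree_divByMonic y hb]
    have h1 : ¬ y.degree < b.degree := fun h => h0 ((divByMonic_eq_zero_iff hb).2 h)
    rw [degree_eq_natDegree hy0, degree_eq_natDegree hb.ne_zero, Nat.cast_lt] at h1
    omega

theorem NsA_comb {b : K[X]} (hb : b.Monic) (D : ℕ) {x z : K[X]} (hx : x ∈ RR K b.natDegree)
    (hz : z ∈ RR K D) : x + b * z ∈ RR K (b.natDegree + D) := by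
  apply RR_add
  · rw [mem_RR] at hx ⊢
    refine lt_of_lt_of_le hx ?_
    exact_mod_cast Nat.le_add_right _ _
  · by_cases h0 : z = 0
    · rw [h0, mul_zero]
      exact zero_mem_RR _
    · rw [mem_RR, degree_eq_natDegree h0, Nat.cast_lt] at hz
      rw [mem_RR, degree_eq_natDegree (mul_ne_zero hb.ne_zero h0), Nat.cast_lt,
        natDegree_mul hb.ne_zero h0]
      omega

open Classical in
theorem lin_count (t : ℕ) (v h : K[X]) (hv : Irreducible v) (hm : v.Monic) (g : Fin (t + 1) → K[X])
    (i0 : Fin (t + 1)) (hg : ¬ v ∣ g i0) :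
    ((Fintype.piFinset (fun _ : Fin (t + 1) => RR K v.natDegree)).filter (fun z => v ∣ h + ∑ i, g i * z i)).card =
      (Fintype.card K ^ v.natDegree) ^ t := by
  obtain ⟨s, u, hsu⟩ := (hv.coprime_iff_not_dvd).2 hg
  have hcard : (Fintype.piFinset (fun _ : Fin t => RR K v.natDegree)).card =
      (Fintype.card K ^ v.natDegree) ^ t := by
    rw [Fintype.card_piFinset, Finset.prod_const, card_RR, Finset.card_univ, Fintype.card_fin]
  rw [← hcard]
  have hval : ∀ w : Fin t → K[X],
      v ∣ (-(u * (h + ∑ j, g (i0.succAbove j) * w j))) %ₘ v + u * (h + ∑ j, g (i0.succAbove j) * w j) := by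
    intro w
    obtain ⟨c, hc⟩ := RR_mod hm (-(u * (h + ∑ j, g (i0.succAbove j) * w j)))
    refine ⟨-c, ?_⟩
    linear_combination -hc
  refine Finset.card_nbij' (fun z j => z (i0.succAbove j))
    (fun w => i0.insertNth ((-(u * (h + ∑ j, g (i0.succAbove j) * w j))) %ₘ v) w) ?_ ?_ ?_ ?_
  · intro z hz
    simp only [Finset.coe_filter, Set.mem_ofPred_eq, Fintype.mem_piFinset] at hz
    simp only [Finset.mem_coe, Fintype.mem_piFinset]
    exact fun j => hz.1 _
  · intro w hw
    simp only [Finset.mem_coe, Fintype.mem_piFinset] at hw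
    simp only [Finset.coe_filter, Set.mem_ofPred_eq, Fintype.mem_piFinset]
    refine ⟨?_, ?_⟩
    · rw [Fin.forall_iff_succAbove i0]
      refine ⟨?_, fun j => ?_⟩
      · rw [Fin.insertNth_apply_same]
        exact mod_mem_RR hm _
      · rw [Fin.insertNth_apply_succAbove]
        exact hw j
    · rw [Fin.sum_univ_succAbove _ i0, Fin.insertNth_apply_same]
      simp only [Fin.insertNth_apply_succAbove]
      obtain ⟨c, hc⟩ := hval w
      refine ⟨g i0 * c + s * (h + ∑ j, g (i0.succAbove j) * w j), ?_⟩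
      linear_combination g i0 * hc - (h + ∑ j, g (i0.succAbove j) * w j) * hsu
  · intro z hz
    simp only [Finset.coe_filter, Set.mem_ofPred_eq, Fintype.mem_piFinset] at hz
    obtain ⟨hz1, c, hc⟩ := hz
    rw [Fin.sum_univ_succAbove _ i0] at hc
    obtain ⟨c', hc'⟩ := hval (fun j => z (i0.succAbove j))
    have h3 : (-(u * (h + ∑ j, g (i0.succAbove j) * z (i0.succAbove j)))) %ₘ v = z i0 := by
      apply RR_eq hm (mod_mem_RR hm _) (hz1 i0)
      refine ⟨c' - u * c - s * z i0, ?_⟩
      linear_combination hc' - u * hc + z i0 * hsu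
    change i0.insertNth ((-(u * (h + ∑ j, g (i0.succAbove j) * z (i0.succAbove j)))) %ₘ v)
      (fun j => z (i0.succAbove j)) = z
    rw [h3]
    exact Fin.insertNth_self_removeNth i0 z
  · intro w hw
    funext j
    change (i0.insertNth ((-(u * (h + ∑ j, g (i0.succAbove j) * w j))) %ₘ v) w : Fin (t + 1) → K[X])
      (i0.succAbove j) = w j
    rw [Fin.insertNth_apply_succAbove]

theorem piRR_decomp (s : ℕ) (b : K[X]) (hb : b.Monic) (D : ℕ) (f : (Fin s → K[X]) → ℕ) :
    ∑ y ∈ Fintype.piFinset (fun _ : Fin s => RR K (b.natDegree + D)), f y =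
      ∑ x ∈ Fintype.piFinset (fun _ : Fin s => RR K b.natDegree),
        ∑ z ∈ Fintype.piFinset (fun _ : Fin s => RR K D), f (fun i => x i + b * z i) := by
  rw [← Finset.sum_product' (Fintype.piFinset (fun _ : Fin s => RR K b.natDegree))
    (Fintype.piFinset (fun _ : Fin s => RR K D)) (fun x z => f (fun i => x i + b * z i))]
  refine Finset.sum_nbij' (fun y => ((fun i => y i %ₘ b), (fun i => y i /ₘ b)))
    (fun p i => p.1 i + b * p.2 i) ?_ ?_ ?_ ?_ ?_
  · intro y hy
    rw [Fintype.mem_piFinset] at hy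
    rw [Finset.mem_product, Fintype.mem_piFinset, Fintype.mem_piFinset]
    exact ⟨fun i => mod_mem_RR hb _, fun i => NsA_quot hb D (hy i)⟩
  · intro p hp
    rw [Finset.mem_product, Fintype.mem_piFinset, Fintype.mem_piFinset] at hp
    rw [Fintype.mem_piFinset]
    exact fun i => NsA_comb hb D (hp.1 i) (hp.2 i)
  · intro y hy
    funext i
    exact modByMonic_add_div (y i) b
  · intro p hp
    rw [Finset.mem_product, Fintype.mem_piFinset, Fintype.mem_piFinset] at hp
    have h1 : ∀ i, (p.1 i + b * p.2 i) /ₘ b = p.2 i ∧ (p.1 i + b * p.2 i) %ₘ b = p.1 i := by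
      intro i
      apply div_modByMonic_unique (p.2 i) (p.1 i) hb
      refine ⟨rfl, ?_⟩
      exact (mem_RR_monic hb).1 (hp.1 i)
    apply Prod.ext
    · funext i
      exact (h1 i).2
    · funext i
      exact (h1 i).1
  · intro y hy
    congr 1
    funext i
    exact (modByMonic_add_div (y i) b).symm

end MP_570bef_ntG
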