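import Pool.Agent.Lib.MP_570bef_ntG.NsA

/-! JOB NsS.  Hensel: nonsingular solutions modulo `v^e` lift in `(q^d)^t` ways (`t + 1` variables), `d = natDegree v`, `e ≥ 1`.

`NSc k (t+1) v (e+1) F = ∑_{y ∈ (RR ((e+1) d))^(t+1)} [v^(e+1) ∣ ∑ y_i^k - F ∧ ∃ i, ¬ v ∣ y_i]` (`Finset.card_filter`); `(e+1) d = natDegree (v^e) + d` (`Monic.natDegree_pow`); `piRR_decomp` with `b := v^e` (monic), `D := d`: `y_i = x_i + v^e z_i`.
`∃ i, ¬ v ∣ x_i + v^e z_i` iff `∃ i, ¬ v ∣ x_i` (`e ≥ 1`).  `(x + v^e z)^k = x^k + k x^(k-1) v^e z + v^(2e) * (…)`  (`add_pow`, or `Polynomial`-free lemma: `(x+y)^k - x^k - k x^(k-1) y` is divisible by `y^2`: `add_pow_two`-like; in Mathlib `Commute.add_pow`..., e.g. by induction on `k`), and `2e ≥ e + 1`.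
So `v^(e+1) ∣ ∑ y_i^k - F` iff `v^(e+1) ∣ (∑ x_i^k - F) + v^e ∑ k x_i^(k-1) z_i`; this implies `v^e ∣ ∑ x_i^k - F`; if `∑ x_i^k - F = v^e h` it is equivalent to `v ∣ h + ∑ (k x_i^(k-1)) z_i` (`mul_dvd_mul_iff_left`).
For `x` with `v^e ∣ ∑ x_i^k - F` and some `i0` with `¬ v ∣ x_{i0}`: `¬ v ∣ k x_{i0}^(k-1)` (`(k : K) ≠ 0`, so `(k : K[X]) = C k` is a unit; `Prime.dvd_of_dvd_pow`), `lin_count` gives `(q^d)^t` values of `z`; for all other `x` there is no `z`.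
The number of such `x` is `NSc k (t+1) v e F` (`natDegree (v^e) = e * d`). -/

open Polynomial MP_570bef_ntF MP_1ad228_ntD

namespace MP_570bef_ntG

variable {K : Type} [Field K] [Fintype K]

private theorem NsS_sum (k s e : ℕ) (he : 1 ≤ e) (v : K[X]) (x z : Fin s → K[X]) :
    v ^ (e + 1) ∣ (∑ i, (x i + v ^ e * z i) ^ k) - (∑ i, x i ^ k) -
      v ^ e * ∑ i, ((k : K[X]) * x i ^ (k - 1)) * z i := by
  rw [Finset.mul_sum, ← Finset.sum_sub_distrib, ← Finset.sum_sub_distrib]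
  refine Finset.dvd_sum fun i _ => ?_
  obtain ⟨c, hc⟩ := Polynomial.powAddExpansion (x i) (v ^ e * z i) k
  rw [hc]
  have h1 : v ^ (e + 1) ∣ (v ^ e * z i) ^ 2 := by
    rw [mul_pow, ← pow_mul]
    exact Dvd.dvd.mul_right (pow_dvd_pow v (by omega)) _
  have h2 : x i ^ k + (k : K[X]) * x i ^ (k - 1) * (v ^ e * z i) + c * (v ^ e * z i) ^ 2 - x i ^ k -
      v ^ e * ((k : K[X]) * x i ^ (k - 1) * z i) = c * (v ^ e * z i) ^ 2 := by ring
  rw [h2]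
  exact Dvd.dvd.mul_left h1 _

private theorem NsS_cop (k : ℕ) (hkK : (k : K) ≠ 0) (v x : K[X]) (hv : Irreducible v)
    (hx : ¬ v ∣ x) : ¬ v ∣ (k : K[X]) * x ^ (k - 1) := by
  intro hd
  rcases hv.prime.dvd_or_dvd hd with h | h
  · have h1 : IsUnit (k : K[X]) := by
      have h2 : (k : K[X]) = C (k : K) := (C_eq_natCast k).symm
      rw [h2]
      exact isUnit_C.2 (isUnit_iff_ne_zero.2 hkK)
    exact hv.not_isUnit (isUnit_of_dvd_unit h h1)
  · exact hx (hv.prime.dvd_of_dvd_pow h)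

private theorem NsS_iff (k t e : ℕ) (he : 1 ≤ e) (v F : K[X]) (hv : Irreducible v)
    (x z : Fin (t + 1) → K[X]) (h : K[X]) (hh : (∑ i, x i ^ k) - F = v ^ e * h) :
    v ^ (e + 1) ∣ (∑ i, (x i + v ^ e * z i) ^ k) - F ↔
      v ∣ h + ∑ i, ((k : K[X]) * x i ^ (k - 1)) * z i := by
  have h1 := NsS_sum k (t + 1) e he v x z
  have h2 : (∑ i, (x i + v ^ e * z i) ^ k) - F =
      ((∑ i, (x i + v ^ e * z i) ^ k) - (∑ i, x i ^ k) -
        v ^ e * ∑ i, ((k : K[X]) * x i ^ (k - 1)) * z i) +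
      v ^ e * (h + ∑ i, ((k : K[X]) * x i ^ (k - 1)) * z i) := by
    rw [mul_add, ← hh]
    ring
  rw [h2, dvd_add_right h1, pow_succ, mul_dvd_mul_iff_left (pow_ne_zero e hv.ne_zero)]

private theorem NsS_unit (e : ℕ) (he : 1 ≤ e) (v x z : K[X]) : v ∣ x + v ^ e * z ↔ v ∣ x :=
  dvd_add_left (Dvd.dvd.mul_right (dvd_pow_self v (by omega)) z)

private theorem NsS_down (k s e : ℕ) (he : 1 ≤ e) (v F : K[X]) (x z : Fin s → K[X])
    (h : v ^ (e + 1) ∣ (∑ i, (x i + v ^ e * z i) ^ k) - F) : v ^ e ∣ (∑ i, x i ^ k) - F := by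
  have h0 : v ^ e ∣ v ^ (e + 1) := pow_dvd_pow v (Nat.le_succ e)
  have h1 := h0.trans (NsS_sum k s e he v x z)
  have h2 := h0.trans h
  have h3 : (∑ i, x i ^ k) - F = ((∑ i, (x i + v ^ e * z i) ^ k) - F) -
      ((∑ i, (x i + v ^ e * z i) ^ k) - (∑ i, x i ^ k) -
        v ^ e * ∑ i, ((k : K[X]) * x i ^ (k - 1)) * z i) -
      v ^ e * ∑ i, ((k : K[X]) * x i ^ (k - 1)) * z i := by ring
  rw [h3]
  exact dvd_sub (dvd_sub h2 h1) (dvd_mul_right _ _)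

open Classical in
private theorem NsS_inner (k t e : ℕ) (hkK : (k : K) ≠ 0) (he : 1 ≤ e) (v F : K[X])
    (hv : Irreducible v) (hm : v.Monic) (x : Fin (t + 1) → K[X]) :
    (∑ z ∈ Fintype.piFinset (fun _ : Fin (t + 1) => RR K v.natDegree),
      if v ^ (e + 1) ∣ (∑ i, (x i + v ^ e * z i) ^ k) - F ∧ ∃ i, ¬ v ∣ x i + v ^ e * z i
        then 1 else 0) =
      if v ^ e ∣ (∑ i, x i ^ k) - F ∧ ∃ i, ¬ v ∣ x i then
        (Fintype.card K ^ v.natDegree) ^ t else 0 := by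
  by_cases hx : v ^ e ∣ (∑ i, x i ^ k) - F ∧ ∃ i, ¬ v ∣ x i
  · rw [if_pos hx]
    obtain ⟨⟨h, hh⟩, i0, hi0⟩ := hx
    rw [← lin_count t v h hv hm (fun i => (k : K[X]) * x i ^ (k - 1)) i0
      (NsS_cop k hkK v (x i0) hv hi0), Finset.card_filter]
    refine Finset.sum_congr rfl fun z _ => ?_
    by_cases h1 : v ∣ h + ∑ i, ((k : K[X]) * x i ^ (k - 1)) * z i
    · rw [if_pos h1, if_pos]
      refine ⟨(NsS_iff k t e he v F hv x z h hh).2 h1, i0, ?_⟩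
      rw [NsS_unit e he]
      exact hi0
    · rw [if_neg h1, if_neg]
      intro h2
      exact h1 ((NsS_iff k t e he v F hv x z h hh).1 h2.1)
  · rw [if_neg hx]
    refine Finset.sum_eq_zero fun z _ => ?_
    rw [if_neg]
    rintro ⟨h1, i, h2⟩
    refine hx ⟨NsS_down k (t + 1) e he v F x z h1, i, ?_⟩
    rw [NsS_unit e he] at h2
    exact h2

theorem ns_step (k t e : ℕ) (hk : 1 ≤ k) (hkK : (k : K) ≠ 0) (he : 1 ≤ e) (v F : K[X]) (hv : Irreducible v)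
    (hm : v.Monic) :
    NSc k (t + 1) v (e + 1) F = (Fintype.card K ^ v.natDegree) ^ t * NSc k (t + 1) v e F := by
  classical
  have hd : (v ^ e).natDegree = e * v.natDegree := hm.natDegree_pow e
  have hd1 : (e + 1) * v.natDegree = (v ^ e).natDegree + v.natDegree := by
    rw [hd]
    ring
  have h1 : NSc k (t + 1) v (e + 1) F =
      ∑ y ∈ Fintype.piFinset (fun _ : Fin (t + 1) => RR K ((v ^ e).natDegree + v.natDegree)),
        if v ^ (e + 1) ∣ (∑ i, y i ^ k) - F ∧ ∃ i, ¬ v ∣ y i then 1 else 0 := by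
    unfold NSc
    rw [Finset.card_filter, hd1]
  have h2 : NSc k (t + 1) v e F =
      ∑ x ∈ Fintype.piFinset (fun _ : Fin (t + 1) => RR K (v ^ e).natDegree),
        if v ^ e ∣ (∑ i, x i ^ k) - F ∧ ∃ i, ¬ v ∣ x i then 1 else 0 := by
    unfold NSc
    rw [Finset.card_filter, hd]
  rw [h1, piRR_decomp (t + 1) (v ^ e) (hm.pow e), h2, Finset.mul_sum]
  refine Finset.sum_congr rfl fun x _ => ?_
  rw [NsS_inner k t e hkK he v F hv hm x, mul_ite, mul_one, mul_zero]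

end MP_570bef_ntG
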