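import Pool.Agent.Lib.MP_570bef_ntG.Fib

/-! JOB SgS.  Singular solutions modulo `v^e`: all coordinates divisible by `v`.  `d := natDegree v ≥ 1`.

`NB_eq_add`: `natDegree (v^e) = e * d`; the solutions counted by `NB k s (v^e) F` are the disjoint union of those with some `¬ v ∣ x_i` and those with all `v ∣ x_i` (`Finset.filter_card_add_filter_neg_card_eq_card`, `not_exists`, `not_not`).
`sg_param`: (`e ≥ 1`) `x ↦ v * x` is a bijection from `RR K ((e-1) d)` onto `{x ∈ RR K (e d) : v ∣ x}` (`degree (v y) = d + degree y`); so for every property `p`: the number of `x ∈ (RR K (e d))^s` with `p x` and all `v ∣ x_i` is the number of `y ∈ (RR K ((e-1) d))^s` with `p (v y)`.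
`sg_small`: `1 ≤ e ≤ k`: `v^e ∣ v^k ∣ (v y_i)^k`, so the condition is `v^e ∣ -F`, independent of `y`: `card = (q^((e-1)d))^s` (`Fintype.card_piFinset_const`, `card_RR`) or `0`.
`sg_large_zero`: `e > k`, `¬ v^k ∣ F`: `v^k ∣ v^e ∣ v^k ∑ y_i^k - F` would give `v^k ∣ F`.
`sg_large`: `e > k`, `F = v^k F'`: `v^e ∣ v^k (∑ y_i^k - F')` iff `v^(e-k) ∣ ∑ y_i^k - F'`.  `(e-1) d = m + 1` with `m := (e-1) d - 1` (`e ≥ 2`, `d ≥ 1`), `RR K (m+1) = SS K m` (definition), `count_fib` with `w := 0`, `M := 1`, `b := v^(e-k)` (`natDegree = (e-k) d ≤ (e-1) d` since `k ≥ 1`): the number is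
`(q^((e-1)d - (e-k)d))^s NB k s (v^(e-k)) F'` and `(e-1)d - (e-k)d = (k-1) d`. -/

open Polynomial MP_570bef_ntF MP_1ad228_ntD

namespace MP_570bef_ntG

variable {K : Type} [Field K] [Fintype K]

private theorem SgS_mem (e : ℕ) (he : 1 ≤ e) (v y : K[X]) (hm : v.Monic) :
    v * y ∈ RR K (e * v.natDegree) ↔ y ∈ RR K ((e - 1) * v.natDegree) := by
  by_cases hy : y = 0
  · rw [hy, mul_zero]
    exact ⟨fun _ => zero_mem_RR _, fun _ => zero_mem_RR _⟩
  · obtain ⟨e, rfl⟩ : ∃ e', e = e' + 1 := ⟨e - 1, by omega⟩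
    rw [mem_RR, mem_RR, degree_mul, degree_eq_natDegree hm.ne_zero, degree_eq_natDegree hy,
      ← Nat.cast_add, Nat.cast_lt, Nat.cast_lt, Nat.add_sub_cancel, Nat.add_mul, Nat.one_mul]
    constructor
    · intro h
      omega
    · intro h
      omega

open Classical in
private theorem SgS_param (s e : ℕ) (he : 1 ≤ e) (v : K[X]) (hm : v.Monic) (p : (Fin s → K[X]) → Prop) :
    ((Fintype.piFinset (fun _ : Fin s => RR K (e * v.natDegree))).filter
      (fun x => p x ∧ ∀ i, v ∣ x i)).card =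
    ((Fintype.piFinset (fun _ : Fin s => RR K ((e - 1) * v.natDegree))).filter
      (fun y => p (fun i => v * y i))).card := by
  symm
  refine Finset.card_bij (fun y _ => fun i => v * y i) ?_ ?_ ?_
  · intro y hy
    rw [Finset.mem_filter, Fintype.mem_piFinset] at hy
    rw [Finset.mem_filter, Fintype.mem_piFinset]
    exact ⟨fun i => (SgS_mem e he v (y i) hm).2 (hy.1 i), hy.2, fun i => dvd_mul_right v (y i)⟩
  · intro y _ z _ h
    funext i
    exact mul_left_cancel₀ hm.ne_zero (congrFun h i)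
  · intro x hx
    rw [Finset.mem_filter, Fintype.mem_piFinset] at hx
    choose y hy using hx.2.2
    have hxy : x = fun i => v * y i := funext hy
    refine ⟨y, ?_, hxy.symm⟩
    rw [Finset.mem_filter, Fintype.mem_piFinset]
    refine ⟨fun i => (SgS_mem e he v (y i) hm).1 ?_, ?_⟩
    · rw [← hy i]
      exact hx.1 i
    · rw [← hxy]
      exact hx.2.1

theorem NB_eq_add (k s e : ℕ) (v F : K[X]) (hm : v.Monic) :
    NB k s (v ^ e) F = NSc k s v e F + SGc k s v e F := by
  classical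
  unfold NB NSc SGc
  rw [hm.natDegree_pow, ← Finset.card_union_of_disjoint]
  · congr 1
    ext x
    rw [Finset.mem_union, Finset.mem_filter, Finset.mem_filter, Finset.mem_filter]
    constructor
    · rintro ⟨h1, h2⟩
      by_cases h : ∃ i, ¬ v ∣ x i
      · exact Or.inl ⟨h1, h2, h⟩
      · exact Or.inr ⟨h1, h2, fun i => by_contra fun hi => h ⟨i, hi⟩⟩
    · rintro (⟨h1, h2, _⟩ | ⟨h1, h2, _⟩)
      · exact ⟨h1, h2⟩
      · exact ⟨h1, h2⟩
  · rw [Finset.disjoint_left]
    intro x hx hx'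
    rw [Finset.mem_filter] at hx hx'
    obtain ⟨i, hi⟩ := hx.2.2
    exact hi (hx'.2.2 i)

open Classical in
theorem sg_small (k s e : ℕ) (he : 1 ≤ e) (hek : e ≤ k) (v F : K[X]) (hv : Irreducible v) (hm : v.Monic) :
    SGc k s v e F = if v ^ e ∣ F then (Fintype.card K ^ ((e - 1) * v.natDegree)) ^ s else 0 := by
  unfold SGc
  rw [SgS_param s e he v hm (fun x => v ^ e ∣ (∑ i, x i ^ k) - F)]
  have h1 : ∀ y : Fin s → K[X], v ^ e ∣ ∑ i, (v * y i) ^ k := by
    intro y
    refine Finset.dvd_sum fun i _ => ?_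
    rw [mul_pow]
    exact Dvd.dvd.mul_right (pow_dvd_pow v hek) _
  by_cases hF : v ^ e ∣ F
  · rw [if_pos hF, Finset.filter_true_of_mem (fun y _ => dvd_sub (h1 y) hF),
      Fintype.card_piFinset_const, card_RR]
  · rw [if_neg hF, Finset.card_eq_zero, Finset.filter_eq_empty_iff]
    intro y _ h
    exact hF ((dvd_sub_right (h1 y)).1 h)

theorem sg_large_zero (k s e : ℕ) (hk : 1 ≤ k) (hek : k < e) (v F : K[X]) (hv : Irreducible v) (hm : v.Monic)
    (hF : ¬ v ^ k ∣ F) : SGc k s v e F = 0 := by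
  classical
  unfold SGc
  rw [Finset.card_eq_zero, Finset.filter_eq_empty_iff]
  rintro x _ ⟨h1, h2⟩
  apply hF
  have h3 : v ^ k ∣ ∑ i, x i ^ k := Finset.dvd_sum fun i _ => pow_dvd_pow_of_dvd (h2 i) k
  exact (dvd_sub_right h3).1 ((pow_dvd_pow v hek.le).trans h1)

theorem sg_large (k s e : ℕ) (hk : 1 ≤ k) (hek : k < e) (v F' : K[X]) (hv : Irreducible v) (hm : v.Monic) :
    SGc k s v e (v ^ k * F') = (Fintype.card K ^ ((k - 1) * v.natDegree)) ^ s * NB k s (v ^ (e - k)) F' := by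
  classical
  have hd : 1 ≤ v.natDegree := natDegree_pos_iff_degree_pos.2 (degree_pos_of_irreducible hv)
  have h0 : 1 ≤ (e - 1) * v.natDegree := Nat.mul_pos (by omega) hd
  obtain ⟨m, hm1⟩ : ∃ m, (e - 1) * v.natDegree = m + 1 := ⟨(e - 1) * v.natDegree - 1, by omega⟩
  have hdeg : (v ^ (e - k)).natDegree = (e - k) * v.natDegree := hm.natDegree_pow _
  have hle : (v ^ (e - k)).natDegree ≤ m + 1 := by
    rw [hdeg, ← hm1]
    exact Nat.mul_le_mul_right _ (by omega)
  have h2 := count_fib k s m (v ^ (e - k)) 1 F' (fun _ => 0) (hm.pow _) hle isCoprime_one_right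
  have h3 : m + 1 - (v ^ (e - k)).natDegree = (k - 1) * v.natDegree := by
    rw [hdeg, ← hm1, ← Nat.sub_mul]
    congr 1
    omega
  rw [h3] at h2
  rw [← h2]
  unfold SGc
  rw [SgS_param s e (by omega) v hm (fun x => v ^ e ∣ (∑ i, x i ^ k) - v ^ k * F'), hm1]
  congr 1
  ext y
  rw [Finset.mem_filter, Finset.mem_filter]
  refine and_congr Iff.rfl ?_
  have h4 : (∑ i, (v * y i) ^ k) - v ^ k * F' = v ^ k * ((∑ i, (0 + 1 * y i) ^ k) - F') := by
    rw [mul_sub, Finset.mul_sum]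
    congr 1
    refine Finset.sum_congr rfl fun i _ => ?_
    rw [zero_add, one_mul, mul_pow]
  have h5 : v ^ e = v ^ k * v ^ (e - k) := by
    rw [← pow_add]
    congr 1
    omega
  rw [h4, h5]
  exact mul_dvd_mul_iff_left (pow_ne_zero k hm.ne_zero)

end MP_570bef_ntG
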