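import Pool.Agent.Lib.MP_570bef_ntG.NsS
import Pool.Agent.Lib.MP_570bef_ntG.SgS
import Pool.Agent.Lib.MP_570bef_ntG.NbM

/-! JOB SgN.  The differences `nu (v^e) - nu (v^(e-1))` for `e ≥ 2`.  `Q := q^(natDegree v)` (real), `s = k + 1`, `natDegree (v^e) = e * natDegree v`, so `(q^(natDegree (v^e)))^k = Q^(e k)`.

`nu (v^e) = NSc e / Q^(ek) + SGc e / Q^(ek)` (`NB_eq_add`), and for `e ≥ 2` `NSc e / Q^(ek) = NSc (e-1) / Q^((e-1)k)` (`ns_step` with `t = k`).  So for `e ≥ 2`: `nu (v^e) - nu (v^(e-1)) = σ_e - σ_{e-1}`, `σ_e := SGc k (k+1) v e F / Q^(ek)`.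
`sg_small`: for `1 ≤ e ≤ k`: `σ_e = [v^e ∣ F] Q^((e-1)(k+1)) / Q^(ek) = [v^e ∣ F] / Q^(k+1-e)`.
`sg_large`: for `e > k`, `F = v^k F'`: `σ_e = Q^((k-1)(k+1)) NB (v^(e-k)) F' / Q^(ek) = (1/Q) NB(v^(e-k)) F' / Q^((e-k)k) = (1/Q) nu (v^(e-k)) F'` (`(k-1)(k+1) + 1 = k²`).  For `e = k`: `σ_k = 1/Q = (1/Q) nu (v^0) F'` (`nu_one`).
`diff_ndvd`: `¬ v ∣ F`, `e ≥ 2`: all `σ` vanish (`v^e ∣ F` would give `v ∣ F`; `sg_large_zero`).
`diff_small`: `2 ≤ e ≤ k`: `|σ_e - σ_{e-1}| ≤ 1 / Q^(k+1-e)` (both are in `[0, 1/Q^(k+1-e)]`, `Q ≥ 1`).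
`diff_large_zero`: `e > k`, `¬ v^k ∣ F`: `σ_e = 0`, `σ_{e-1} = 0` (for `e - 1 = k` by `sg_small`).
`diff_large`: `e > k`, `F = v^k F'`: `σ_e - σ_{e-1} = (1/Q) (nu (v^(e-k)) F' - nu (v^(e-k-1)) F')` (for `e = k + 1`: `σ_k` by `sg_small`, `v^k ∣ v^k F'`). -/

open Polynomial MP_570bef_ntF MP_1ad228_ntD

namespace MP_570bef_ntG

variable {K : Type} [Field K] [Fintype K]

private theorem SgN_Qpos (v : K[X]) : (0 : ℝ) < (Fintype.card K : ℝ) ^ v.natDegree := by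
  have := one_le_q (K := K)
  positivity

private theorem SgN_Qone (v : K[X]) : (1 : ℝ) ≤ (Fintype.card K : ℝ) ^ v.natDegree :=
  one_le_pow₀ one_le_q

private theorem SgN_nu (k e : ℕ) (v F : K[X]) (hm : v.Monic) :
    nu k (v ^ e) F = (NSc k (k + 1) v e F : ℝ) / (((Fintype.card K : ℝ) ^ v.natDegree) ^ e) ^ k +
      (SGc k (k + 1) v e F : ℝ) / (((Fintype.card K : ℝ) ^ v.natDegree) ^ e) ^ k := by
  unfold nu
  rw [NB_eq_add k (k + 1) e v F hm, hm.natDegree_pow, Nat.cast_add, add_div, mul_comm e, pow_mul]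

private theorem SgN_step (k e : ℕ) (hk : 1 ≤ k) (hkK : (k : K) ≠ 0) (he : 2 ≤ e) (v F : K[X])
    (hv : Irreducible v) (hm : v.Monic) :
    (NSc k (k + 1) v e F : ℝ) / (((Fintype.card K : ℝ) ^ v.natDegree) ^ e) ^ k =
      (NSc k (k + 1) v (e - 1) F : ℝ) / (((Fintype.card K : ℝ) ^ v.natDegree) ^ (e - 1)) ^ k := by
  obtain ⟨a, rfl⟩ : ∃ a, e = a + 1 := ⟨e - 1, by omega⟩
  rw [Nat.add_sub_cancel, ns_step k k a hk hkK (by omega) v F hv hm]
  have hQ := SgN_Qpos v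
  push_cast
  set Q : ℝ := (Fintype.card K : ℝ) ^ v.natDegree with hQd
  have h1 : (Q ^ (a + 1)) ^ k = Q ^ k * (Q ^ a) ^ k := by
    rw [pow_succ, mul_pow, mul_comm]
  rw [h1, mul_div_mul_left _ _ (pow_ne_zero _ (ne_of_gt hQ))]

private theorem SgN_diff (k e : ℕ) (hk : 1 ≤ k) (hkK : (k : K) ≠ 0) (he : 2 ≤ e) (v F : K[X])
    (hv : Irreducible v) (hm : v.Monic) :
    nu k (v ^ e) F - nu k (v ^ (e - 1)) F =
      (SGc k (k + 1) v e F : ℝ) / (((Fintype.card K : ℝ) ^ v.natDegree) ^ e) ^ k -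
      (SGc k (k + 1) v (e - 1) F : ℝ) / (((Fintype.card K : ℝ) ^ v.natDegree) ^ (e - 1)) ^ k := by
  rw [SgN_nu k e v F hm, SgN_nu k (e - 1) v F hm, SgN_step k e hk hkK he v F hv hm]
  ring

open Classical in
private theorem SgN_small (k e : ℕ) (he : 1 ≤ e) (hek : e ≤ k) (v F : K[X])
    (hv : Irreducible v) (hm : v.Monic) :
    (SGc k (k + 1) v e F : ℝ) / (((Fintype.card K : ℝ) ^ v.natDegree) ^ e) ^ k =
      if v ^ e ∣ F then 1 / ((Fintype.card K : ℝ) ^ v.natDegree) ^ (k + 1 - e) else 0 := by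
  obtain ⟨a, rfl⟩ : ∃ a, e = a + 1 := ⟨e - 1, by omega⟩
  obtain ⟨m, rfl⟩ : ∃ m, k = a + 1 + m := ⟨k - (a + 1), by omega⟩
  rw [sg_small (a + 1 + m) (a + 1 + m + 1) (a + 1) he hek v F hv hm]
  have hQ := SgN_Qpos v
  split_ifs with h
  · have h0 : a + 1 + m + 1 - (a + 1) = m + 1 := by omega
    rw [h0, Nat.add_sub_cancel]
    have e1 : (Fintype.card K : ℝ) ^ (a * v.natDegree) = ((Fintype.card K : ℝ) ^ v.natDegree) ^ a := by
      rw [mul_comm, pow_mul]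
    push_cast
    rw [e1]
    generalize (Fintype.card K : ℝ) ^ v.natDegree = Q at hQ ⊢
    rw [div_eq_div_iff (pow_ne_zero _ (pow_ne_zero _ (ne_of_gt hQ))) (pow_ne_zero _ (ne_of_gt hQ)), one_mul,
      ← pow_mul, ← pow_mul, ← pow_add]
    congr 1
    ring
  · simp

private theorem SgN_large (k e : ℕ) (hk : 1 ≤ k) (hek : k < e) (v F' : K[X])
    (hv : Irreducible v) (hm : v.Monic) :
    (SGc k (k + 1) v e (v ^ k * F') : ℝ) / (((Fintype.card K : ℝ) ^ v.natDegree) ^ e) ^ k =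
      nu k (v ^ (e - k)) F' / (Fintype.card K : ℝ) ^ v.natDegree := by
  obtain ⟨a, rfl⟩ : ∃ a, e = k + a := ⟨e - k, by omega⟩
  obtain ⟨j, rfl⟩ : ∃ j, k = j + 1 := ⟨k - 1, by omega⟩
  rw [sg_large (j + 1) (j + 1 + 1) (j + 1 + a) hk hek v F' hv hm]
  have hQ := SgN_Qpos v
  have h0 : j + 1 + a - (j + 1) = a := by omega
  unfold nu
  have e1 : (Fintype.card K : ℝ) ^ (a * v.natDegree) = ((Fintype.card K : ℝ) ^ v.natDegree) ^ a := by
    rw [mul_comm, pow_mul]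
  have e2 : (Fintype.card K : ℝ) ^ (j * v.natDegree) = ((Fintype.card K : ℝ) ^ v.natDegree) ^ j := by
    rw [mul_comm, pow_mul]
  rw [h0, Nat.add_sub_cancel, hm.natDegree_pow, e1]
  push_cast
  rw [e2]
  generalize (Fintype.card K : ℝ) ^ v.natDegree = Q at hQ ⊢
  rw [div_div, div_eq_div_iff (pow_ne_zero _ (pow_ne_zero _ (ne_of_gt hQ)))
    (mul_ne_zero (pow_ne_zero _ (pow_ne_zero _ (ne_of_gt hQ))) (ne_of_gt hQ))]
  rw [← pow_mul, ← pow_mul, ← pow_mul, ← pow_succ]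
  rw [mul_assoc, mul_comm _ (Q ^ (a * (j + 1) + 1)), ← mul_assoc, ← pow_add,
    mul_comm (NB (j + 1) (j + 1 + 1) (v ^ a) F' : ℝ)]
  congr 2
  ring

theorem diff_ndvd (k e : ℕ) (hk : 1 ≤ k) (hkK : (k : K) ≠ 0) (he : 2 ≤ e) (v F : K[X]) (hv : Irreducible v)
    (hm : v.Monic) (hF : ¬ v ∣ F) : nu k (v ^ e) F - nu k (v ^ (e - 1)) F = 0 := by
  classical
  have key : ∀ e' : ℕ, 1 ≤ e' → (SGc k (k + 1) v e' F : ℝ) / (((Fintype.card K : ℝ) ^ v.natDegree) ^ e') ^ k = 0 := by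
    intro e' he'
    by_cases h : e' ≤ k
    · rw [SgN_small k e' he' h v F hv hm, if_neg]
      intro h2
      exact hF (dvd_trans (dvd_pow_self v (by omega)) h2)
    · rw [sg_large_zero k (k + 1) e' hk (by omega) v F hv hm]
      · simp
      · intro h2
        exact hF (dvd_trans (dvd_pow_self v (by omega)) h2)
  rw [SgN_diff k e hk hkK he v F hv hm, key e (by omega), key (e - 1) (by omega), sub_zero]

theorem diff_small (k e : ℕ) (hk : 1 ≤ k) (hkK : (k : K) ≠ 0) (he : 2 ≤ e) (hek : e ≤ k) (v F : K[X])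
    (hv : Irreducible v) (hm : v.Monic) :
    |nu k (v ^ e) F - nu k (v ^ (e - 1)) F| ≤ 1 / ((Fintype.card K : ℝ) ^ v.natDegree) ^ (k + 1 - e) := by
  classical
  rw [SgN_diff k e hk hkK he v F hv hm, SgN_small k e (by omega) hek v F hv hm,
    SgN_small k (e - 1) (by omega) (by omega) v F hv hm]
  have hQ := SgN_Qpos v
  have hQ1 := SgN_Qone v
  set Q : ℝ := (Fintype.card K : ℝ) ^ v.natDegree with hQd
  have h1 : 1 / Q ^ (k + 1 - (e - 1)) ≤ 1 / Q ^ (k + 1 - e) :=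
    one_div_le_one_div_of_le (pow_pos hQ _) (pow_le_pow_right₀ hQ1 (by omega))
  have h2 : 0 ≤ 1 / Q ^ (k + 1 - (e - 1)) := by positivity
  have h3 : 0 ≤ 1 / Q ^ (k + 1 - e) := by positivity
  split_ifs
  · rw [abs_le]
    constructor <;> linarith
  · rw [abs_le]
    constructor <;> linarith
  · rw [abs_le]
    constructor <;> linarith
  · rw [abs_le]
    constructor <;> linarith

theorem diff_large_zero (k e : ℕ) (hk : 1 ≤ k) (hkK : (k : K) ≠ 0) (he : 2 ≤ e) (hek : k < e) (v F : K[X])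
    (hv : Irreducible v) (hm : v.Monic) (hF : ¬ v ^ k ∣ F) :
    nu k (v ^ e) F - nu k (v ^ (e - 1)) F = 0 := by
  classical
  rw [SgN_diff k e hk hkK he v F hv hm, sg_large_zero k (k + 1) e hk hek v F hv hm hF]
  by_cases h : k < e - 1
  · rw [sg_large_zero k (k + 1) (e - 1) hk h v F hv hm hF]
    simp
  · have h2 : e - 1 = k := by omega
    rw [h2, SgN_small k k hk le_rfl v F hv hm, if_neg hF]
    simp

theorem diff_large (k e : ℕ) (hk : 1 ≤ k) (hkK : (k : K) ≠ 0) (he : 2 ≤ e) (hek : k < e) (v F' : K[X])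
    (hv : Irreducible v) (hm : v.Monic) :
    nu k (v ^ e) (v ^ k * F') - nu k (v ^ (e - 1)) (v ^ k * F') =
      (nu k (v ^ (e - k)) F' - nu k (v ^ (e - k - 1)) F') / (Fintype.card K : ℝ) ^ v.natDegree := by
  classical
  rw [SgN_diff k e hk hkK he v _ hv hm, SgN_large k e hk hek v F' hv hm, sub_div]
  congr 1
  by_cases h : k < e - 1
  · have h5 : e - 1 - k = e - k - 1 := by omega
    rw [SgN_large k (e - 1) hk h v F' hv hm, h5]
  · have h2 : e - 1 = k := by omega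
    have h3 : e - k - 1 = 0 := by omega
    rw [h2, h3, pow_zero, nu_one, SgN_small k k hk le_rfl v _ hv hm, if_pos (dvd_mul_right _ _)]
    have h4 : k + 1 - k = 1 := by omega
    rw [h4, pow_one]

end MP_570bef_ntG
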