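import Pool.Agent.Lib.MP_570bef_ntG.Bas
import Pool.Agent.Lib.MP_570bef_ntF.FoA

/-! JOB Var.  Mean square over the class variable (Parseval) and Chebyshev.

`mean_sq`: `‖z‖² = z * conj z` (`Complex.mul_conj`, `Complex.normSq_eq_norm_sq`), expand: `∑_G ∑_{c,c' ∈ S} ψ(lin c G) conj ψ(lin c' G) a c conj (a c')`; `ψ(x) conj ψ(y) = ψ(x - y)` (`AddChar.map_neg_eq_conj`), `lin c G - lin c' G = lin (c - c') G` (linear in `c`: `lin_add`, `lin_smul`, or `lin_apply`); sum over `G ∈ SS K E`: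
`orth_SS` (FoA) with `A := lin (c - c')`: `q^(E+1)` if `lin (c-c')` vanishes on degree `≤ E`, i.e. (`lin_eq_zero`) `c = c'`, and `0` otherwise.  So only the diagonal remains.
`few_large`: `card Z * (3/4)² ≤ ∑_{G ∈ Z} ‖…‖² ≤ ∑_{G ∈ SS K E} ‖…‖² = q^(E+1) ∑ ‖a c‖²` and `16/9 ≤ 2`. -/

open Polynomial MP_570bef_ntF MP_1ad228_ntD

namespace MP_570bef_ntG

variable {K : Type} [Field K] [Fintype K]

private theorem Var_inner {ψ : AddChar K ℂ} (hψ : ψ ≠ 1) (E : ℕ) (c c' : Fin (E + 1) → K) [Decidable (c = c')] :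
    ∑ G ∈ SS K E, ψ (lin c G) * (starRingEnd ℂ) (ψ (lin c' G)) =
      if c = c' then (Fintype.card K : ℂ) ^ (E + 1) else 0 := by
  classical
  have h1 : ∀ G : K[X], ψ (lin c G) * (starRingEnd ℂ) (ψ (lin c' G)) = ψ (lin (c - c') G) := by
    intro G
    rw [← AddChar.map_neg_eq_conj, ← AddChar.map_add_eq_mul]
    congr 1
    simp only [lin_apply, Pi.sub_apply, sub_mul, Finset.sum_sub_distrib]
    ring
  rw [Finset.sum_congr rfl (fun G _ => h1 G), orth_SS hψ E (lin (c - c'))]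
  by_cases h : c = c'
  · subst h
    rw [if_pos rfl, if_pos]
    intro z _
    rw [sub_self, lin_zero]
  · rw [if_neg h, if_neg]
    intro hz
    exact h (sub_eq_zero.mp (lin_eq_zero hz))

theorem mean_sq {ψ : AddChar K ℂ} (hψ : ψ ≠ 1) (E : ℕ) (S : Finset (Fin (E + 1) → K))
    (a : (Fin (E + 1) → K) → ℂ) :
    ∑ G ∈ SS K E, ‖∑ c ∈ S, ψ (lin c G) * a c‖ ^ 2 = (Fintype.card K : ℝ) ^ (E + 1) * ∑ c ∈ S, ‖a c‖ ^ 2 := by
  classical
  apply Complex.ofReal_injective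
  push_cast
  calc ∑ G ∈ SS K E, ((‖∑ c ∈ S, ψ (lin c G) * a c‖ : ℝ) : ℂ) ^ 2
      = ∑ G ∈ SS K E, ∑ c ∈ S, ∑ c' ∈ S, (a c * (starRingEnd ℂ) (a c')) *
          (ψ (lin c G) * (starRingEnd ℂ) (ψ (lin c' G))) := by
        refine Finset.sum_congr rfl fun G _ => ?_
        rw [← Complex.mul_conj', map_sum, Finset.sum_mul_sum]
        refine Finset.sum_congr rfl fun c _ => Finset.sum_congr rfl fun c' _ => ?_
        rw [map_mul]
        ring
    _ = ∑ c ∈ S, ∑ c' ∈ S, (a c * (starRingEnd ℂ) (a c')) *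
          ∑ G ∈ SS K E, (ψ (lin c G) * (starRingEnd ℂ) (ψ (lin c' G))) := by
        rw [Finset.sum_comm]
        refine Finset.sum_congr rfl fun c _ => ?_
        rw [Finset.sum_comm]
        refine Finset.sum_congr rfl fun c' _ => ?_
        rw [Finset.mul_sum]
    _ = ∑ c ∈ S, a c * (starRingEnd ℂ) (a c) * (Fintype.card K : ℂ) ^ (E + 1) := by
        refine Finset.sum_congr rfl fun c hc => ?_
        rw [Finset.sum_eq_single c]
        · rw [Var_inner hψ E c c, if_pos rfl]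
        · intro c' _ hne
          rw [Var_inner hψ E c c', if_neg (fun h => hne h.symm), mul_zero]
        · intro h
          exact absurd hc h
    _ = (Fintype.card K : ℂ) ^ (E + 1) * ∑ c ∈ S, ((‖a c‖ : ℝ) : ℂ) ^ 2 := by
        rw [Finset.mul_sum]
        refine Finset.sum_congr rfl fun c _ => ?_
        rw [Complex.mul_conj', mul_comm]

theorem few_large {ψ : AddChar K ℂ} (hψ : ψ ≠ 1) (E : ℕ) (S : Finset (Fin (E + 1) → K))
    (a : (Fin (E + 1) → K) → ℂ) (Z : Finset K[X]) (hZ : Z ⊆ SS K E)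
    (hz : ∀ G ∈ Z, 3 / 4 ≤ ‖∑ c ∈ S, ψ (lin c G) * a c‖) :
    (Z.card : ℝ) ≤ 2 * (Fintype.card K : ℝ) ^ (E + 1) * ∑ c ∈ S, ‖a c‖ ^ 2 := by
  have h1 := mean_sq hψ E S a
  have h2 : (Z.card : ℝ) * (9 / 16) ≤ ∑ G ∈ Z, ‖∑ c ∈ S, ψ (lin c G) * a c‖ ^ 2 := by
    rw [← nsmul_eq_mul]
    refine Finset.card_nsmul_le_sum Z _ _ fun G hG => ?_
    have h3 := hz G hG
    nlinarith
  have h3 : ∑ G ∈ Z, ‖∑ c ∈ S, ψ (lin c G) * a c‖ ^ 2 ≤
      ∑ G ∈ SS K E, ‖∑ c ∈ S, ψ (lin c G) * a c‖ ^ 2 :=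
    Finset.sum_le_sum_of_subset_of_nonneg hZ fun G _ _ => by positivity
  have h4 : (0 : ℝ) ≤ (Fintype.card K : ℝ) ^ (E + 1) * ∑ c ∈ S, ‖a c‖ ^ 2 := by positivity
  rw [h1] at h3
  rw [mul_assoc]
  linarith

end MP_570bef_ntG
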